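import Mathlib

/-!
# A small structured language over stacks and its translation to Mathlib's multi-stack machines

`Cmd K G` : structured commands over a type `K` of stacks with alphabet `G`.
`Exec c s s' n` : big step semantics, `n` counts elementary steps.
`sim` : the translation to `Turing.TM2` simulates the command step by step.
-/

namespace Pool.Agent.Helper69

open Turing

/-- Structured commands over a family of stacks indexed by `K`, with alphabet `G`. -/
inductive Cmd (K G : Type) : Type
  | skip : Cmd K G
  | push : K → G → Cmd K G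
  | pop : K → Cmd K G
  | seq : Cmd K G → Cmd K G → Cmd K G
  | ite : K → G → Cmd K G → Cmd K G → Cmd K G
  | whl : K → Cmd K G → Cmd K G

namespace Cmd

variable {K G : Type} [DecidableEq K] [DecidableEq G]

/-- Big step semantics with step count. -/
inductive Exec : Cmd K G → (K → List G) → (K → List G) → ℕ → Prop
  | skip (s) : Exec .skip s s 1
  | push (k a s) : Exec (.push k a) s (Function.update s k (a :: s k)) 1
  | pop (k s) : Exec (.pop k) s (Function.update s k (s k).tail) 1
  | seq {c d s s' s'' n m} : Exec c s s' n → Exec d s' s'' m → Exec (.seq c d) s s'' (n + m)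
  | iteT {k a c d s s' n} : (s k).head? = some a → Exec c s s' n → Exec (.ite k a c d) s s' (n + 1)
  | iteF {k a c d s s' n} : (s k).head? ≠ some a → Exec d s s' n → Exec (.ite k a c d) s s' (n + 1)
  | whlE {k c s} : s k = [] → Exec (.whl k c) s s 1
  | whlS {k c s s' s'' n m} : s k ≠ [] → Exec c s s' n → Exec (.whl k c) s' s'' m →
      Exec (.whl k c) s s'' (n + m + 1)

/-- Program points of a command. -/
def Lbl : Cmd K G → Type
  | .skip => Unit
  | .push _ _ => Unit
  | .pop _ => Unit
  | .seq c d => Lbl c ⊕ Lbl d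
  | .ite _ _ c d => Unit ⊕ (Lbl c ⊕ Lbl d)
  | .whl _ c => Unit ⊕ Lbl c

/-- The program points form a finite type. -/
def lblFin : (c : Cmd K G) → Fintype (Lbl c)
  | .skip => inferInstanceAs (Fintype Unit)
  | .push _ _ => inferInstanceAs (Fintype Unit)
  | .pop _ => inferInstanceAs (Fintype Unit)
  | .seq c d =>
    letI := lblFin c
    letI := lblFin d
    inferInstanceAs (Fintype (Lbl c ⊕ Lbl d))
  | .ite _ _ c d =>
    letI := lblFin c
    letI := lblFin d
    inferInstanceAs (Fintype (Unit ⊕ (Lbl c ⊕ Lbl d)))
  | .whl _ c =>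
    letI := lblFin c
    inferInstanceAs (Fintype (Unit ⊕ Lbl c))

/-- Entry point. -/
def entry : (c : Cmd K G) → Lbl c
  | .skip => ()
  | .push _ _ => ()
  | .pop _ => ()
  | .seq c _ => Sum.inl (entry c)
  | .ite _ _ _ _ => Sum.inl ()
  | .whl _ _ => Sum.inl ()

/-- The code of a command, given the placement `emb` of its program points among the labels `L` of
the whole machine and the label `ex` to jump to at the end. -/
def code {L : Type} : (c : Cmd K G) → (Lbl c → L) → L → Lbl c →
    TM2.Stmt (fun _ : K => G) L (Option G)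
  | .skip, _, ex, _ => TM2.Stmt.goto fun _ => ex
  | .push k a, _, ex, _ => TM2.Stmt.push k (fun _ => a) (TM2.Stmt.goto fun _ => ex)
  | .pop k, _, ex, _ => TM2.Stmt.pop k (fun v _ => v) (TM2.Stmt.goto fun _ => ex)
  | .seq c d, emb, _, Sum.inl l =>
    code c (fun l => emb (Sum.inl l)) (emb (Sum.inr (entry d))) l
  | .seq _ d, emb, ex, Sum.inr l => code d (fun l => emb (Sum.inr l)) ex l
  | .ite k a c d, emb, _, Sum.inl () =>
    TM2.Stmt.peek k (fun _ x => x)
      (TM2.Stmt.branch (fun v => decide (v = some a))
        (TM2.Stmt.load (fun _ => none) (TM2.Stmt.goto fun _ => emb (Sum.inr (Sum.inl (entry c)))))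
        (TM2.Stmt.load (fun _ => none) (TM2.Stmt.goto fun _ => emb (Sum.inr (Sum.inr (entry d))))))
  | .ite _ _ c _, emb, ex, Sum.inr (Sum.inl l) =>
    code c (fun l => emb (Sum.inr (Sum.inl l))) ex l
  | .ite _ _ _ d, emb, ex, Sum.inr (Sum.inr l) =>
    code d (fun l => emb (Sum.inr (Sum.inr l))) ex l
  | .whl k c, emb, ex, Sum.inl () =>
    TM2.Stmt.peek k (fun _ x => x)
      (TM2.Stmt.branch (fun v => v.isSome)
        (TM2.Stmt.load (fun _ => none) (TM2.Stmt.goto fun _ => emb (Sum.inr (entry c))))
        (TM2.Stmt.load (fun _ => none) (TM2.Stmt.goto fun _ => ex)))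
  | .whl _ c, emb, _, Sum.inr l =>
    code c (fun l => emb (Sum.inr l)) (emb (Sum.inl ())) l

/-- `n` steps of a machine lead from the configuration `a` to the configuration `b`. -/
def Steps {L : Type} (M : L → TM2.Stmt (fun _ : K => G) L (Option G)) (n : ℕ)
    (a b : TM2.Cfg (fun _ : K => G) L (Option G)) : Prop :=
  (flip bind (TM2.step M))^[n] (some a) = some b

theorem Steps.trans {L : Type} {M : L → TM2.Stmt (fun _ : K => G) L (Option G)} {n m : ℕ}
    {a b c : TM2.Cfg (fun _ : K => G) L (Option G)} (h1 : Steps M n a b) (h2 : Steps M m b c) :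
    Steps M (n + m) a c := by
  unfold Steps at *
  rw [Nat.add_comm, Function.iterate_add_apply, h1, h2]

theorem Steps.one {L : Type} {M : L → TM2.Stmt (fun _ : K => G) L (Option G)}
    {a b : TM2.Cfg (fun _ : K => G) L (Option G)} (h : TM2.step M a = some b) :
    Steps M 1 a b := by
  simp [Steps, flip, h]

theorem sim {L : Type} (M : L → TM2.Stmt (fun _ : K => G) L (Option G)) {c : Cmd K G}
    {s s' : K → List G} {n : ℕ} (h : Exec c s s' n) :
    ∀ (emb : Lbl c → L) (ex : L), (∀ l, M (emb l) = code c emb ex l) →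
      Steps M n ⟨some (emb (entry c)), none, s⟩ ⟨some ex, none, s'⟩ := by
  induction h with
  | skip s =>
    intro emb ex hM
    apply Steps.one
    simp [TM2.step, hM, code, TM2.stepAux]
  | push k a s =>
    intro emb ex hM
    apply Steps.one
    simp [TM2.step, hM, code, TM2.stepAux]
  | pop k s =>
    intro emb ex hM
    apply Steps.one
    simp [TM2.step, hM, code, TM2.stepAux]
  | @seq c d s s' s'' n m _ _ ih1 ih2 =>
    intro emb ex hM
    have h1 := ih1 (fun l => emb (Sum.inl l)) (emb (Sum.inr (entry d)))
      (fun l => by rw [hM]; simp [code])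
    have h2 := ih2 (fun l => emb (Sum.inr l)) ex (fun l => by rw [hM]; simp [code])
    exact h1.trans h2
  | @iteT k a c d s s' n hk _ ih =>
    intro emb ex hM
    have h1 := ih (fun l => emb (Sum.inr (Sum.inl l))) ex (fun l => by rw [hM]; simp [code])
    rw [Nat.add_comm]
    refine Steps.trans (Steps.one ?_) h1
    simp [TM2.step, hM, code, TM2.stepAux, entry, hk]
  | @iteF k a c d s s' n hk _ ih =>
    intro emb ex hM
    have h1 := ih (fun l => emb (Sum.inr (Sum.inr l))) ex (fun l => by rw [hM]; simp [code])
    rw [Nat.add_comm]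
    refine Steps.trans (Steps.one ?_) h1
    simp [TM2.step, hM, code, TM2.stepAux, entry, hk]
  | @whlE k c s hk =>
    intro emb ex hM
    apply Steps.one
    simp [TM2.step, hM, code, TM2.stepAux, entry, hk]
  | @whlS k c s s' s'' n m hk _ _ ih1 ih2 =>
    intro emb ex hM
    have h1 := ih1 (fun l => emb (Sum.inr l)) (emb (Sum.inl ())) (fun l => by rw [hM]; simp [code])
    have h2 := ih2 emb ex hM
    rw [Nat.add_comm]
    refine Steps.trans (Steps.one ?_) (h1.trans h2)
    obtain ⟨x, xs, hx⟩ := List.exists_cons_of_ne_nil hk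
    simp [TM2.step, hM, code, TM2.stepAux, entry, hx]

end Cmd

end Pool.Agent.Helper69
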