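import Mathlib
import Pool.Agent.Helper69.Mach

/-!
# From structured stack programs to Mathlib's `FinTM2`
-/

namespace Pool.Agent.Helper69

open Turing

namespace Cmd

variable {G : Type} [DecidableEq G]

/-- Rename the stacks of a command. -/
def map {K K' : Type} (f : K → K') : Cmd K G → Cmd K' G
  | .skip => .skip
  | .push k a => .push (f k) a
  | .pop k => .pop (f k)
  | .seq c d => .seq (map f c) (map f d)
  | .ite k a c d => .ite (f k) a (map f c) (map f d)
  | .whl k c => .whl (f k) (map f c)

/-- A bound on the stacks used by a command. -/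
def top : Cmd ℕ G → ℕ
  | .skip => 0
  | .push k _ => k + 1
  | .pop k => k + 1
  | .seq c d => max (top c) (top d)
  | .ite k _ c d => max (k + 1) (max (top c) (top d))
  | .whl k c => max (k + 1) (top c)

/-- Send a stack number to the finite type of stacks `0, ..., B`. -/
def clamp (B k : ℕ) : Fin (B + 1) := ⟨min k B, by omega⟩

/-- Restrict a family of stacks to the first `B`. -/
def rst (B : ℕ) (s : ℕ → List G) : Fin (B + 1) → List G := fun k => if k.1 < B then s k.1 else []

omit [DecidableEq G] in
theorem rst_clamp {B k : ℕ} (h : k < B) (s : ℕ → List G) : rst B s (clamp B k) = s k := by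
  have : min k B = k := by omega
  simp [rst, clamp, this, h]

omit [DecidableEq G] in
theorem rst_update {B k : ℕ} (h : k < B) (s : ℕ → List G) (x : List G) :
    rst B (Function.update s k x) = Function.update (rst B s) (clamp B k) x := by
  funext i
  have hk : min k B = k := by omega
  by_cases hi : i = clamp B k
  · subst hi
    simp [rst, clamp, hk, h]
  · rw [Function.update_of_ne hi]
    have : i.1 ≠ k := by
      intro h2
      apply hi
      apply Fin.ext
      simp [clamp, hk, h2]
    simp [rst, Function.update_of_ne this]

theorem Exec.map_rst {B : ℕ} {c : Cmd ℕ G} {s s' : ℕ → List G} {n : ℕ} (h : Exec c s s' n)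
    (hB : top c ≤ B) : Exec (map (clamp B) c) (rst B s) (rst B s') n := by
  induction h with
  | skip s => exact Exec.skip _
  | push k a s =>
    have hk : k < B := by simpa [top] using hB
    have := Exec.push (clamp B k) a (rst B s)
    rw [rst_clamp hk] at this
    rw [rst_update hk]
    exact this
  | pop k s =>
    have hk : k < B := by simpa [top] using hB
    have := Exec.pop (G := G) (clamp B k) (rst B s)
    rw [rst_clamp hk] at this
    rw [rst_update hk]
    exact this
  | seq _ _ ih1 ih2 =>
    simp only [top, max_le_iff] at hB
    exact Exec.seq (ih1 hB.1) (ih2 hB.2)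
  | @iteT k a c d s s' n hk _ ih =>
    simp only [top, max_le_iff] at hB
    refine Exec.iteT ?_ (ih hB.2.1)
    rw [rst_clamp (by omega)]
    exact hk
  | @iteF k a c d s s' n hk _ ih =>
    simp only [top, max_le_iff] at hB
    refine Exec.iteF ?_ (ih hB.2.2)
    rw [rst_clamp (by omega)]
    exact hk
  | @whlE k c s hk =>
    simp only [top, max_le_iff] at hB
    refine Exec.whlE ?_
    rw [rst_clamp (by omega)]
    exact hk
  | @whlS k c s s' s'' n m hk _ _ ih1 ih2 =>
    have hB' := hB
    simp only [top, max_le_iff] at hB'
    refine Exec.whlS ?_ (ih1 hB'.2) (ih2 hB)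
    rw [rst_clamp (by omega)]
    exact hk

end Cmd

/-- The tape alphabet: the two bits and a separator. -/
abbrev Sym := Option Bool

/-- The machine of a command on numbered stacks; stack `0` is the input, stack `1` the output. -/
def mach (c : Cmd ℕ Sym) (B : ℕ) : FinTM2 :=
  letI := Cmd.lblFin (Cmd.map (Cmd.clamp B) c)
  { K := Fin (B + 1)
    k₀ := Cmd.clamp B 0
    k₁ := Cmd.clamp B 1
    Γ := fun _ => Sym
    Λ := Option (Cmd.Lbl (Cmd.map (Cmd.clamp B) c))
    main := some (Cmd.entry _)
    σ := Option Sym
    initialState := none
    m := fun l => match l with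
      | none => TM2.Stmt.halt
      | some l => Cmd.code (Cmd.map (Cmd.clamp B) c) some none l }

/-- The family of stacks which is empty except for the list `w` on stack `k`. -/
def single (k : ℕ) (w : List Sym) : ℕ → List Sym := Function.update (fun _ => []) k w

theorem mach_outputs (c : Cmd ℕ Sym) (B : ℕ) (hB : Cmd.top c ≤ B) (hB2 : 2 ≤ B) (w v : List Sym)
    (n : ℕ) (h : Cmd.Exec c (single 0 w) (single 1 v) n) (m : ℕ) (hm : n + 1 ≤ m) :
    Nonempty (TM2OutputsInTime (mach c B) w (some v) m) := by
  have h1 := h.map_rst hB
  have h2 := Cmd.sim (L := Option (Cmd.Lbl (Cmd.map (Cmd.clamp B) c))) (fun l => match l with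
      | none => TM2.Stmt.halt
      | some l => Cmd.code (Cmd.map (Cmd.clamp B) c) some none l) h1 some none (fun l => rfl)
  have h3 := Cmd.Steps.one (M := (fun l : Option (Cmd.Lbl (Cmd.map (Cmd.clamp B) c)) => match l with
      | none => TM2.Stmt.halt
      | some l => Cmd.code (Cmd.map (Cmd.clamp B) c) some none l))
    (a := ⟨some none, none, Cmd.rst B (single 1 v)⟩) (b := ⟨none, none, Cmd.rst B (single 1 v)⟩) rfl
  have h4 := h2.trans h3
  refine ⟨⟨⟨n + 1, ?_⟩, hm⟩⟩
  unfold Cmd.Steps at h4
  have e1 : initList (mach c B) w = ⟨some (some (Cmd.entry _)), none, Cmd.rst B (single 0 w)⟩ := by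
    unfold initList
    congr 1
    refine funext fun (k : Fin (B + 1)) => ?_
    by_cases hk : k = Cmd.clamp B 0
    · subst hk
      rw [Cmd.rst_clamp (by omega)]
      simp only [single, Function.update_self]
      exact dif_pos rfl
    · have : k.1 ≠ 0 := by
        intro h0
        apply hk
        apply Fin.ext
        simpa [Cmd.clamp] using h0
      have e : Cmd.rst B (single 0 w) k = [] := by
        simp [Cmd.rst, single, Function.update_of_ne this]
      rw [e]
      exact dif_neg hk
  have e2 : haltList (mach c B) v = ⟨none, none, Cmd.rst B (single 1 v)⟩ := by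
    unfold haltList
    congr 1
    refine funext fun (k : Fin (B + 1)) => ?_
    by_cases hk : k = Cmd.clamp B 1
    · subst hk
      rw [Cmd.rst_clamp (by omega)]
      simp only [single, Function.update_self]
      exact dif_pos rfl
    · have : k.1 ≠ 1 := by
        intro h0
        apply hk
        apply Fin.ext
        simp only [Cmd.clamp]
        omega
      have e : Cmd.rst B (single 1 v) k = [] := by
        simp [Cmd.rst, single, Function.update_of_ne this]
      rw [e]
      exact dif_neg hk
  rw [e1]
  simp only [Option.map_some]
  rw [e2]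
  exact h4

end Pool.Agent.Helper69
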