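import Mathlib
import Pool.Agent.Helper69.Mach2

/-!
# A language of polynomial time string functions

`Tm` : arithmetical terms with bounded sums and access to the input word.
`Em` : programs emitting an output word, with bounded loops.
Every `Em` program is executed by a stack program in polynomial time.
-/

namespace Pool.Agent.Helper69

open Finset

/-- Families of stacks. -/
abbrev St := ℕ → List Sym

/-- `c` leads from `s` to `s'` in at most `T` steps. -/
def ExecLe (c : Cmd ℕ Sym) (s s' : St) (T : ℕ) : Prop := ∃ n ≤ T, Cmd.Exec c s s' n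

theorem ExecLe.mono {c : Cmd ℕ Sym} {s s' : St} {T T' : ℕ} (h : ExecLe c s s' T) (hT : T ≤ T') :
    ExecLe c s s' T' := by
  obtain ⟨n, hn, h⟩ := h
  exact ⟨n, hn.trans hT, h⟩

theorem ExecLe.seq {c d : Cmd ℕ Sym} {s s' s'' : St} {T T' : ℕ} (h : ExecLe c s s' T)
    (h' : ExecLe d s' s'' T') : ExecLe (.seq c d) s s'' (T + T') := by
  obtain ⟨n, hn, h⟩ := h
  obtain ⟨m, hm, h'⟩ := h'
  exact ⟨n + m, by omega, h.seq h'⟩

theorem ExecLe.skip (s : St) : ExecLe .skip s s 1 := ⟨1, le_rfl, .skip s⟩

theorem ExecLe.push (k : ℕ) (a : Sym) (s : St) :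
    ExecLe (.push k a) s (Function.update s k (a :: s k)) 1 := ⟨1, le_rfl, .push k a s⟩

theorem ExecLe.pop (k : ℕ) (s : St) :
    ExecLe (.pop k) s (Function.update s k (s k).tail) 1 := ⟨1, le_rfl, .pop k s⟩

theorem ExecLe.push' {k : ℕ} {a : Sym} {s s' : St} (h : s' = Function.update s k (a :: s k)) :
    ExecLe (.push k a) s s' 1 := h ▸ ExecLe.push k a s

theorem ExecLe.pop' {k : ℕ} {s s' : St} (h : s' = Function.update s k (s k).tail) :
    ExecLe (.pop k) s s' 1 := h ▸ ExecLe.pop k s

theorem ExecLe.iteT {k : ℕ} {a : Sym} {c d : Cmd ℕ Sym} {s s' : St} {T : ℕ}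
    (hk : (s k).head? = some a) (h : ExecLe c s s' T) : ExecLe (.ite k a c d) s s' (T + 1) := by
  obtain ⟨n, hn, h⟩ := h
  exact ⟨n + 1, by omega, .iteT hk h⟩

theorem ExecLe.iteF {k : ℕ} {a : Sym} {c d : Cmd ℕ Sym} {s s' : St} {T : ℕ}
    (hk : (s k).head? ≠ some a) (h : ExecLe d s s' T) : ExecLe (.ite k a c d) s s' (T + 1) := by
  obtain ⟨n, hn, h⟩ := h
  exact ⟨n + 1, by omega, .iteF hk h⟩

/-- The loop rule; `st j` is the state when `j` symbols are left on the stack `k`. -/
theorem ExecLe.whl {k : ℕ} {c : Cmd ℕ Sym} (N : ℕ) (st : ℕ → St) (T : ℕ) (h0 : st 0 k = [])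
    (hne : ∀ j < N, st (j + 1) k ≠ []) (hstep : ∀ j < N, ExecLe c (st (j + 1)) (st j) T) :
    ExecLe (.whl k c) (st N) (st 0) (N * (T + 1) + 1) := by
  induction N with
  | zero => exact ⟨1, by omega, .whlE h0⟩
  | succ N ih =>
    obtain ⟨n, hn, h⟩ := ih (fun j hj => hne j (by omega)) (fun j hj => hstep j (by omega))
    obtain ⟨m, hm, h'⟩ := hstep N (by omega)
    refine ⟨m + n + 1, ?_, .whlS (hne N (by omega)) h' h⟩
    have : (N + 1) * (T + 1) = N * (T + 1) + T + 1 := by ring
    omega

/-- Register of the variable `i`. -/
def X (i : ℕ) : ℕ := 4 + 2 * i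

/-- Register of the temporary `j`. -/
def T (j : ℕ) : ℕ := 5 + 2 * j

@[simp] theorem X_inj {i j : ℕ} : X i = X j ↔ i = j := by unfold X; omega
@[simp] theorem T_inj {i j : ℕ} : T i = T j ↔ i = j := by unfold T; omega
@[simp] theorem X_ne_T {i j : ℕ} : X i ≠ T j := by unfold X T; omega
@[simp] theorem T_ne_X {i j : ℕ} : T i ≠ X j := by unfold X T; omega
@[simp] theorem X_ne_0 {i : ℕ} : X i ≠ 0 := by unfold X; omega
@[simp] theorem X_ne_1 {i : ℕ} : X i ≠ 1 := by unfold X; omega
@[simp] theorem X_ne_2 {i : ℕ} : X i ≠ 2 := by unfold X; omega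
@[simp] theorem X_ne_3 {i : ℕ} : X i ≠ 3 := by unfold X; omega
@[simp] theorem T_ne_0 {i : ℕ} : T i ≠ 0 := by unfold T; omega
@[simp] theorem T_ne_1 {i : ℕ} : T i ≠ 1 := by unfold T; omega
@[simp] theorem T_ne_2 {i : ℕ} : T i ≠ 2 := by unfold T; omega
@[simp] theorem T_ne_3 {i : ℕ} : T i ≠ 3 := by unfold T; omega
@[simp] theorem ne_0_X {i : ℕ} : 0 ≠ X i := by unfold X; omega
@[simp] theorem ne_1_X {i : ℕ} : 1 ≠ X i := by unfold X; omega
@[simp] theorem ne_2_X {i : ℕ} : 2 ≠ X i := by unfold X; omega
@[simp] theorem ne_3_X {i : ℕ} : 3 ≠ X i := by unfold X; omega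
@[simp] theorem ne_0_T {i : ℕ} : 0 ≠ T i := by unfold T; omega
@[simp] theorem ne_1_T {i : ℕ} : 1 ≠ T i := by unfold T; omega
@[simp] theorem ne_2_T {i : ℕ} : 2 ≠ T i := by unfold T; omega
@[simp] theorem ne_3_T {i : ℕ} : 3 ≠ T i := by unfold T; omega

/-- The unary representation of a number. -/
def un (n : ℕ) : List Sym := List.replicate n (some true)

@[simp] theorem un_zero : un 0 = [] := rfl
@[simp] theorem un_succ_tail (n : ℕ) : (un (n + 1)).tail = un n := rfl
@[simp] theorem un_succ_ne (n : ℕ) : un (n + 1) ≠ [] := by simp [un]
@[simp] theorem un_cons (n : ℕ) : (some true :: un n : List Sym) = un (n + 1) := rfl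
@[simp] theorem un_cons_append (n : ℕ) (l : List Sym) :
    (some true :: (un n ++ l) : List Sym) = un (n + 1) ++ l := rfl
@[simp] theorem un_head (n : ℕ) : (un (n + 1)).head? = some (some true) := rfl
theorem un_append (n m : ℕ) : un n ++ un m = un (n + m) := by simp [un]
theorem un_append' (n m : ℕ) (l : List Sym) : un n ++ (un m ++ l) = un (n + m) ++ l := by
  rw [← List.append_assoc, un_append]

/-- Terms. -/
inductive Tm : Type
  | cst : ℕ → Tm
  | var : ℕ → Tm
  | add : Tm → Tm → Tm
  | mul : Tm → Tm → Tm
  | sub : Tm → Tm → Tm
  | sum : Tm → Tm → Tm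
  | shr : Tm → Tm → Tm
  | sym : Sym → Tm → Tm
  | len : Tm

/-- Value of a term for the input `w`; `n` is the number of bound variables. -/
def Tm.eval (w : List Sym) : ℕ → (ℕ → ℕ) → Tm → ℕ
  | _, _, .cst c => c
  | _, e, .var i => e i
  | n, e, .add a b => Tm.eval w n e a + Tm.eval w n e b
  | n, e, .mul a b => Tm.eval w n e a * Tm.eval w n e b
  | n, e, .sub a b => Tm.eval w n e a - Tm.eval w n e b
  | n, e, .sum a b => ∑ x ∈ range (Tm.eval w n e a), Tm.eval w (n + 1) (Function.update e n x) b
  | n, e, .shr a b => Tm.eval w n e a / 2 ^ Tm.eval w n e b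
  | n, e, .sym s a => if w[Tm.eval w n e a]? = some s then 1 else 0
  | _, _, .len => w.length

/-- Move the top symbol of stack `a` to stack `b`. -/
def mv (a b : ℕ) : Cmd ℕ Sym :=
  .ite a (some true) (.seq (.pop a) (.push b (some true)))
    (.ite a (some false) (.seq (.pop a) (.push b (some false)))
      (.ite a none (.seq (.pop a) (.push b none)) .skip))

/-- Move all marks from `a` to `b`. -/
def drain (a b : ℕ) : Cmd ℕ Sym := .whl a (.seq (.pop a) (.push b (some true)))

/-- Push the number `c` in unary. -/
def pushN (r : ℕ) : ℕ → Cmd ℕ Sym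
  | 0 => .skip
  | c + 1 => .seq (.push r (some true)) (pushN r c)

/-- Code evaluating a term, adding the result to register `r`. `d` is the number of
temporaries in use. -/
def Tm.ev : ℕ → ℕ → Tm → ℕ → Cmd ℕ Sym
  | _, _, .cst c, r => pushN r c
  | _, d, .var i, r =>
    .seq (.whl (X i) (.seq (.pop (X i)) (.seq (.push (T d) (some true)) (.push r (some true)))))
      (drain (T d) (X i))
  | n, d, .add a b, r => .seq (Tm.ev n d a r) (Tm.ev n d b r)
  | n, d, .mul a b, r =>
    .seq (Tm.ev n (d + 1) a (T d)) (.whl (T d) (.seq (.pop (T d)) (Tm.ev n (d + 1) b r)))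
  | n, d, .sub a b, r =>
    .seq (Tm.ev n (d + 1) a (T d)) (.seq (Tm.ev n (d + 2) b (T (d + 1)))
      (.seq (.whl (T (d + 1)) (.seq (.pop (T (d + 1))) (.pop (T d)))) (drain (T d) r)))
  | n, d, .sum a b, r =>
    .seq (Tm.ev n (d + 1) a (T d))
      (.seq (.whl (T d) (.seq (.pop (T d)) (.seq (Tm.ev (n + 1) (d + 1) b r)
        (.push (X n) (some true))))) (.whl (X n) (.pop (X n))))
  | n, d, .shr a b, r =>
    .seq (Tm.ev n (d + 1) a (T d)) (.seq (Tm.ev n (d + 2) b (T (d + 1)))
      (.seq (.whl (T (d + 1)) (.seq (.pop (T (d + 1)))
        (.seq (.whl (T d) (.seq (.pop (T d)) (.ite (T d) (some true)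
          (.seq (.pop (T d)) (.push (T (d + 2)) (some true))) .skip)))
          (drain (T (d + 2)) (T d))))) (drain (T d) r)))
  | n, d, .sym s a, r =>
    .seq (Tm.ev n (d + 1) a (T d)) (.seq (.whl (T d) (.seq (.pop (T d)) (mv 0 2)))
      (.seq (.ite 0 s (.push r (some true)) .skip) (.whl 2 (mv 2 0))))
  | _, _, .len, r =>
    .seq (.whl 0 (.seq (mv 0 2) (.push r (some true)))) (.whl 2 (mv 2 0))

/-- The state `s` represents the input `w` and the values `e` of the variables; the temporaries
from number `d` on are free. -/
structure Rep (w : List Sym) (n d : ℕ) (e : ℕ → ℕ) (s : St) : Prop where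
  inp : s 0 = w
  aux : s 2 = []
  var : ∀ i, s (X i) = un (e i)
  zer : ∀ i, n ≤ i → e i = 0
  tmp : ∀ j, d ≤ j → s (T j) = []

theorem mv_spec (a b : ℕ) (s : St) (x : Sym) (xs : List Sym) (h : s a = x :: xs) (hab : a ≠ b) :
    ExecLe (mv a b) s (Function.update (Function.update s a xs) b (x :: s b)) 5 := by
  have key : ExecLe (.seq (.pop a) (.push b x)) s
      (Function.update (Function.update s a xs) b (x :: s b)) 2 := by
    refine (ExecLe.pop a s).seq (ExecLe.push' ?_)
    rw [h, Function.update_of_ne (Ne.symm hab)]
    rfl
  unfold mv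
  rcases x with _ | _ | _
  · refine (ExecLe.iteF (by simp [h]) (ExecLe.iteF (by simp [h]) (ExecLe.iteT (by simp [h])
      key))).mono (by omega)
  · refine (ExecLe.iteF (by simp [h]) (ExecLe.iteT (by simp [h]) key)).mono (by omega)
  · refine (ExecLe.iteT (by simp [h]) key).mono (by omega)

theorem mv_nil (a b : ℕ) (s : St) (h : s a = []) : ExecLe (mv a b) s s 4 := by
  unfold mv
  exact ExecLe.iteF (by simp [h]) (ExecLe.iteF (by simp [h]) (ExecLe.iteF (by simp [h])
      (ExecLe.skip s)))

theorem drain_spec (a b : ℕ) (s : St) (N : ℕ) (h : s a = un N) (hab : a ≠ b) :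
    ExecLe (drain a b) s (Function.update (Function.update s a []) b (un N ++ s b))
      (N * 3 + 1) := by
  have := ExecLe.whl (k := a) (c := .seq (.pop a) (.push b (some true))) N
    (fun j => Function.update (Function.update s a (un j)) b (un (N - j) ++ s b)) 2
    (by simp [Function.update_apply, hab]) (by intro j hj; simp [Function.update_apply, hab])
    (by
      intro j hj
      refine (ExecLe.pop _ _).seq (ExecLe.push' ?_)
      have : N - j = N - (j + 1) + 1 := by omega
      rw [this]
      funext k
      simp only [Function.update_apply]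
      split_ifs <;> simp_all)
  simp only [Nat.sub_self, un_zero, List.nil_append, Nat.sub_zero] at this
  have e : Function.update (Function.update s a (un N)) b (s b) = s := by
    rw [← h]
    simp [Function.update_of_ne (Ne.symm hab)]
  rw [e] at this
  exact this

theorem pushN_spec (r c : ℕ) (s : St) :
    ExecLe (pushN r c) s (Function.update s r (un c ++ s r)) (c + 1) := by
  induction c generalizing s with
  | zero =>
    have : Function.update s r (un 0 ++ s r) = s := by simp
    rw [this]
    exact ExecLe.skip s
  | succ c ih =>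
    have h := (ExecLe.push r (some true) s).seq (ih (Function.update s r (some true :: s r)))
    have e : Function.update s r (un (c + 1) ++ s r) =
        Function.update (Function.update s r (some true :: s r)) r
          (un c ++ Function.update s r (some true :: s r) r) := by
      simp only [Function.update_self, Function.update_idem]
      congr 1
      have : un (c + 1) = un c ++ [some true] := by
        simp [un, List.replicate_succ']
      rw [this]
      simp
    rw [e]
    exact h.mono (by omega)

theorem clear_spec (a : ℕ) (s : St) (N : ℕ) (h : s a = un N) :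
    ExecLe (.whl a (.pop a)) s (Function.update s a []) (N * 2 + 1) := by
  have := ExecLe.whl (k := a) (c := .pop a) N
    (fun j => Function.update s a (un j)) 1
    (by simp) (by intro j hj; simp)
    (by
      intro j hj
      refine ExecLe.pop' ?_
      simp)
  simp only [un_zero] at this
  have e : Function.update s a (un N) = s := by
    rw [← h]
    simp
  rw [e] at this
  exact this

/-- A term evaluated by its code, in polynomial time. -/
def Good (t : Tm) (D : ℕ) : Prop :=
  ∀ (w : List Sym) (n d : ℕ) (e : ℕ → ℕ) (s : St) (j B : ℕ), Rep w n d e s → j < d → 100 ≤ B →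
    (∀ i, e i ≤ B) → w.length ≤ B →
    t.eval w n e ≤ B ^ (D + 1) ∧
    ExecLe (t.ev n d (T j)) s (Function.update s (T j) (un (t.eval w n e) ++ s (T j)))
      (B ^ (D + 1))

theorem Rep.upd {w : List Sym} {n d : ℕ} {e : ℕ → ℕ} {s : St} (h : Rep w n d e s) {j d' : ℕ}
    (hj : j < d') (hd : d ≤ d') (l : List Sym) : Rep w n d' e (Function.update s (T j) l) := by
  refine ⟨?_, ?_, ?_, h.zer, ?_⟩
  · simpa [Function.update_apply] using h.inp
  · simpa [Function.update_apply] using h.aux
  · intro i
    simpa [Function.update_apply] using h.var i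
  · intro i hi
    have : i ≠ j := by omega
    simpa [Function.update_apply, this] using h.tmp i (by omega)

theorem Rep.mono {w : List Sym} {n d d' : ℕ} {e : ℕ → ℕ} {s : St} (h : Rep w n d e s)
    (hd : d ≤ d') : Rep w n d' e s :=
  ⟨h.inp, h.aux, h.var, h.zer, fun j hj => h.tmp j (by omega)⟩

theorem good_cst (c : ℕ) : Good (.cst c) c := by
  intro w n d e s j B hs hj hB he hw
  have h1 : c + 1 ≤ B ^ (c + 1) := (Nat.lt_pow_self (by omega)).le
  refine ⟨by simp only [Tm.eval]; omega, ?_⟩
  exact (pushN_spec (T j) c s).mono h1

/-- The rule for counting loops: `F i` is the state after `i` rounds, up to the counter `k`. -/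
theorem loop_spec {k : ℕ} {body : Cmd ℕ Sym} (N : ℕ) (F : ℕ → St) (s : St) (T : ℕ)
    (h0 : s = Function.update (F 0) k (un N))
    (hF : ∀ i < N, ∀ m, ExecLe body (Function.update (F i) k (un m))
      (Function.update (F (i + 1)) k (un m)) T) :
    ExecLe (.whl k (.seq (.pop k) body)) s (Function.update (F N) k []) (N * (T + 2) + 1) := by
  have h := ExecLe.whl (k := k) (c := .seq (.pop k) body) N
    (fun j => Function.update (F (N - j)) k (un j)) (1 + T) (by simp) (by intro j hj; simp)
    (by
      intro j hj
      refine (ExecLe.pop' (s' := Function.update (F (N - (j + 1))) k (un j)) ?_).seq ?_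
      · simp
      · have h1 := hF (N - (j + 1)) (by omega) j
        have e : N - (j + 1) + 1 = N - j := by omega
        rw [e] at h1
        exact h1)
  simp only [Nat.sub_self, un_zero, Nat.sub_zero] at h
  rw [← h0] at h
  exact h.mono (by ring_nf; omega)

theorem good_var (i : ℕ) : Good (.var i) 1 := by
  intro w n d e s j B hs hj hB he hw
  have hi := he i
  have hB2 : B ^ (1 + 1) = B * B := by ring
  rw [hB2]
  refine ⟨by simp only [Tm.eval]; nlinarith, ?_⟩
  have hjd : j ≠ d := by omega
  have hdj : d ≠ j := by omega
  have hX := hs.var i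
  have hT := hs.tmp d le_rfl
  have h1 := loop_spec (k := X i) (body := .seq (.push (T d) (some true))
    (.push (T j) (some true))) (e i)
    (fun m => Function.update (Function.update s (T d) (un m)) (T j) (un m ++ s (T j))) s 2
    (by
      funext k
      simp [Function.update_apply, hjd]
      split_ifs <;> simp_all)
    (by
      intro q hq m
      refine ((ExecLe.push _ _ _).seq (ExecLe.push' ?_)).mono le_rfl
      funext k
      simp [Function.update_apply, hjd, hdj]
      split_ifs <;> simp_all)
  have h2 := drain_spec (T d) (X i) (Function.update ((fun m => Function.update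
    (Function.update s (T d)
    (un m)) (T j) (un m ++ s (T j))) (e i)) (X i) []) (e i) (by simp [Function.update_apply, hdj])
    (by simp)
  have h3 := h1.seq h2
  convert! h3.mono ?_ using 1
  · funext k
    simp [Function.update_apply, Tm.eval]
    split_ifs <;> simp_all
  · nlinarith

theorem takerev {w : List Sym} {i : ℕ} (hi : i < w.length) :
    (w.take (i + 1)).reverse = w[i] :: (w.take i).reverse := by
  rw [List.take_add_one]
  simp [List.getElem?_eq_getElem hi]

/-- Restoring the input word. -/
theorem restore_spec (w : List Sym) (m : ℕ) (s : St) (hm : m ≤ w.length) (h0 : s 0 = w.drop m)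
    (h2 : s 2 = (w.take m).reverse) :
    ExecLe (.whl 2 (mv 2 0)) s (Function.update (Function.update s 0 w) 2 []) (m * 6 + 1) := by
  have h := ExecLe.whl (k := 2) (c := mv 2 0) m
    (fun m => Function.update (Function.update s 0 (w.drop m)) 2 (w.take m).reverse) 5
    (by simp)
    (by
      intro i hi
      simp
      intro h
      simp [h] at hm
      omega)
    (by
      intro i hi
      have h0 := mv_spec 2 0 (Function.update (Function.update s 0
        (w.drop (i + 1))) 2 (w.take (i + 1)).reverse)
        (w[i]) ((w.take i).reverse)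
        (by rw [takerev (by omega)]; simp) (by simp)
      convert! h0 using 1
      funext k
      simp [Function.update_apply]
      split_ifs <;> simp_all)
  convert! h using 1
  funext k
  simp only [Function.update_apply]
  split_ifs <;> simp_all

theorem good_len : Good .len 1 := by
  intro w n d e s j B hs hj hB he hw
  have hB2 : B ^ (1 + 1) = B * B := by ring
  rw [hB2]
  refine ⟨by simp only [Tm.eval]; nlinarith, ?_⟩
  have hI := hs.inp
  have hJ := hs.aux
  have h1 := ExecLe.whl (k := 0)
    (c := .seq (mv 0 2) (.push (T j) (some true))) w.length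
    (fun m => Function.update (Function.update (Function.update s 0 (w.drop (w.length - m))) 2
      (w.take (w.length - m)).reverse) (T j) (un (w.length - m) ++ s (T j))) 6
    (by simp)
    (by
      intro m hm
      simp
      omega)
    (by
      intro m hm
      have hlt : w.length - (m + 1) < w.length := by omega
      have h0 := mv_spec 0 2 (Function.update (Function.update (Function.update s 0
        (w.drop (w.length - (m + 1)))) 2
        (w.take (w.length - (m + 1))).reverse) (T j) (un (w.length - (m + 1)) ++ s (T j)))
        (w[w.length - (m + 1)]) (w.drop (w.length - (m + 1) + 1))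
        (by simp) (by simp)
      refine (h0.seq (ExecLe.push' ?_)).mono le_rfl
      have e1 : w.length - m = w.length - (m + 1) + 1 := by omega
      rw [e1, takerev hlt]
      clear e1 h0 hI hJ
      generalize w.length - (m + 1) = q at *
      funext k
      simp [Function.update_apply]
      split_ifs <;> simp_all)
  have h2 := restore_spec w w.length (Function.update (Function.update (Function.update s 0 []) 2
      w.reverse) (T j) (un w.length ++ s (T j))) le_rfl (by simp) (by simp)
  have h3 := h1.seq (by simpa using h2)
  convert! h3.mono ?_ using 1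
  · funext k
    simp [Function.update_apply]
    split_ifs <;> simp_all
  · funext k
    simp [Function.update_apply, Tm.eval]
    split_ifs <;> simp_all
  · nlinarith

theorem le_pow_left {B a b : ℕ} (hB : 100 ≤ B) (h : a ≤ b) : B ^ a ≤ B ^ b :=
  Nat.pow_le_pow_right (by omega) h

theorem good_add {a b : Tm} {D₁ D₂ : ℕ} (ha : Good a D₁) (hb : Good b D₂) :
    Good (.add a b) (D₁ + D₂ + 2) := by
  intro w n d e s j B hs hj hB he hw
  obtain ⟨ha1, ha2⟩ := ha w n d e s j B hs hj hB he hw
  obtain ⟨hb1, hb2⟩ := hb w n d e _ j B (hs.upd hj le_rfl (un (a.eval w n e) ++ s (T j))) hj hB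
    he hw
  have hP1 := le_pow_left hB (show D₁ + 1 ≤ D₁ + D₂ + 2 by omega)
  have hP2 := le_pow_left hB (show D₂ + 1 ≤ D₁ + D₂ + 2 by omega)
  have hP : B ^ (D₁ + D₂ + 2 + 1) = B ^ (D₁ + D₂ + 2) * B := by ring
  rw [hP]
  generalize B ^ (D₁ + D₂ + 2) = P at *
  generalize B ^ (D₁ + 1) = P1 at *
  generalize B ^ (D₂ + 1) = P2 at *
  refine ⟨by simp only [Tm.eval]; nlinarith, ?_⟩
  convert! (ha2.seq hb2).mono ?_ using 1
  · simp only [Function.update_self, Function.update_idem, Tm.eval]
    rw [un_append', Nat.add_comm]
  · nlinarith

theorem good_mul {a b : Tm} {D₁ D₂ : ℕ} (ha : Good a D₁) (hb : Good b D₂) :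
    Good (.mul a b) (D₁ + D₂ + D₁ + D₂ + 5) := by
  intro w n d e s j B hs hj hB he hw
  have hT := hs.tmp d le_rfl
  have hjd : j ≠ d := by omega
  have hdj : d ≠ j := by omega
  obtain ⟨ha1, ha2⟩ := ha w n (d + 1) e s d B (hs.mono (by omega)) (by omega) hB he hw
  rw [hT, List.append_nil] at ha2
  have hb2 : ∀ s, Rep w n (d + 1) e s → _ := fun s hs =>
    (hb w n (d + 1) e s j B hs (by omega) hB he hw).2
  have hb1 := (hb w n d e s j B hs (by omega) hB he hw).1
  have hP1 := le_pow_left hB (show D₁ + 1 ≤ D₁ + D₂ + 2 by omega)
  have hP2 := le_pow_left hB (show D₂ + 1 ≤ D₁ + D₂ + 2 by omega)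
  have hP3 := le_pow_left hB (show 1 ≤ D₁ + D₂ + 2 by omega)
  have hP : B ^ (D₁ + D₂ + D₁ + D₂ + 5 + 1) =
    B ^ (D₁ + D₂ + 2) * B ^ (D₁ + D₂ + 2) * B ^ 2 := by ring
  rw [hP]
  generalize B ^ (D₁ + D₂ + 2) = P at *
  generalize B ^ (D₁ + 1) = P1 at *
  generalize B ^ (D₂ + 1) = P2 at *
  set A := a.eval w n e with hA
  set C := b.eval w n e with hC
  have hPP : 100 ≤ P := by nlinarith
  have hAC : A * C ≤ P * P := Nat.mul_le_mul (by omega) (by omega)
  have hBB : 1 ≤ B ^ 2 := Nat.one_le_pow _ _ (by omega)
  refine ⟨by simp only [Tm.eval]; nlinarith, ?_⟩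
  have h1 := loop_spec (k := T d) (body := Tm.ev n (d + 1) b (T j)) A
    (fun m => Function.update s (T j) (un (m * C) ++ s (T j))) (Function.update s (T d) (un A)) P2
    (by
      funext k
      simp [Function.update_apply, hjd])
    (by
      intro q hq m
      have h0 := hb2 (Function.update (Function.update s (T j) (un (q * C) ++ s (T j))) (T d)
        (un m)) (by
          refine Rep.upd ?_ (by omega) le_rfl _
          exact Rep.upd hs (by omega) (by omega) _)
      convert! h0 using 1
      funext k
      simp only [Function.update_apply, T_inj, hdj, if_false]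
      by_cases h : k = T d
      · subst h
        simp [hdj]
      · by_cases h' : k = T j
        · subst h'
          simp [hjd, un_append', Nat.add_mul, Nat.add_comm]
        · simp [h, h'])
  convert! (ha2.seq h1).mono ?_ using 1
  · funext k
    simp [Function.update_apply, Tm.eval]
    split_ifs <;> simp_all
  · have hAP : A * (P2 + 2) ≤ P * (P + 2) := Nat.mul_le_mul (by omega) (by omega)
    have : P * P * B ^ 2 ≥ P * P * 2 := by
      apply Nat.mul_le_mul_left
      nlinarith
    nlinarith

theorem good_sub {a b : Tm} {D₁ D₂ : ℕ} (ha : Good a D₁) (hb : Good b D₂) :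
    Good (.sub a b) (D₁ + D₂ + 3) := by
  intro w n d e s j B hs hj hB he hw
  have hT := hs.tmp d le_rfl
  have hT' := hs.tmp (d + 1) (by omega)
  have hjd : j ≠ d := by omega
  have hdj : d ≠ j := by omega
  have hjd' : j ≠ d + 1 := by omega
  have hdj' : d + 1 ≠ j := by omega
  obtain ⟨ha1, ha2⟩ := ha w n (d + 1) e s d B (hs.mono (by omega)) (by omega) hB he hw
  rw [hT, List.append_nil] at ha2
  obtain ⟨hb1, hb2⟩ := hb w n (d + 2) e (Function.update s (T d) (un (a.eval w n e))) (d + 1) B
    (hs.upd (by omega) (by omega) _) (by omega) hB he hw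
  have hP1 := le_pow_left hB (show D₁ + 1 ≤ D₁ + D₂ + 2 by omega)
  have hP2 := le_pow_left hB (show D₂ + 1 ≤ D₁ + D₂ + 2 by omega)
  have hP3 := le_pow_left hB (show 1 ≤ D₁ + D₂ + 2 by omega)
  have hP : B ^ (D₁ + D₂ + 3 + 1) = B ^ (D₁ + D₂ + 2) * B ^ 2 := by ring
  rw [hP]
  generalize B ^ (D₁ + D₂ + 2) = P at *
  generalize B ^ (D₁ + 1) = P1 at *
  generalize B ^ (D₂ + 1) = P2 at *
  set A := a.eval w n e with hA
  set C := b.eval w n e with hC
  have hPP : 100 ≤ P := by nlinarith
  have hBB : 100 ≤ B ^ 2 := by nlinarith
  refine ⟨by simp only [Tm.eval]; rw [← hA, ← hC]; nlinarith [Nat.sub_le A C], ?_⟩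
  have h1 := loop_spec (k := T (d + 1)) (body := .pop (T d)) C
    (fun m => Function.update s (T d) (un (A - m))) (Function.update (Function.update s (T d)
      (un A)) (T (d + 1)) (un C)) 1
    (by simp)
    (by
      intro q hq m
      refine ExecLe.pop' ?_
      have htl : (un (A - q)).tail = un (A - (q + 1)) := by
        rcases Nat.eq_zero_or_pos (A - q) with h | h
        · rw [h, show A - (q + 1) = 0 by omega]
          rfl
        · rw [show A - q = A - (q + 1) + 1 by omega]
          rfl
      funext k
      simp [Function.update_apply, htl]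
      split_ifs <;> simp_all)
  have h2 := drain_spec (T d) (T j) (Function.update (Function.update s (T d) (un (A - C)))
    (T (d + 1)) []) (A - C) (by simp) (by simp [hdj])
  have hb3 : ExecLe (Tm.ev n (d + 2) b (T (d + 1))) (Function.update s (T d) (un A))
    (Function.update (Function.update s (T d) (un A)) (T (d + 1)) (un C)) P2 := by
    convert! hb2 using 1
    simp [hT']
  convert! (ha2.seq (hb3.seq (h1.seq h2))).mono ?_ using 1
  · funext k
    simp [Function.update_apply, Tm.eval, hjd, hjd']
    split_ifs <;> simp_all
  · have : A - C ≤ P := by omega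
    nlinarith

theorem good_sum {a b : Tm} {D₁ D₂ : ℕ} (ha : Good a D₁) (hb : Good b D₂) :
    Good (.sum a b) ((D₁ + 1) * (D₂ + 1) * 3) := by
  intro w n d e s j B hs hj hB he hw
  have hT := hs.tmp d le_rfl
  have hXn := hs.var n
  have hen := hs.zer n le_rfl
  rw [hen, un_zero] at hXn
  have hjd : j ≠ d := by omega
  have hdj : d ≠ j := by omega
  obtain ⟨ha1, ha2⟩ := ha w n (d + 1) e s d B (hs.mono (by omega)) (by omega) hB he hw
  rw [hT, List.append_nil] at ha2
  have hBB' : B ≤ B ^ (D₁ + 1) := by
    calc B = B ^ 1 := (pow_one B).symm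
      _ ≤ _ := le_pow_left hB (by omega)
  have hP : B ^ ((D₁ + 1) * (D₂ + 1) * 3 + 1) = (B ^ (D₁ + 1)) ^ (D₂ + 1) *
    ((B ^ (D₁ + 1)) ^ (D₂ + 1)) * ((B ^ (D₁ + 1)) ^ (D₂ + 1)) * B := by ring
  rw [hP]
  generalize B ^ (D₁ + 1) = B' at *
  have hbb : ∀ x < a.eval w n e, ∀ s, Rep w (n + 1) (d + 1) (Function.update e n x) s → _ :=
    fun x hx s hs => hb w (n + 1) (d + 1) (Function.update e n x) s j B' hs (by omega) (by omega)
      (fun i => by
        rw [Function.update_apply]
        split_ifs
        · omega
        · exact (he i).trans hBB') (hw.trans hBB')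
  have hP2 : B' ≤ B' ^ (D₂ + 1) := by
    calc B' = B' ^ 1 := (pow_one B').symm
      _ ≤ _ := Nat.pow_le_pow_right (by omega) (by omega)
  generalize B' ^ (D₂ + 1) = P at *
  have hC : ∀ x < a.eval w n e, b.eval w (n + 1) (Function.update e n x) ≤ P := by
    intro x hx
    have hs' : Rep w (n + 1) (d + 1) (Function.update e n x)
        (Function.update s (X n) (un x)) := by
      refine ⟨by simpa using hs.inp, by simpa using hs.aux, ?_, ?_, ?_⟩
      · intro i
        by_cases hi : i = n
        · subst hi; simp
        · simp [Function.update_of_ne hi, hi, hs.var i]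
      · intro i hi
        rw [Function.update_of_ne (by omega)]
        exact hs.zer i (by omega)
      · intro i hi
        simpa using hs.tmp i (by omega)
    exact (hbb x hx _ hs').1
  set A := a.eval w n e with hA
  set f : ℕ → ℕ := fun x => b.eval w (n + 1) (Function.update e n x) with hf
  have hsum : ∑ x ∈ range A, f x ≤ A * P := by
    calc ∑ x ∈ range A, f x ≤ ∑ x ∈ range A, P :=
        Finset.sum_le_sum fun x hx => hC x (Finset.mem_range.mp hx)
      _ = A * P := by simp
  have hAP : A * P ≤ P * P := Nat.mul_le_mul (by omega) le_rfl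
  have hPP : 100 ≤ P := by omega
  refine ⟨?_, ?_⟩
  · simp only [Tm.eval]
    have : P * P ≤ P * P * P * B := by
      calc P * P = P * P * 1 * 1 := by ring
        _ ≤ P * P * P * B := by gcongr <;> omega
    exact (hsum.trans hAP).trans this
  have h1 := loop_spec (k := T d) (body := .seq (Tm.ev (n + 1) (d + 1) b (T j))
    (.push (X n) (some true))) A
    (fun m => Function.update (Function.update s (T j) (un (∑ x ∈ range m, f x) ++ s (T j)))
      (X n) (un m)) (Function.update s (T d) (un A)) (P + 1)
    (by
      funext k
      by_cases h : k = T d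
      · subst h
        simp
      · by_cases h' : k = T j
        · subst h'
          simp [hjd]
        · by_cases h'' : k = X n
          · subst h''
            simp [hXn]
          · simp [h, h', h''])
    (by
      intro q hq m
      have h0 := (hbb q hq (Function.update (Function.update (Function.update s (T j)
        (un (∑ x ∈ range q, f x) ++ s (T j))) (X n) (un q)) (T d) (un m)) (by
          refine Rep.upd (d := d + 1) ?_ (by omega) le_rfl _
          refine ⟨by simpa using hs.inp, by simpa using hs.aux, ?_, ?_, ?_⟩
          · intro i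
            by_cases hi : i = n
            · subst hi; simp
            · simp [Function.update_of_ne hi, hi, hs.var i]
          · intro i hi
            rw [Function.update_of_ne (by omega)]
            exact hs.zer i (by omega)
          · intro i hi
            have : i ≠ j := by omega
            simpa [this] using hs.tmp i (by omega))).2
      refine h0.seq (ExecLe.push' ?_)
      funext k
      by_cases h : k = T d
      · subst h
        simp [hdj]
      · by_cases h' : k = T j
        · subst h'
          simp [hjd, un_append', Finset.sum_range_succ, Nat.add_comm, hf]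
        · by_cases h'' : k = X n
          · subst h''
            simp
          · simp [h, h', h''])
  have h2 := clear_spec (X n) (Function.update (Function.update (Function.update s (T j)
    (un (∑ x ∈ range A, f x) ++ s (T j))) (X n) (un A)) (T d) []) A (by simp)
  convert! (ha2.seq (h1.seq h2)).mono ?_ using 1
  · funext k
    by_cases h : k = T d
    · subst h
      simp [hT, hdj]
    · by_cases h' : k = T j
      · subst h'
        simp [Tm.eval, hjd, hf, hA]
      · by_cases h'' : k = X n
        · subst h''
          simp [hXn]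
        · simp [h, h', h'']
  · have h3 : A * (P + 1 + 2) ≤ P * (P + 3) := Nat.mul_le_mul (by omega) (by omega)
    have h4 : P * P * P * B ≥ P * P * P * 1 := by
      apply Nat.mul_le_mul_left
      omega
    nlinarith

theorem good_sym {a : Tm} {D₁ : ℕ} (x : Sym) (ha : Good a D₁) :
    Good (.sym x a) (D₁ + 1) := by
  intro w n d e s j B hs hj hB he hw
  have hT := hs.tmp d le_rfl
  have hI := hs.inp
  have hJ := hs.aux
  have hjd : j ≠ d := by omega
  have hdj : d ≠ j := by omega
  obtain ⟨ha1, ha2⟩ := ha w n (d + 1) e s d B (hs.mono (by omega)) (by omega) hB he hw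
  rw [hT, List.append_nil] at ha2
  have hP : B ^ (D₁ + 1 + 1) = B ^ (D₁ + 1) * B := by ring
  have hPB : B ≤ B ^ (D₁ + 1) := by
    calc B = B ^ 1 := (pow_one B).symm
      _ ≤ _ := le_pow_left hB (by omega)
  rw [hP]
  generalize B ^ (D₁ + 1) = P at *
  set A := a.eval w n e with hA
  refine ⟨?_, ?_⟩
  · simp only [Tm.eval]
    split_ifs
    · nlinarith
    · omega
  have h1 := loop_spec (k := T d) (body := mv 0 2) A
    (fun m => Function.update (Function.update s 0 (w.drop m)) 2 (w.take m).reverse)
    (Function.update s (T d) (un A)) 5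
    (by
      funext k
      simp only [Function.update_apply]
      split_ifs <;> simp_all)
    (by
      intro q hq m
      by_cases hqw : q < w.length
      · have h0 := mv_spec 0 2 (Function.update (Function.update (Function.update s 0
          (w.drop q)) 2 (w.take q).reverse) (T d) (un m)) (w[q]) (w.drop (q + 1))
          (by simp) (by simp)
        convert! h0 using 1
        rw [takerev hqw]
        funext k
        simp [Function.update_apply]
        split_ifs <;> simp_all
      · have h0 := mv_nil 0 2 (Function.update (Function.update (Function.update s 0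
          (w.drop q)) 2 (w.take q).reverse) (T d) (un m)) (by simp; omega)
        refine ExecLe.mono ?_ (show 4 ≤ 5 by omega)
        convert! h0 using 1
        have e1 : w.drop q = w.drop (q + 1) := by
          rw [List.drop_eq_nil_of_le (by omega), List.drop_eq_nil_of_le (by omega)]
        have e2 : w.take q = w.take (q + 1) := by
          rw [List.take_of_length_le (by omega), List.take_of_length_le (by omega)]
        rw [e1, e2])
  have h2 : ExecLe (.ite 0 x (.push (T j) (some true)) .skip)
      (Function.update (Function.update (Function.update s 0 (w.drop A)) 2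
        (w.take A).reverse) (T d) [])
      (Function.update (Function.update (Function.update (Function.update s 0 (w.drop A)) 2
        (w.take A).reverse) (T d) []) (T j) (un ((Tm.sym x a).eval w n e) ++ s (T j))) 2 := by
    by_cases hx : w[A]? = some x
    · refine ExecLe.iteT (by simpa using hx) (ExecLe.push' ?_)
      simp only [Tm.eval]
      rw [← hA, if_pos hx]
      simp [hjd, un]
    · refine ExecLe.iteF (by simpa using hx) ?_
      have := ExecLe.skip (Function.update (Function.update (Function.update s 0 (w.drop A)) 2
        (w.take A).reverse) (T d) [])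
      convert! this using 1
      simp only [Tm.eval]
      rw [← hA, if_neg hx]
      funext k
      by_cases h : k = T j
      · subst h
        simp [hjd]
      · simp [h]
  have h3 := restore_spec w (min A w.length) (Function.update (Function.update (Function.update
    (Function.update s 0 (w.drop A)) 2 (w.take A).reverse) (T d) []) (T j)
    (un ((Tm.sym x a).eval w n e) ++ s (T j))) (by omega)
    (by
      simp only [ne_eq, ne_0_T, not_false_eq_true, Function.update_of_ne, OfNat.zero_ne_ofNat,
        Function.update_self]
      rcases le_total A w.length with h | h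
      · rw [min_eq_left h]
      · rw [min_eq_right h, List.drop_eq_nil_of_le h, List.drop_eq_nil_of_le le_rfl])
    (by
      simp only [ne_eq, ne_2_T, not_false_eq_true, Function.update_of_ne, Function.update_self]
      rcases le_total A w.length with h | h
      · rw [min_eq_left h]
      · rw [min_eq_right h, List.take_of_length_le h, List.take_of_length_le le_rfl])
  convert! (ha2.seq (h1.seq (h2.seq h3))).mono ?_ using 1
  · funext k
    by_cases h : k = T d
    · subst h
      simp [hdj, hT]
    · by_cases h' : k = T j
      · subst h'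
        simp
      · by_cases h2 : k = 2
        · subst h2
          simp [hJ]
        · by_cases h0 : k = 0
          · subst h0
            simp [hI]
          · simp [h, h', h2, h0]
  · have : min A w.length ≤ P := by omega
    nlinarith

theorem good_shr {a b : Tm} {D₁ D₂ : ℕ} (ha : Good a D₁) (hb : Good b D₂) :
    Good (.shr a b) (D₁ + D₂ + D₁ + D₂ + 5) := by
  intro w n d e s j B hs hj hB he hw
  have hT := hs.tmp d le_rfl
  have hT' := hs.tmp (d + 1) (by omega)
  have hT2 := hs.tmp (d + 2) (by omega)
  have hjd : j ≠ d := by omega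
  have hdj : d ≠ j := by omega
  have hjd' : j ≠ d + 1 := by omega
  have hdj' : d + 1 ≠ j := by omega
  have hjd2 : j ≠ d + 2 := by omega
  have hdj2 : d + 2 ≠ j := by omega
  obtain ⟨ha1, ha2⟩ := ha w n (d + 1) e s d B (hs.mono (by omega)) (by omega) hB he hw
  rw [hT, List.append_nil] at ha2
  obtain ⟨hb1, hb2⟩ := hb w n (d + 2) e (Function.update s (T d) (un (a.eval w n e))) (d + 1) B
    (hs.upd (by omega) (by omega) _) (by omega) hB he hw
  have hP1 := le_pow_left hB (show D₁ + 1 ≤ D₁ + D₂ + 2 by omega)
  have hP2 := le_pow_left hB (show D₂ + 1 ≤ D₁ + D₂ + 2 by omega)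
  have hP3 := le_pow_left hB (show 1 ≤ D₁ + D₂ + 2 by omega)
  have hP : B ^ (D₁ + D₂ + D₁ + D₂ + 5 + 1) =
    B ^ (D₁ + D₂ + 2) * B ^ (D₁ + D₂ + 2) * B ^ 2 := by ring
  rw [hP]
  generalize B ^ (D₁ + D₂ + 2) = P at *
  generalize B ^ (D₁ + 1) = P1 at *
  generalize B ^ (D₂ + 1) = P2 at *
  set A := a.eval w n e with hA
  set C := b.eval w n e with hC
  have hPP : 100 ≤ P := by nlinarith
  have hBB : 100 ≤ B ^ 2 := by nlinarith
  have hPPB : P * P * 100 ≤ P * P * B ^ 2 := Nat.mul_le_mul_left _ hBB
  refine ⟨by simp only [Tm.eval]; rw [← hA, ← hC]; nlinarith [Nat.div_le_self A (2 ^ C)], ?_⟩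
  have halve : ∀ (s : St) (N : ℕ), s (T d) = un N → s (T (d + 2)) = [] →
      ExecLe (.seq (.whl (T d) (.seq (.pop (T d)) (.ite (T d) (some true)
          (.seq (.pop (T d)) (.push (T (d + 2)) (some true))) .skip)))
          (drain (T (d + 2)) (T d))) s (Function.update s (T d) (un (N / 2))) (8 * N + 2) := by
    intro s N h1 h2
    have key : ∀ (N : ℕ) (s : St) (M : ℕ), s (T d) = un N → s (T (d + 2)) = un M →
        ExecLe (.whl (T d) (.seq (.pop (T d)) (.ite (T d) (some true)
          (.seq (.pop (T d)) (.push (T (d + 2)) (some true))) .skip))) s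
          (Function.update (Function.update s (T d) []) (T (d + 2)) (un (M + N / 2)))
          (5 * N + 1) := by
      intro N
      induction N using Nat.strong_induction_on with
      | _ N ih =>
        intro s M h1 h2
        match N, h1 with
        | 0, h1 =>
          refine ⟨1, by omega, ?_⟩
          have : Function.update (Function.update s (T d) []) (T (d + 2)) (un (M + 0 / 2)) = s := by
            funext k
            simp only [Function.update_apply]
            split_ifs <;> simp_all
          rw [this]
          exact .whlE (by simpa using h1)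
        | 1, h1 =>
          have hb : ExecLe (.seq (.pop (T d)) (.ite (T d) (some true)
              (.seq (.pop (T d)) (.push (T (d + 2)) (some true))) .skip)) s
              (Function.update s (T d) []) 3 := by
            refine ((ExecLe.pop' (s' := Function.update s (T d) []) ?_).seq
              (ExecLe.iteF (by simp) (ExecLe.skip _))).mono (by omega)
            rw [h1]
            rfl
          obtain ⟨m, hm, hb⟩ := hb
          have h3 : Cmd.Exec (.whl (T d) (.seq (.pop (T d)) (.ite (T d) (some true)
            (.seq (.pop (T d)) (.push (T (d + 2)) (some true))) .skip)))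
            (Function.update s (T d) []) (Function.update s (T d) []) 1 := .whlE (by simp)
          have h4 := Cmd.Exec.whlS (k := T d) (by rw [h1]; simp [un]) hb h3
          have e : Function.update (Function.update s (T d) []) (T (d + 2)) (un (M + 1 / 2)) =
              Function.update s (T d) [] := by
            funext k
            by_cases h : k = T (d + 2)
            · subst h
              simp [h2]
            · simp [h]
          rw [e]
          exact ⟨_, by omega, h4⟩
        | N + 2, h1 =>
          have hb : ExecLe (.seq (.pop (T d)) (.ite (T d) (some true)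
              (.seq (.pop (T d)) (.push (T (d + 2)) (some true))) .skip)) s
              (Function.update (Function.update s (T d) (un N)) (T (d + 2)) (un (M + 1))) 4 := by
            refine ((ExecLe.pop' (s' := Function.update s (T d) (un (N + 1))) ?_).seq
              (ExecLe.iteT (by simp) ((ExecLe.pop _ _).seq (ExecLe.push' ?_)))).mono
              (by omega)
            · rw [h1]
              rfl
            · funext k
              by_cases h : k = T (d + 2)
              · subst h
                simp [h2]
              · simp [h]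
          obtain ⟨m, hm, hb⟩ := hb
          obtain ⟨m', hm', h3⟩ := ih N (by omega) (Function.update (Function.update s (T d) (un N))
            (T (d + 2)) (un (M + 1))) (M + 1) (by simp) (by simp)
          have h4 := Cmd.Exec.whlS (k := T d) (by rw [h1]; simp [un]) hb h3
          have e : Function.update (Function.update s (T d) []) (T (d + 2))
              (un (M + (N + 2) / 2)) =
              Function.update (Function.update (Function.update (Function.update s (T d) (un N))
                (T (d + 2)) (un (M + 1))) (T d) []) (T (d + 2)) (un (M + 1 + N / 2)) := by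
            funext k
            by_cases h : k = T (d + 2)
            · subst h
              simp only [Function.update_self]
              congr 1
              omega
            · by_cases h' : k = T d
              · subst h'
                simp
              · simp [h, h']
          rw [e]
          exact ⟨_, by omega, h4⟩
    have h3 := key N s 0 h1 (by simpa using h2)
    have h4 := drain_spec (T (d + 2)) (T d) (Function.update (Function.update s (T d) [])
      (T (d + 2)) (un (0 + N / 2))) (N / 2) (by simp) (by simp)
    convert! (h3.seq h4).mono ?_ using 1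
    · funext k
      by_cases h : k = T d
      · subst h
        simp
      · by_cases h' : k = T (d + 2)
        · subst h'
          simp [h2]
        · simp [h, h']
    · omega
  have h1 := loop_spec (k := T (d + 1)) (body := (.seq (.whl (T d) (.seq (.pop (T d))
    (.ite (T d) (some true) (.seq (.pop (T d)) (.push (T (d + 2)) (some true))) .skip)))
      (drain (T (d + 2)) (T d)))) C
    (fun m => Function.update s (T d) (un (A / 2 ^ m))) (Function.update (Function.update s (T d)
      (un A)) (T (d + 1)) (un C)) (8 * A + 2)
    (by simp)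
    (by
      intro q hq m
      have h0 := halve (Function.update (Function.update s (T d) (un (A / 2 ^ q))) (T (d + 1))
        (un m)) (A / 2 ^ q) (by simp) (by simp [hT2])
      convert! h0.mono ?_ using 1
      · funext k
        by_cases h : k = T d
        · subst h
          simp [Nat.pow_succ, Nat.div_div_eq_div_mul]
        · simp [h, Function.update_apply]
      · have := Nat.div_le_self A (2 ^ q)
        omega)
  have h2 := drain_spec (T d) (T j) (Function.update (Function.update s (T d) (un (A / 2 ^ C)))
    (T (d + 1)) []) (A / 2 ^ C) (by simp) (by simp [hdj])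
  have hb3 : ExecLe (Tm.ev n (d + 2) b (T (d + 1))) (Function.update s (T d) (un A))
    (Function.update (Function.update s (T d) (un A)) (T (d + 1)) (un C)) P2 := by
    convert! hb2 using 1
    simp [hT']
  convert! (ha2.seq (hb3.seq (h1.seq h2))).mono ?_ using 1
  · funext k
    by_cases h : k = T d
    · subst h
      simp [hdj, hT]
    · by_cases h' : k = T j
      · subst h'
        simp [Tm.eval, hjd, hjd', hA, hC]
      · by_cases h2 : k = T (d + 1)
        · subst h2
          simp [hT', hdj']
        · simp [h, h', h2]
  · have h5 : A / 2 ^ C ≤ P := (Nat.div_le_self A (2 ^ C)).trans (by omega)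
    have h6 : C * (8 * A + 2 + 2) ≤ P * (8 * P + 4) := Nat.mul_le_mul (by omega) (by omega)
    nlinarith

theorem exists_good (t : Tm) : ∃ D, Good t D := by
  induction t with
  | cst c => exact ⟨_, good_cst c⟩
  | var i => exact ⟨_, good_var i⟩
  | add a b ha hb => exact ⟨_, good_add ha.choose_spec hb.choose_spec⟩
  | mul a b ha hb => exact ⟨_, good_mul ha.choose_spec hb.choose_spec⟩
  | sub a b ha hb => exact ⟨_, good_sub ha.choose_spec hb.choose_spec⟩
  | sum a b ha hb => exact ⟨_, good_sum ha.choose_spec hb.choose_spec⟩
  | shr a b ha hb => exact ⟨_, good_shr ha.choose_spec hb.choose_spec⟩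
  | sym s a ha => exact ⟨_, good_sym s ha.choose_spec⟩
  | len => exact ⟨_, good_len⟩

end Pool.Agent.Helper69
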