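import Mathlib
import Pool.Agent.Helper69.Lang

/-!
# Programs emitting a word, and their execution in polynomial time by a `FinTM2`
-/

namespace Pool.Agent.Helper69

open Finset Turing

/-- Programs emitting a word. -/
inductive Em : Type
  | skip : Em
  | emit : Sym → Em
  | seq : Em → Em → Em
  | ite : Tm → Em → Em → Em
  | loop : Tm → Em → Em

/-- The word emitted for the input `w`. -/
def Em.run (w : List Sym) : ℕ → (ℕ → ℕ) → Em → List Sym
  | _, _, .skip => []
  | _, _, .emit x => [x]
  | n, e, .seq p q => Em.run w n e p ++ Em.run w n e q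
  | n, e, .ite t p q => if t.eval w n e = 0 then Em.run w n e q else Em.run w n e p
  | n, e, .loop t p =>
    (List.range (t.eval w n e)).flatMap fun x => Em.run w (n + 1) (Function.update e n x) p

/-- The code of an emitting program. -/
def Em.cp : ℕ → ℕ → Em → Cmd ℕ Sym
  | _, _, .skip => .skip
  | _, _, .emit x => .push 3 x
  | n, d, .seq p q => .seq (Em.cp n d p) (Em.cp n d q)
  | n, d, .ite t p q => .seq (t.ev n (d + 1) (T d)) (.ite (T d) (some true)
      (.seq (.whl (T d) (.pop (T d))) (Em.cp n d p)) (Em.cp n d q))
  | n, d, .loop t p =>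
    .seq (t.ev n (d + 1) (T d))
      (.seq (.whl (T d) (.seq (.pop (T d)) (.seq (Em.cp (n + 1) (d + 1) p)
        (.push (X n) (some true))))) (.whl (X n) (.pop (X n))))

/-- The program is executed by its code, in polynomial time. -/
def GoodE (p : Em) (D : ℕ) : Prop :=
  ∀ (w : List Sym) (n d : ℕ) (e : ℕ → ℕ) (s : St) (B : ℕ), Rep w n d e s → 100 ≤ B →
    (∀ i, e i ≤ B) → w.length ≤ B →
    (p.run w n e).length ≤ B ^ (D + 1) ∧
    ExecLe (p.cp n d) s (Function.update s 3 ((p.run w n e).reverse ++ s 3)) (B ^ (D + 1))

theorem Rep.upd3 {w : List Sym} {n d : ℕ} {e : ℕ → ℕ} {s : St} (h : Rep w n d e s)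
    (l : List Sym) : Rep w n d e (Function.update s 3 l) := by
  refine ⟨?_, ?_, ?_, h.zer, ?_⟩
  · simpa [Function.update_apply] using h.inp
  · simpa [Function.update_apply] using h.aux
  · intro i
    simpa [Function.update_apply] using h.var i
  · intro i hi
    simpa [Function.update_apply] using h.tmp i (by omega)

theorem goodE_skip : GoodE .skip 0 := by
  intro w n d e s B hs hB he hw
  refine ⟨by simp [Em.run], ?_⟩
  simp only [Em.run, Em.cp, List.reverse_nil, List.nil_append, Function.update_eq_self]
  exact (ExecLe.skip s).mono (by simp; omega)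

theorem goodE_emit (x : Sym) : GoodE (.emit x) 0 := by
  intro w n d e s B hs hB he hw
  refine ⟨by simp [Em.run]; omega, ?_⟩
  simp only [Em.run, Em.cp, List.reverse_singleton, List.singleton_append]
  exact (ExecLe.push 3 x s).mono (by simp; omega)

theorem goodE_seq {p q : Em} {D₁ D₂ : ℕ} (hp : GoodE p D₁) (hq : GoodE q D₂) :
    GoodE (.seq p q) (D₁ + D₂ + 2) := by
  intro w n d e s B hs hB he hw
  obtain ⟨ha1, ha2⟩ := hp w n d e s B hs hB he hw
  obtain ⟨hb1, hb2⟩ := hq w n d e _ B (hs.upd3 ((p.run w n e).reverse ++ s 3)) hB he hw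
  have hP1 := le_pow_left hB (show D₁ + 1 ≤ D₁ + D₂ + 2 by omega)
  have hP2 := le_pow_left hB (show D₂ + 1 ≤ D₁ + D₂ + 2 by omega)
  have hP : B ^ (D₁ + D₂ + 2 + 1) = B ^ (D₁ + D₂ + 2) * B := by ring
  rw [hP]
  generalize B ^ (D₁ + D₂ + 2) = P at *
  generalize B ^ (D₁ + 1) = P1 at *
  generalize B ^ (D₂ + 1) = P2 at *
  refine ⟨by simp only [Em.run, List.length_append]; nlinarith, ?_⟩
  convert! (ha2.seq hb2).mono ?_ using 1
  · simp [Em.run]
  · nlinarith

theorem goodE_ite {t : Tm} {p q : Em} {D D₁ D₂ : ℕ} (ht : Good t D) (hp : GoodE p D₁)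
    (hq : GoodE q D₂) : GoodE (.ite t p q) (D + D₁ + D₂ + 3) := by
  intro w n d e s B hs hB he hw
  have hT := hs.tmp d le_rfl
  obtain ⟨ht1, ht2⟩ := ht w n (d + 1) e s d B (hs.mono (by omega)) (by omega) hB he hw
  rw [hT, List.append_nil] at ht2
  obtain ⟨ha1, ha2⟩ := hp w n d e s B hs hB he hw
  obtain ⟨hb1, hb2⟩ := hq w n d e s B hs hB he hw
  have hP0 := le_pow_left hB (show D + 1 ≤ D + D₁ + D₂ + 3 by omega)
  have hP1 := le_pow_left hB (show D₁ + 1 ≤ D + D₁ + D₂ + 3 by omega)
  have hP2 := le_pow_left hB (show D₂ + 1 ≤ D + D₁ + D₂ + 3 by omega)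
  have hP3 := le_pow_left hB (show 1 ≤ D + D₁ + D₂ + 3 by omega)
  have hP : B ^ (D + D₁ + D₂ + 3 + 1) = B ^ (D + D₁ + D₂ + 3) * B := by ring
  rw [hP]
  generalize B ^ (D + D₁ + D₂ + 3) = P at *
  generalize B ^ (D + 1) = P0 at *
  generalize B ^ (D₁ + 1) = P1 at *
  generalize B ^ (D₂ + 1) = P2 at *
  refine ⟨?_, ?_⟩
  · simp only [Em.run]
    split_ifs <;> nlinarith
  rcases Nat.eq_zero_or_pos (t.eval w n e) with h0 | h0
  · rw [h0, un_zero] at ht2
    have e1 : Function.update s (T d) [] = s := by
      rw [← hT]
      simp
    rw [e1] at ht2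
    have h3 := ht2.seq (ExecLe.iteF (k := T d) (a := some true)
      (c := .seq (.whl (T d) (.pop (T d))) (p.cp n d)) (by simp [hT]) hb2)
    simp only [Em.run, h0, if_true]
    exact h3.mono (by nlinarith)
  · have h2 := clear_spec (T d) (Function.update s (T d) (un (t.eval w n e))) (t.eval w n e)
      (by simp)
    have e1 : Function.update (Function.update s (T d) (un (t.eval w n e))) (T d) [] = s := by
      rw [Function.update_idem, ← hT]
      simp
    rw [e1] at h2
    have h3 := ht2.seq (ExecLe.iteT (k := T d) (a := some true) (d := q.cp n d)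
      (by
        obtain ⟨m, hm⟩ := Nat.exists_eq_succ_of_ne_zero (by omega : t.eval w n e ≠ 0)
        rw [hm]
        simp) (h2.seq ha2))
    simp only [Em.run]
    rw [if_neg (by omega)]
    exact h3.mono (by nlinarith)

theorem goodE_loop {a : Tm} {b : Em} {D₁ D₂ : ℕ} (ha : Good a D₁) (hb : GoodE b D₂) :
    GoodE (.loop a b) ((D₁ + 1) * (D₂ + 1) * 3) := by
  intro w n d e s B hs hB he hw
  have hT := hs.tmp d le_rfl
  have hXn := hs.var n
  have hen := hs.zer n le_rfl
  rw [hen, un_zero] at hXn
  obtain ⟨ha1, ha2⟩ := ha w n (d + 1) e s d B (hs.mono (by omega)) (by omega) hB he hw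
  rw [hT, List.append_nil] at ha2
  have hBB' : B ≤ B ^ (D₁ + 1) := by
    calc B = B ^ 1 := (pow_one B).symm
      _ ≤ _ := le_pow_left hB (by omega)
  have hP : B ^ ((D₁ + 1) * (D₂ + 1) * 3 + 1) = (B ^ (D₁ + 1)) ^ (D₂ + 1) *
    ((B ^ (D₁ + 1)) ^ (D₂ + 1)) * ((B ^ (D₁ + 1)) ^ (D₂ + 1)) * B := by ring
  rw [hP]
  generalize B ^ (D₁ + 1) = B' at *
  have hbb : ∀ x < a.eval w n e, ∀ s, Rep w (n + 1) (d + 1) (Function.update e n x) s → _ :=
    fun x hx s hs => hb w (n + 1) (d + 1) (Function.update e n x) s B' hs (by omega)
      (fun i => by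
        rw [Function.update_apply]
        split_ifs
        · omega
        · exact (he i).trans hBB') (hw.trans hBB')
  have hP2 : B' ≤ B' ^ (D₂ + 1) := by
    calc B' = B' ^ 1 := (pow_one B').symm
      _ ≤ _ := Nat.pow_le_pow_right (by omega) (by omega)
  generalize B' ^ (D₂ + 1) = P at *
  have hrep : ∀ x l m, Rep w (n + 1) (d + 1) (Function.update e n x)
        (Function.update (Function.update (Function.update s 3 l) (X n) (un x)) (T d) m) := by
    intro x l m
    refine Rep.upd (d := d + 1) ?_ (by omega) le_rfl _
    refine ⟨by simpa using hs.inp, by simpa using hs.aux, ?_, ?_, ?_⟩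
    · intro i
      by_cases hi : i = n
      · subst hi; simp
      · simp [hi, hs.var i]
    · intro i hi
      rw [Function.update_of_ne (by omega)]
      exact hs.zer i (by omega)
    · intro i hi
      simpa using hs.tmp i (by omega)
  have hC : ∀ x < a.eval w n e, (b.run w (n + 1) (Function.update e n x)).length ≤ P := by
    intro x hx
    exact (hbb x hx _ (hrep x [] [])).1
  set A := a.eval w n e with hA
  set f : ℕ → List Sym := fun x => b.run w (n + 1) (Function.update e n x) with hf
  have hlen : ∀ m ≤ A, ((List.range m).flatMap f).length ≤ m * P := by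
    intro m
    induction m with
    | zero => simp
    | succ m ih =>
      intro hm
      rw [List.range_succ, List.flatMap_append, List.length_append]
      have h1 := ih (by omega)
      have h2 := hC m (by omega)
      simp only [List.flatMap_cons, List.flatMap_nil, List.append_nil]
      have : (m + 1) * P = m * P + P := by ring
      rw [this]
      exact Nat.add_le_add h1 h2
  have hAP : A * P ≤ P * P := Nat.mul_le_mul (by omega) le_rfl
  have hPP : 100 ≤ P := by omega
  refine ⟨?_, ?_⟩
  · simp only [Em.run]
    have : P * P ≤ P * P * P * B := by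
      calc P * P = P * P * 1 * 1 := by ring
        _ ≤ P * P * P * B := by gcongr <;> omega
    exact ((hlen A le_rfl).trans hAP).trans this
  have h1 := loop_spec (k := T d) (body := .seq (Em.cp (n + 1) (d + 1) b)
    (.push (X n) (some true))) A
    (fun m => Function.update (Function.update s 3 (((List.range m).flatMap f).reverse ++ s 3))
      (X n) (un m)) (Function.update s (T d) (un A)) (P + 1)
    (by
      funext k
      by_cases h : k = T d
      · subst h
        simp
      · by_cases h' : k = 3
        · subst h'
          simp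
        · by_cases h'' : k = X n
          · subst h''
            simp [hXn]
          · simp [h, h', h''])
    (by
      intro q hq m
      have h0 := (hbb q hq (Function.update (Function.update (Function.update s 3
        (((List.range q).flatMap f).reverse ++ s 3)) (X n) (un q)) (T d) (un m))
        (hrep q _ _)).2
      refine h0.seq (ExecLe.push' ?_)
      funext k
      by_cases h : k = T d
      · subst h
        simp
      · by_cases h' : k = 3
        · subst h'
          simp [List.range_succ, hf]
        · by_cases h'' : k = X n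
          · subst h''
            simp
          · simp [h, h', h''])
  have h2 := clear_spec (X n) (Function.update (Function.update (Function.update s 3
    (((List.range A).flatMap f).reverse ++ s 3)) (X n) (un A)) (T d) []) A (by simp)
  convert! (ha2.seq (h1.seq h2)).mono ?_ using 1
  · funext k
    by_cases h : k = T d
    · subst h
      simp [hT]
    · by_cases h' : k = 3
      · subst h'
        simp [Em.run, hf, hA]
      · by_cases h'' : k = X n
        · subst h''
          simp [hXn]
        · simp [h, h', h'']
  · have h3 : A * (P + 1 + 2) ≤ P * (P + 3) := Nat.mul_le_mul (by omega) (by omega)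
    have h4 : P * P * P * B ≥ P * P * P * 1 := by
      apply Nat.mul_le_mul_left
      omega
    nlinarith

theorem exists_goodE (p : Em) : ∃ D, GoodE p D := by
  induction p with
  | skip => exact ⟨_, goodE_skip⟩
  | emit x => exact ⟨_, goodE_emit x⟩
  | seq p q hp hq => exact ⟨_, goodE_seq hp.choose_spec hq.choose_spec⟩
  | ite t p q hp hq =>
    exact ⟨_, goodE_ite (exists_good t).choose_spec hp.choose_spec hq.choose_spec⟩
  | loop t p hp => exact ⟨_, goodE_loop (exists_good t).choose_spec hp.choose_spec⟩

/-- The word computed by a closed emitting program. -/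
def Em.out (p : Em) (w : List Sym) : List Sym := p.run w 0 (fun _ => 0)

/-- The complete stack program: emit, reverse the output, erase the input. -/
def Em.full (p : Em) : Cmd ℕ Sym :=
  .seq (p.cp 0 0) (.seq (.whl 3 (mv 3 1)) (.whl 0 (.pop 0)))

theorem full_spec (p : Em) : ∃ D, ∀ w : List Sym,
    ExecLe p.full (single 0 w) (single 1 (p.out w)) ((w.length + 100) ^ D) := by
  obtain ⟨D, hD⟩ := exists_goodE p
  refine ⟨D + 2, fun w => ?_⟩
  have hrep : Rep w 0 0 (fun _ => 0) (single 0 w) := by
    refine ⟨by simp [single], by simp [single], ?_, by simp, ?_⟩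
    · intro i
      simp [single]
    · intro j _
      simp [single]
  obtain ⟨h1, h2⟩ := hD w 0 0 (fun _ => 0) (single 0 w) (w.length + 100) hrep (by omega)
    (by intro i; omega) (by omega)
  set v := p.out w with hv
  have hv' : p.run w 0 (fun _ => 0) = v := rfl
  rw [hv'] at h1 h2
  have h3 := ExecLe.whl (k := 3) (c := mv 3 1) v.length
    (fun j => Function.update (Function.update (single 0 w) 3 ((v.take j).reverse)) 1
      (v.drop j)) 5 (by simp)
    (by
      intro j hj
      simp
      intro h
      simp [h] at hj)
    (by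
      intro j hj
      have h0 := mv_spec 3 1 (Function.update (Function.update (single 0 w) 3
        ((v.take (j + 1)).reverse)) 1 (v.drop (j + 1))) (v[j]) ((v.take j).reverse)
        (by rw [takerev hj]; simp) (by simp)
      convert! h0 using 1
      funext k
      simp only [Function.update_apply]
      split_ifs <;> simp_all)
  have h4 := ExecLe.whl (k := 0) (c := .pop 0) w.length
    (fun j => Function.update (Function.update (Function.update (single 0 w) 0
      (w.drop (w.length - j))) 3 []) 1 v) 1 (by simp)
    (by
      intro j hj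
      simp
      omega)
    (by
      intro j hj
      refine ExecLe.pop' ?_
      have e1 : w.length - j = w.length - (j + 1) + 1 := by omega
      have e2 : (w.drop (w.length - (j + 1))).tail = w.drop (w.length - j) := by
        rw [e1]
        simp
      funext k
      simp only [Function.update_apply]
      split_ifs <;> simp_all)
  have e1 : Function.update (Function.update (single 0 w) 3 ((v.take v.length).reverse)) 1
      (v.drop v.length) = Function.update (single 0 w) 3 (v.reverse ++ single 0 w 3) := by
    funext k
    simp only [Function.update_apply, single]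
    split_ifs <;> simp_all
  have e2 : Function.update (Function.update (Function.update (single 0 w) 0
      (w.drop (w.length - w.length))) 3 []) 1 v =
      Function.update (Function.update (single 0 w) 3 ((v.take 0).reverse)) 1
      (v.drop 0) := by
    funext k
    simp only [Function.update_apply, single]
    split_ifs <;> simp_all
  have e3 : Function.update (Function.update (Function.update (single 0 w) 0
      (w.drop (w.length - 0))) 3 []) 1 v = single 1 v := by
    funext k
    simp only [Function.update_apply, single]
    split_ifs <;> simp_all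
  rw [e1] at h3
  rw [e2, e3] at h4
  have h5 := h2.seq (h3.seq h4)
  refine h5.mono ?_
  have hpow : (w.length + 100) ^ (D + 2) = (w.length + 100) ^ (D + 1) * (w.length + 100) := by
    ring
  have hone : w.length + 100 ≤ (w.length + 100) ^ (D + 1) := by
    calc w.length + 100 = (w.length + 100) ^ 1 := (pow_one _).symm
      _ ≤ _ := Nat.pow_le_pow_right (by omega) (by omega)
  rw [hpow]
  generalize (w.length + 100) ^ (D + 1) = P at *
  nlinarith

/-- Every emitting program is computed by a `FinTM2` with finite alphabets in polynomial time. -/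
theorem em_poly (p : Em) : ∃ (tm : FinTM2) (ein : tm.Γ tm.k₀ ≃ Sym) (eout : tm.Γ tm.k₁ ≃ Sym)
    (C c : ℕ), (∀ k, Finite (tm.Γ k)) ∧ ∀ w : List Sym,
      Nonempty (TM2OutputsInTime tm (w.map ein.symm) (some ((p.out w).map eout.symm))
        (C * (w.length + 1) ^ c)) := by
  obtain ⟨D, hD⟩ := full_spec p
  refine ⟨mach p.full (max (Cmd.top p.full) 2), Equiv.refl _, Equiv.refl _, 100 ^ D + 1, D,
    ?_, ?_⟩
  · intro k
    exact inferInstanceAs (Finite Sym)
  · intro w
    obtain ⟨n, hn, h⟩ := hD w
    have h3 := mach_outputs p.full (max (Cmd.top p.full) 2) (by omega) (by omega) w (p.out w) n h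
      ((100 ^ D + 1) * (w.length + 1) ^ D) (by
        have h4 : (w.length + 100) ^ D ≤ (100 * (w.length + 1)) ^ D :=
          Nat.pow_le_pow_left (by omega) D
        rw [Nat.mul_pow] at h4
        have h5 : 1 ≤ (w.length + 1) ^ D := Nat.one_le_pow _ _ (by omega)
        rw [Nat.add_mul]
        omega)
    have h7 : ∀ w' v' : List Sym, w = w' → p.out w = v' →
        Nonempty (TM2OutputsInTime (mach p.full (max (Cmd.top p.full) 2)) w' (some v')
          ((100 ^ D + 1) * (w.length + 1) ^ D)) := by
      rintro _ _ rfl rfl
      exact h3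
    exact h7 (List.map (id : Sym → Sym) w) (List.map (id : Sym → Sym) (p.out w))
      (List.map_id w).symm (List.map_id _).symm

end Pool.Agent.Helper69
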