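import Mathlib

/-!
# Rails, rungs and bypasses: a constraint system encoded as a length bounded cut problem
-/

namespace Pool.Agent.Helper69.Rails

open SimpleGraph

/-- Nodes of the skeleton: the two terminals and the positions on the rails. -/
inductive Nd (ι : Type) : Type
  | s : Nd ι
  | t : Nd ι
  | v : Bool → ι → ℕ → Nd ι

/-- Data of a rail system: rails `(false, c)` and `(true, c)` for every constraint `c`. -/
structure Sys (ι V : Type) where
  /-- number of positions where a rail can be cut -/
  L : ℕ
  A : ℕ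
  b : ℕ
  w : ℕ
  /-- the variable to which a rail belongs -/
  var : Bool → ι → V
  /-- the extra cost of passing a cut rail -/
  B : Bool → ι → ℕ → ℕ

variable {ι V : Type}

/-- The length bound. -/
def Sys.l (Y : Sys ι V) : ℕ := 2 * Y.L + 2 * Y.b + Y.A + 6

/-- Threads: `Th x y l` means that `x` and `y` are joined by many parallel paths of length `l`. -/
inductive Th (Y : Sys ι V) : Nd ι → Nd ι → ℕ → Prop
  | src0 (c : ι) : Th Y .s (.v false c 0) 2
  | src1 (c : ι) : Th Y .s (.v true c 0) (Y.L + Y.b + Y.A + 4)
  | snk0 (c : ι) : Th Y (.v false c Y.L) .t (Y.L + Y.b + Y.A + 4)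
  | snk1 (c : ι) : Th Y (.v true c Y.L) .t 2
  | byp (sd : Bool) (c : ι) (p : ℕ) : p < Y.L →
      Th Y (.v sd c p) (.v sd c (p + 1)) (Y.B sd c p + 1)
  | rng (sd : Bool) (c c' : ι) (p : ℕ) : Y.var sd c = Y.var sd c' → p ≤ Y.L →
      Th Y (.v sd c p) (.v sd c' p) Y.w
  | chn (c : ι) : Th Y (.v false c Y.L) (.v true c 0) 2

/-- Vertices of the unit length graph: nodes and inner points `(x, y, l, copy, position)` of
threads. -/
abbrev U (ι : Type) := Nd ι ⊕ (Nd ι × Nd ι × ℕ × ℕ × ℕ)

/-- Points of a thread. -/
def pos (x y : Nd ι) (l c q : ℕ) : U ι :=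
  if q = 0 then Sum.inl x else if q = l then Sum.inl y else Sum.inr (x, y, l, c, q)

/-- The edges of the unit length graph; every thread has `k + 1` copies. -/
inductive E (Y : Sys ι V) (k : ℕ) : U ι → U ι → Prop
  | rail (sd : Bool) (c : ι) (p : ℕ) : p < Y.L →
      E Y k (Sum.inl (.v sd c p)) (Sum.inl (.v sd c (p + 1)))
  | thr (x y : Nd ι) (l c q : ℕ) : Th Y x y l → c ≤ k → q < l →
      E Y k (pos x y l c q) (pos x y l c (q + 1))

/-- The unit length graph. -/
def gr (Y : Sys ι V) (k : ℕ) : SimpleGraph (U ι) := SimpleGraph.fromRel (E Y k)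

/-- The edge of a rail. -/
def re (sd : Bool) (c : ι) (p : ℕ) : Sym2 (U ι) :=
  s(Sum.inl (.v sd c p), Sum.inl (.v sd c (p + 1)))

theorem re_inj {sd sd' : Bool} {c c' : ι} {p p' : ℕ} (h : re sd c p = re sd' c' p') :
    sd = sd' ∧ c = c' ∧ p = p' := by
  unfold re at h
  rw [Sym2.eq_iff] at h
  rcases h with ⟨h1, h2⟩ | ⟨h1, h2⟩
  · simp only [Sum.inl.injEq, Nd.v.injEq] at h1 h2
    exact ⟨h1.1, h1.2.1, h1.2.2⟩
  · simp only [Sum.inl.injEq, Nd.v.injEq] at h1 h2
    omega

/-- There is a walk of length `n` in the graph. -/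
def Wk {W : Type} (G : SimpleGraph W) (a b : W) (n : ℕ) : Prop := ∃ p : G.Walk a b, p.length = n

theorem Wk.refl {W : Type} {G : SimpleGraph W} (a : W) : Wk G a a 0 := ⟨.nil, rfl⟩

theorem Wk.symm {W : Type} {G : SimpleGraph W} {a b : W} {n : ℕ} (h : Wk G a b n) :
    Wk G b a n := by
  obtain ⟨p, hp⟩ := h
  exact ⟨p.reverse, by simpa using hp⟩

theorem Wk.trans {W : Type} {G : SimpleGraph W} {a b c : W} {n m : ℕ} (h : Wk G a b n)
    (h' : Wk G b c m) : Wk G a c (n + m) := by
  obtain ⟨p, hp⟩ := h
  obtain ⟨q, hq⟩ := h'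
  exact ⟨p.append q, by simp [hp, hq]⟩

theorem Wk.adj {W : Type} {G : SimpleGraph W} {a b : W} (h : G.Adj a b) : Wk G a b 1 :=
  ⟨h.toWalk, rfl⟩

/-- A path whose steps are all edges. -/
theorem Wk.steps {W : Type} {G : SimpleGraph W} (f : ℕ → W) (a b : ℕ) (hab : a ≤ b)
    (h : ∀ q, a ≤ q → q < b → G.Adj (f q) (f (q + 1))) : Wk G (f a) (f b) (b - a) := by
  induction b, hab using Nat.le_induction with
  | base => simpa using Wk.refl (f a)
  | succ b hab ih =>
    have h1 := ih (fun q h1 h2 => h q h1 (by omega))
    have h2 := Wk.adj (h b hab (by omega))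
    have := h1.trans h2
    have e : b + 1 - a = b - a + 1 := by omega
    rw [e]
    exact this

theorem pos_ne (x y : Nd ι) {l c q : ℕ} (hl : 2 ≤ l) (hq : q < l) :
    pos x y l c q ≠ pos x y l c (q + 1) := by
  unfold pos
  rcases Nat.eq_zero_or_pos q with h0 | h0
  · subst h0
    have : (0 + 1 = l) = False := by simp; omega
    simp only [if_true, Nat.zero_add, one_ne_zero, if_false]
    rw [if_neg (by omega)]
    simp
  · rw [if_neg (by omega), if_neg (by omega), if_neg (by omega)]
    split_ifs <;> simp

/-- Copies of a thread do not share edges. -/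
theorem pos_edge_inj (x y : Nd ι) {l c c' q q' : ℕ} (hl : 2 ≤ l) (hq : q < l)
    (h : s(pos x y l c q, pos x y l c (q + 1)) = s(pos x y l c' q', pos x y l c' (q' + 1))) :
    c = c' := by
  have key : ∀ r r', 0 < r → r < l → pos x y l c r = pos x y l c' r' → c = c' := by
    intro r r' h0 h1 h2
    unfold pos at h2
    rw [if_neg (by omega), if_neg (by omega)] at h2
    split_ifs at h2
    simp only [Sum.inr.injEq, Prod.mk.injEq] at h2
    exact h2.2.2.2.1
  rw [Sym2.eq_iff] at h
  rcases Nat.eq_zero_or_pos q with h0 | h0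
  · subst h0
    rcases h with ⟨h1, h2⟩ | ⟨h1, h2⟩
    · exact key (0 + 1) _ (by omega) (by omega) h2
    · exact key (0 + 1) _ (by omega) (by omega) h2
  · rcases h with ⟨h1, h2⟩ | ⟨h1, h2⟩
    · exact key q _ h0 hq h1
    · exact key q _ h0 hq h1

/-- A thread survives the deletion of at most `k` edges. -/
theorem thread_walk (Y : Sys ι V) {k : ℕ} {S : Finset (Sym2 (U ι))} (hS : S.card ≤ k)
    {x y : Nd ι} {l : ℕ} (hl : 2 ≤ l) (h : Th Y x y l) :
    Wk ((gr Y k).deleteEdges ↑S) (Sum.inl x) (Sum.inl y) l := by
  classical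
  have hc : ∃ c ≤ k, ∀ q < l, s(pos x y l c q, pos x y l c (q + 1)) ∉ S := by
    by_contra hcon
    push Not at hcon
    choose f hf1 hf2 using hcon
    have hcard : (Finset.univ : Finset (Fin (k + 1))).card ≤ S.card := by
      refine Finset.card_le_card_of_injOn
        (fun c => s(pos x y l c.1 (f c.1 (by omega)), pos x y l c.1 (f c.1 (by omega) + 1)))
        ?_ ?_
      · intro c _
        exact hf2 c.1 (by omega)
      · intro c _ c' _ hcc
        exact Fin.ext (pos_edge_inj x y hl (hf1 _ _) hcc)
    simp at hcard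
    omega
  obtain ⟨c, hck, hc⟩ := hc
  have h1 := Wk.steps (G := (gr Y k).deleteEdges ↑S) (fun q => pos x y l c q) 0 l (by omega)
    (by
      intro q _ hq
      rw [SimpleGraph.deleteEdges_adj]
      refine ⟨?_, by simpa using hc q hq⟩
      rw [gr, SimpleGraph.fromRel_adj]
      exact ⟨pos_ne x y hl hq, Or.inl (E.thr x y l c q h hck hq)⟩)
  have e0 : pos x y l c 0 = Sum.inl x := by simp [pos]
  have e1 : pos x y l c l = Sum.inl y := by
    unfold pos
    rw [if_neg (by omega), if_pos rfl]
  simp only [e0, e1, Nat.sub_zero] at h1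
  exact h1

/-- Walking along an uncut part of a rail. -/
theorem rail_walk (Y : Sys ι V) {k : ℕ} {S : Finset (Sym2 (U ι))} (sd : Bool) (c : ι)
    {p p' : ℕ} (hp : p ≤ p') (hp' : p' ≤ Y.L) (h : ∀ q, p ≤ q → q < p' → re sd c q ∉ S) :
    Wk ((gr Y k).deleteEdges ↑S) (Sum.inl (.v sd c p)) (Sum.inl (.v sd c p')) (p' - p) := by
  refine Wk.steps (G := (gr Y k).deleteEdges ↑S) (fun q => (Sum.inl (.v sd c q) : U ι)) p p' hp ?_
  intro q h1 h2
  rw [SimpleGraph.deleteEdges_adj]
  refine ⟨?_, by simpa [re] using h q h1 h2⟩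
  rw [gr, SimpleGraph.fromRel_adj]
  refine ⟨by simp, Or.inl (E.rail sd c q (by omega))⟩

/-- The constraint system is satisfied by the cut positions `x`. -/
structure Sat (Y : Sys ι V) (x : Bool → ι → ℕ) : Prop where
  lt : ∀ sd c, x sd c < Y.L
  eq : ∀ sd c c', Y.var sd c = Y.var sd c' → x sd c = x sd c'
  valid : ∀ sd c, Y.b ≤ Y.B sd c (x sd c)
  chain : ∀ c, 2 * Y.b + Y.A ≤ Y.B false c (x false c) + Y.B true c (x true c)

/-- From a cut to a solution of the constraint system. -/
theorem sat_of_cut [Fintype ι] (Y : Sys ι V) (hB : ∀ sd c p, 1 ≤ Y.B sd c p) (hw : 2 ≤ Y.w)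
    (hwb : Y.w < Y.b) {k : ℕ} (hk : k = 2 * Fintype.card ι) {S : Finset (Sym2 (U ι))}
    (hS : S.card ≤ k)
    (hno : ∀ n, Wk ((gr Y k).deleteEdges ↑S) (Sum.inl .s) (Sum.inl .t) n → Y.l ≤ n) :
    ∃ x, Sat Y x := by
  classical
  have T : ∀ {x y : Nd ι} {l : ℕ}, 2 ≤ l → Th Y x y l →
      Wk ((gr Y k).deleteEdges ↑S) (Sum.inl x) (Sum.inl y) l := fun hl h => thread_walk Y hS hl h
  -- every rail is cut
  have hcut : ∀ sd c, ∃ p < Y.L, re sd c p ∈ S := by
    intro sd c
    by_contra hcon
    push Not at hcon
    have h1 := rail_walk Y (k := k) (S := S) sd c (Nat.zero_le Y.L) le_rfl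
      (fun q _ hq => hcon q hq)
    rw [Nat.sub_zero] at h1
    cases sd with
    | false =>
      have h2 := hno _ (((T le_rfl (Th.src0 c)).trans h1).trans (T (by omega) (Th.snk0 c)))
      unfold Sys.l at h2
      omega
    | true =>
      have h2 := hno _ (((T (by omega) (Th.src1 c)).trans h1).trans (T le_rfl (Th.snk1 c)))
      unfold Sys.l at h2
      omega
  choose x hx1 hx2 using hcut
  -- and only once
  have hS' : (Finset.univ : Finset (Bool × ι)).image (fun a => re a.1 a.2 (x a.1 a.2)) = S := by
    refine Finset.eq_of_subset_of_card_le ?_ ?_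
    · intro e he
      rw [Finset.mem_image] at he
      obtain ⟨a, _, rfl⟩ := he
      exact hx2 _ _
    · rw [Finset.card_image_of_injective]
      · simp only [Finset.card_univ, Fintype.card_prod, Fintype.card_bool]
        omega
      · intro a a' haa
        obtain ⟨h1, h2, _⟩ := re_inj haa
        exact Prod.ext h1 h2
  have huniq : ∀ sd c p, re sd c p ∈ S → p = x sd c := by
    intro sd c p hp
    rw [← hS', Finset.mem_image] at hp
    obtain ⟨a, _, ha⟩ := hp
    obtain ⟨h1, h2, h3⟩ := re_inj ha
    rw [← h3, h1, h2]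
  have hleft : ∀ sd c p, p ≤ x sd c →
      Wk ((gr Y k).deleteEdges ↑S) (Sum.inl (.v sd c 0)) (Sum.inl (.v sd c p)) p := by
    intro sd c p hp
    have := rail_walk Y (k := k) (S := S) sd c (Nat.zero_le p) (hp.trans (hx1 sd c).le)
      (fun q _ hq hmem => by
        have := huniq sd c q hmem
        omega)
    simpa using this
  have hright : ∀ sd c p, x sd c < p → p ≤ Y.L →
      Wk ((gr Y k).deleteEdges ↑S) (Sum.inl (.v sd c p)) (Sum.inl (.v sd c Y.L)) (Y.L - p) := by
    intro sd c p hp hpL
    exact rail_walk Y (k := k) (S := S) sd c hpL le_rfl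
      (fun q hq _ hmem => by
        have := huniq sd c q hmem
        omega)
  -- passing a rail through the bypass of the cut edge
  have hpass : ∀ sd c, Wk ((gr Y k).deleteEdges ↑S) (Sum.inl (.v sd c 0)) (Sum.inl (.v sd c Y.L))
      (Y.L + Y.B sd c (x sd c)) := by
    intro sd c
    have h1 := hleft sd c (x sd c) le_rfl
    have h2 := T (by have := hB sd c (x sd c); omega) (Th.byp sd c (x sd c) (hx1 sd c))
    have h3 := hright sd c (x sd c + 1) (by omega) (hx1 sd c)
    have h4 := (h1.trans h2).trans h3
    have e : x sd c + (Y.B sd c (x sd c) + 1) + (Y.L - (x sd c + 1)) =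
        Y.L + Y.B sd c (x sd c) := by
      have := hx1 sd c
      omega
    rw [e] at h4
    exact h4
  refine ⟨x, ⟨hx1, ?_, ?_, ?_⟩⟩
  · -- equal variables are cut at equal positions
    have hle : ∀ sd c c', Y.var sd c = Y.var sd c' → x sd c ≤ x sd c' := by
      intro sd c c' hv
      by_contra hlt
      push Not at hlt
      have hL := hx1 sd c
      have h1 := hleft sd c (x sd c' + 1) (by omega)
      have h2 := T hw (Th.rng sd c c' (x sd c' + 1) hv (by omega))
      have h3 := hright sd c' (x sd c' + 1) (by omega) (by omega)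
      have h4 := (h1.trans h2).trans h3
      cases sd with
      | false =>
        have h5 := hno _ (((T le_rfl (Th.src0 c)).trans h4).trans (T (by omega) (Th.snk0 c')))
        unfold Sys.l at h5
        omega
      | true =>
        have h5 := hno _ (((T (by omega) (Th.src1 c)).trans h4).trans (T le_rfl (Th.snk1 c')))
        unfold Sys.l at h5
        omega
    intro sd c c' hv
    exact le_antisymm (hle sd c c' hv) (hle sd c' c hv.symm)
  · intro sd c
    have h1 := hpass sd c
    cases sd with
    | false =>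
      have h5 := hno _ (((T le_rfl (Th.src0 c)).trans h1).trans (T (by omega) (Th.snk0 c)))
      unfold Sys.l at h5
      omega
    | true =>
      have h5 := hno _ (((T (by omega) (Th.src1 c)).trans h1).trans (T le_rfl (Th.snk1 c)))
      unfold Sys.l at h5
      omega
  · intro c
    have h1 := hpass false c
    have h2 := hpass true c
    have h3 := hno _ (((((T le_rfl (Th.src0 c)).trans h1).trans (T le_rfl (Th.chn c))).trans
      h2).trans (T le_rfl (Th.snk1 c)))
    unfold Sys.l at h3
    omega

/-- The potential of a node. -/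
def phi (Y : Sys ι V) (x : Bool → ι → ℕ) : Nd ι → ℤ
  | .s => 0
  | .t => Y.l
  | .v false c p =>
    if p ≤ x false c then 2 + p else 2 + Y.L + Y.B false c (x false c) - (Y.L - p)
  | .v true c p =>
    if p ≤ x true c then 4 + Y.L + Y.B false c (x false c) + p else Y.l - 2 - (Y.L - p)

/-- The potential of a vertex. -/
def Phi (Y : Sys ι V) (x : Bool → ι → ℕ) : U ι → ℤ
  | .inl a => phi Y x a
  | .inr (a, b, l, _, q) => min (phi Y x a + q) (phi Y x b + l - q)

theorem phi_th (Y : Sys ι V) (hBA : ∀ sd c p, p < Y.L → Y.B sd c p ≤ Y.b + Y.A) (hAw : Y.A ≤ Y.w)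
    {x : Bool → ι → ℕ} (hx : Sat Y x) {a b : Nd ι} {l : ℕ} (h : Th Y a b l) :
    |phi Y x a - phi Y x b| ≤ l := by
  have hlt := hx.lt
  have hval := hx.valid
  have hch := hx.chain
  replace hBA : ∀ sd c, Y.B sd c (x sd c) ≤ Y.b + Y.A := fun sd c => hBA sd c _ (hlt sd c)
  have hl : (Y.l : ℤ) = 2 * Y.L + 2 * Y.b + Y.A + 6 := by
    unfold Sys.l
    push_cast
    ring
  rw [abs_le]
  cases h with
  | src0 c =>
    simp only [phi]
    constructor <;> simp
  | src1 c =>
    have h1 := hBA false c
    simp only [phi, zero_le, if_true]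
    push_cast
    constructor <;> omega
  | snk0 c =>
    have h1 := hval false c
    have h2 := hBA false c
    have h3 := hlt false c
    simp only [phi]
    rw [if_neg (by omega)]
    push_cast
    constructor <;> omega
  | snk1 c =>
    have h3 := hlt true c
    simp only [phi]
    rw [if_neg (by omega)]
    push_cast
    constructor <;> omega
  | byp sd c p hp =>
    have h1 := hval false c
    have h2 := hBA false c
    have h3 := hlt sd c
    have h4 := hch c
    have h5 := hval true c
    have h6 := hBA true c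
    cases sd with
    | false =>
      simp only [phi]
      rcases lt_trichotomy p (x false c) with h | h | h
      · rw [if_pos (by omega), if_pos (by omega)]
        push_cast
        constructor <;> omega
      · subst h
        rw [if_pos (by omega), if_neg (by omega)]
        push_cast
        constructor <;> omega
      · rw [if_neg (by omega), if_neg (by omega)]
        push_cast
        constructor <;> omega
    | true =>
      simp only [phi]
      rcases lt_trichotomy p (x true c) with h | h | h
      · rw [if_pos (by omega), if_pos (by omega)]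
        push_cast
        constructor <;> omega
      · subst h
        rw [if_pos (by omega), if_neg (by omega)]
        push_cast
        constructor <;> omega
      · rw [if_neg (by omega), if_neg (by omega)]
        push_cast
        constructor <;> omega
  | rng sd c c' p hv hp =>
    have h1 := hval false c
    have h2 := hBA false c
    have h1' := hval false c'
    have h2' := hBA false c'
    have he := hx.eq sd c c' hv
    cases sd with
    | false =>
      simp only [phi]
      by_cases h : p ≤ x false c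
      · rw [if_pos h, if_pos (by omega)]
        constructor <;> omega
      · rw [if_neg h, if_neg (by omega)]
        constructor <;> omega
    | true =>
      simp only [phi]
      by_cases h : p ≤ x true c
      · rw [if_pos h, if_pos (by omega)]
        constructor <;> omega
      · rw [if_neg h, if_neg (by omega)]
        constructor <;> omega
  | chn c =>
    have h1 := hlt false c
    simp only [phi, zero_le, if_true]
    rw [if_neg (by omega)]
    push_cast
    constructor <;> omega

theorem Phi_pos (Y : Sys ι V) {x : Bool → ι → ℕ} {a b : Nd ι} {l c q : ℕ} (hq : q ≤ l)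
    (h : |phi Y x a - phi Y x b| ≤ l) :
    Phi Y x (pos a b l c q) = min (phi Y x a + q) (phi Y x b + l - q) := by
  rw [abs_le] at h
  unfold pos
  split_ifs with h0 h1
  · subst h0
    simp only [Phi]
    push_cast
    omega
  · subst h1
    simp only [Phi]
    omega
  · simp [Phi]

theorem Phi_E (Y : Sys ι V) {k : ℕ} (hBA : ∀ sd c p, p < Y.L → Y.B sd c p ≤ Y.b + Y.A) (hAw : Y.A ≤ Y.w)
    {x : Bool → ι → ℕ} (hx : Sat Y x) {a b : U ι} (h : E Y k a b)
    (hcut : ∀ sd c, s(a, b) ≠ re sd c (x sd c)) : |Phi Y x a - Phi Y x b| ≤ 1 := by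
  cases h with
  | rail sd c p hp =>
    have h1 : p ≠ x sd c := by
      intro h1
      apply hcut sd c
      rw [h1]
      rfl
    rw [abs_le]
    cases sd with
    | false =>
      simp only [Phi, phi]
      rcases lt_or_gt_of_ne h1 with h | h
      · rw [if_pos (by omega), if_pos (by omega)]
        push_cast
        constructor <;> omega
      · rw [if_neg (by omega), if_neg (by omega)]
        push_cast
        constructor <;> omega
    | true =>
      simp only [Phi, phi]
      rcases lt_or_gt_of_ne h1 with h | h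
      · rw [if_pos (by omega), if_pos (by omega)]
        push_cast
        constructor <;> omega
      · rw [if_neg (by omega), if_neg (by omega)]
        push_cast
        constructor <;> omega
  | thr a b l c q hth hc hq =>
    have h1 := phi_th Y hBA hAw hx hth
    rw [Phi_pos Y (by omega) h1, Phi_pos Y (by omega) h1]
    rw [abs_le]
    push_cast
    constructor <;> omega

/-- From a solution of the constraint system to a cut. -/
theorem cut_of_sat [Fintype ι] (Y : Sys ι V) (hBA : ∀ sd c p, p < Y.L → Y.B sd c p ≤ Y.b + Y.A)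
    (hAw : Y.A ≤ Y.w) {k : ℕ} (hk : k = 2 * Fintype.card ι) {x : Bool → ι → ℕ} (hx : Sat Y x) :
    ∃ S : Finset (Sym2 (U ι)), S.card ≤ k ∧ (↑S : Set (Sym2 (U ι))) ⊆ (gr Y k).edgeSet ∧
      ∀ p : ((gr Y k).deleteEdges ↑S).Walk (Sum.inl .s) (Sum.inl .t), Y.l ≤ p.length := by
  classical
  refine ⟨(Finset.univ : Finset (Bool × ι)).image (fun a => re a.1 a.2 (x a.1 a.2)), ?_, ?_, ?_⟩
  · refine Finset.card_image_le.trans ?_
    simp only [Finset.card_univ, Fintype.card_prod, Fintype.card_bool]
    omega
  · intro e he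
    rw [Finset.mem_coe, Finset.mem_image] at he
    obtain ⟨a, _, rfl⟩ := he
    unfold re
    rw [SimpleGraph.mem_edgeSet, gr, SimpleGraph.fromRel_adj]
    exact ⟨by simp, Or.inl (E.rail _ _ _ (hx.lt _ _))⟩
  · intro p
    have hadj : ∀ a b, ((gr Y k).deleteEdges
        ↑((Finset.univ : Finset (Bool × ι)).image (fun a => re a.1 a.2 (x a.1 a.2)))).Adj a b →
        |Phi Y x a - Phi Y x b| ≤ 1 := by
      intro a b hab
      rw [SimpleGraph.deleteEdges_adj, gr, SimpleGraph.fromRel_adj] at hab
      obtain ⟨⟨_, h1⟩, h2⟩ := hab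
      have h3 : ∀ sd c, s(a, b) ≠ re sd c (x sd c) := by
        intro sd c h3
        apply h2
        rw [Finset.mem_coe, Finset.mem_image]
        exact ⟨(sd, c), Finset.mem_univ _, h3.symm⟩
      rcases h1 with h1 | h1
      · exact Phi_E Y hBA hAw hx h1 h3
      · rw [abs_sub_comm]
        refine Phi_E Y hBA hAw hx h1 ?_
        intro sd c h4
        rw [Sym2.eq_swap] at h4
        exact h3 sd c h4
    have hwalk : ∀ a b (p : ((gr Y k).deleteEdges
        ↑((Finset.univ : Finset (Bool × ι)).image (fun a => re a.1 a.2 (x a.1 a.2)))).Walk a b),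
        Phi Y x b - Phi Y x a ≤ p.length := by
      intro a b p
      induction p with
      | nil => simp
      | cons h q ih =>
        have h1 := hadj _ _ h
        rw [abs_le] at h1
        rw [SimpleGraph.Walk.length_cons]
        push_cast
        omega
    have h := hwalk _ _ p
    simp only [Phi, phi] at h
    omega

end Pool.Agent.Helper69.Rails
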