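import Mathlib
import Pool.Agent.Helper69.Rails

/-!
# The constraint system of a clique instance
-/

namespace Pool.Agent.Helper69.Rails

/-- Constraints `(h, g, q, σ)`: coordinate `q` of the cell `(h, g)` (for `q = false`) or `(g, h)`
(for `q = true`) agrees with the vertex chosen for `h`; `σ` is the sign of the inequality. -/
abbrev Ct (K : ℕ) := Fin K × Fin K × Bool × Bool

/-- The value read at position `p`. -/
def rd (n : ℕ) (sd q : Bool) (p : ℕ) : ℕ := if sd = false ∨ q = false then p / n else p % n

/-- The positions which are allowed. -/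
def ok {n : ℕ} (G : SimpleGraph (Fin n)) {K : ℕ} (sd : Bool) (c : Ct K) (p : ℕ) : Prop :=
  sd = false ∨ (if c.1 = c.2.1 then p / n = p % n else
    ∃ a b : Fin n, a.1 = p / n ∧ b.1 = p % n ∧ G.Adj a b)

open Classical in
/-- The extra cost of passing a rail. -/
noncomputable def cost {n : ℕ} (G : SimpleGraph (Fin n)) {K : ℕ} (sd : Bool) (c : Ct K) (p : ℕ) :
    ℕ :=
  if ok G sd c p then
    n + 3 + (if sd = c.2.2.2 then rd n sd c.2.2.1 p else n - rd n sd c.2.2.1 p)
  else n + 2

/-- The variable of a rail. -/
def vr {K : ℕ} (sd : Bool) (c : Ct K) : ℕ × ℕ :=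
  if sd = false then (c.1, 0) else if c.2.2.1 = false then (c.1, c.2.1) else (c.2.1, c.1)

/-- The rail system of a clique instance. -/
noncomputable def csys {n : ℕ} (G : SimpleGraph (Fin n)) (K : ℕ) : Sys (Ct K) (ℕ × ℕ) where
  L := n * n
  A := n
  b := n + 3
  w := n + 2
  var := vr
  B := cost G

theorem rd_le {n : ℕ} {sd q : Bool} {p : ℕ} (hp : p < n * n) : rd n sd q p < n := by
  have hn : 0 < n := Nat.pos_of_ne_zero (by rintro rfl; simp at hp)
  unfold rd
  split_ifs
  · exact Nat.div_lt_of_lt_mul hp
  · exact Nat.mod_lt _ hn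

theorem sat_iff {n : ℕ} (G : SimpleGraph (Fin n)) (K : ℕ) :
    (∃ x, Sat (csys G K) x) ↔ ∃ f : Fin K → Fin n, ∀ i j, i ≠ j → G.Adj (f i) (f j) := by
  classical
  constructor
  · rintro ⟨x, hx⟩
    have hlt : ∀ sd c, x sd c < n * n := hx.lt
    have heq : ∀ sd c c', vr sd c = vr sd c' → x sd c = x sd c' := hx.eq
    have hval : ∀ sd c, n + 3 ≤ cost G sd c (x sd c) := hx.valid
    have hch : ∀ c, 2 * (n + 3) + n ≤ cost G false c (x false c) + cost G true c (x true c) :=
      hx.chain
    have hok : ∀ sd c, ok G sd c (x sd c) := by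
      intro sd c
      by_contra hcon
      have := hval sd c
      rw [cost, if_neg hcon] at this
      omega
    refine ⟨fun i => ⟨x false (i, i, false, false) / n, Nat.div_lt_of_lt_mul (hlt _ _)⟩, ?_⟩
    -- hubs agree
    have hhub : ∀ i g q σ, x false (i, g, q, σ) = x false (i, i, false, false) := by
      intro i g q σ
      apply heq
      simp [vr]
    -- the two inequalities of a constraint
    have hread : ∀ h g q, x false (h, g, q, false) / n = rd n true q (x true (h, g, q, false)) := by
      intro h g q
      have h1 := hch (h, g, q, false)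
      have h2 := hch (h, g, q, true)
      unfold cost at h1 h2
      rw [if_pos (hok _ _), if_pos (hok _ _)] at h1 h2
      have e1 : x false (h, g, q, true) = x false (h, g, q, false) :=
        (hhub h g q true).trans (hhub h g q false).symm
      have e2 : x true (h, g, q, true) = x true (h, g, q, false) := by
        apply heq
        simp [vr]
      have hr0 : rd n false q (x false (h, g, q, false)) = x false (h, g, q, false) / n := by
        simp [rd]
      have hr1 := rd_le (sd := true) (q := q) (hlt true (h, g, q, false))
      have hr2 := rd_le (sd := false) (q := q) (hlt false (h, g, q, false))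
      simp only [e1, e2, hr0, if_true, reduceCtorEq, if_false] at h1 h2
      rw [hr0] at hr2
      omega
    intro i j hij
    have h1 := hread i j false
    have h2 := hread j i true
    have e : x true (j, i, true, false) = x true (i, j, false, false) := by
      apply heq
      simp [vr]
    rw [e] at h2
    rw [hhub] at h1 h2
    simp only [rd, reduceCtorEq, or_true, if_true, or_self, if_false] at h1 h2
    have h3 := hok true (i, j, false, false)
    simp only [ok, reduceCtorEq, false_or] at h3
    rw [if_neg hij] at h3
    obtain ⟨a, b, ha, hb, hab⟩ := h3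
    have ea : a = ⟨x false (i, i, false, false) / n, Nat.div_lt_of_lt_mul (hlt _ _)⟩ :=
      Fin.ext (ha.trans h1.symm)
    have eb : b = ⟨x false (j, j, false, false) / n, Nat.div_lt_of_lt_mul (hlt _ _)⟩ :=
      Fin.ext (hb.trans h2.symm)
    rw [ea, eb] at hab
    exact hab
  · rintro ⟨f, hf⟩
    set x : Bool → Ct K → ℕ := fun sd c =>
      if sd = false then (f c.1).1 * n
      else if c.2.2.1 = false then (f c.1).1 * n + (f c.2.1).1
      else (f c.2.1).1 * n + (f c.1).1 with hx
    have hdiv : ∀ i j : Fin K, ((f i).1 * n + (f j).1) / n = (f i).1 := by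
      intro i j
      have hn : 0 < n := by have := (f i).2; omega
      rw [Nat.add_div hn]
      simp [Nat.mul_div_cancel _ hn, Nat.div_eq_of_lt (f j).2, Nat.mod_eq_of_lt (f j).2]
    have hmod : ∀ i j : Fin K, ((f i).1 * n + (f j).1) % n = (f j).1 := by
      intro i j
      rw [Nat.mul_comm, Nat.mul_add_mod, Nat.mod_eq_of_lt (f j).2]
    have hltij : ∀ i j : Fin K, (f i).1 * n + (f j).1 < n * n := by
      intro i j
      have h1 := (f i).2
      have h2 := (f j).2
      nlinarith
    have hok : ∀ sd c, ok G sd c (x sd c) := by
      rintro sd ⟨h, g, q, σ⟩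
      cases sd with
      | false => exact Or.inl rfl
      | true =>
        refine Or.inr ?_
        cases q with
        | false =>
          simp only [hx, reduceCtorEq, if_false, if_true, hdiv, hmod]
          split_ifs with hhg
          · rw [hhg]
          · exact ⟨f h, f g, rfl, rfl, hf h g hhg⟩
        | true =>
          simp only [hx, reduceCtorEq, if_false, hdiv, hmod]
          split_ifs with hhg
          · rw [hhg]
          · exact ⟨f g, f h, rfl, rfl, hf g h (Ne.symm hhg)⟩
    have hrd0 : ∀ c : Ct K, rd n false c.2.2.1 (x false c) = (f c.1).1 := by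
      intro c
      have hn : 0 < n := by have := (f c.1).2; omega
      simp [rd, hx, Nat.mul_div_cancel _ hn]
    have hrd1 : ∀ c : Ct K, rd n true c.2.2.1 (x true c) = (f c.1).1 := by
      rintro ⟨h, g, q, σ⟩
      cases q with
      | false => simp [rd, hx, hdiv]
      | true => simp [rd, hx, hmod]
    refine ⟨x, ⟨?_, ?_, ?_, ?_⟩⟩
    · rintro sd ⟨h, g, q, σ⟩
      change x sd (h, g, q, σ) < n * n
      simp only [hx]
      split_ifs
      · have := hltij h h
        omega
      · exact hltij h g
      · exact hltij g h
    · rintro sd ⟨h, g, q, σ⟩ ⟨h', g', q', σ'⟩ hv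
      change vr sd (h, g, q, σ) = vr sd (h', g', q', σ') at hv
      simp only [vr] at hv
      simp only [hx]
      cases sd with
      | false =>
        simp only [if_true, Prod.mk.injEq, and_true] at hv ⊢
        rw [Fin.ext hv]
      | true =>
        simp only [reduceCtorEq, if_false] at hv ⊢
        cases q <;> cases q' <;> simp only [reduceCtorEq, if_true, if_false, Prod.mk.injEq] at hv ⊢
        · rw [Fin.ext hv.1, Fin.ext hv.2]
        · rw [Fin.ext hv.1, Fin.ext hv.2]
        · rw [Fin.ext hv.1, Fin.ext hv.2]
        · rw [Fin.ext hv.1, Fin.ext hv.2]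
    · intro sd c
      change n + 3 ≤ cost G sd c (x sd c)
      rw [cost, if_pos (hok sd c)]
      omega
    · intro c
      change 2 * (n + 3) + n ≤ cost G false c (x false c) + cost G true c (x true c)
      rw [cost, cost, if_pos (hok _ _), if_pos (hok _ _), hrd0, hrd1]
      have := (f c.1).2
      rcases c with ⟨h, g, q, σ⟩
      cases σ <;> simp <;> omega

theorem cost_le {n : ℕ} (G : SimpleGraph (Fin n)) {K : ℕ} (sd : Bool) (c : Ct K) (p : ℕ)
    (hp : p < n * n) : cost G sd c p ≤ n + 3 + n := by
  have := rd_le (sd := sd) (q := c.2.2.1) hp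
  unfold cost
  split_ifs <;> omega

end Pool.Agent.Helper69.Rails
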