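import Mathlib
import Pool.Agent.Helper69.Emit

/-!
# Derived terms and programs
-/

namespace Pool.Agent.Helper69

open Finset

/-- Truth of a term used as a formula. -/
def tr (w : List Sym) (n : ℕ) (e : ℕ → ℕ) (t : Tm) : Prop := t.eval w n e ≠ 0

/-- conjunction -/
def andT (a b : Tm) : Tm := .mul a b
/-- disjunction -/
def orT (a b : Tm) : Tm := .add a b
/-- negation -/
def notT (a : Tm) : Tm := .sub (.cst 1) a
/-- strict inequality -/
def ltT (a b : Tm) : Tm := .sub b a
/-- equality -/
def eqT (a b : Tm) : Tm := .mul (.sub (.add b (.cst 1)) a) (.sub (.add a (.cst 1)) b)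
/-- bounded existence -/
def exT (a b : Tm) : Tm := .sum a b
/-- conditional -/
def iteT (c a b : Tm) : Tm :=
  .add (.mul (.sub (.cst 1) (.sub (.cst 1) c)) a) (.mul (.sub (.cst 1) c) b)
/-- Cantor pairing -/
def pairT (a b : Tm) : Tm := iteT (ltT a b) (.add (.mul b b) a) (.add (.add (.mul a a) a) b)
/-- iterated squares -/
def powT (t : Tm) : ℕ → Tm
  | 0 => t
  | k + 1 => .mul (powT t k) (powT t k)
/-- parity of `t / 2 ^ j` -/
def bitT (t j : Tm) : Tm :=
  .sub (.shr t j) (.mul (.cst 2) (.shr t (.add j (.cst 1))))

section
variable {w : List Sym} {n : ℕ} {e : ℕ → ℕ} {a b c : Tm}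

@[simp] theorem tr_and : tr w n e (andT a b) ↔ tr w n e a ∧ tr w n e b := by
  simp [tr, andT, Tm.eval]

@[simp] theorem tr_or : tr w n e (orT a b) ↔ tr w n e a ∨ tr w n e b := by
  simp only [tr, orT, Tm.eval]
  omega

@[simp] theorem tr_not : tr w n e (notT a) ↔ ¬ tr w n e a := by
  simp only [tr, notT, Tm.eval]
  omega

@[simp] theorem tr_lt : tr w n e (ltT a b) ↔ a.eval w n e < b.eval w n e := by
  simp only [tr, ltT, Tm.eval]
  omega

@[simp] theorem tr_eq : tr w n e (eqT a b) ↔ a.eval w n e = b.eval w n e := by
  simp only [tr, eqT, Tm.eval, ne_eq, mul_eq_zero]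
  omega

@[simp] theorem tr_ex : tr w n e (exT a b) ↔
    ∃ x < a.eval w n e, tr w (n + 1) (Function.update e n x) b := by
  simp only [tr, exT, Tm.eval, ne_eq, Finset.sum_eq_zero_iff, Finset.mem_range, not_forall]
  constructor
  · rintro ⟨x, hx, h⟩
    exact ⟨x, hx, h⟩
  · rintro ⟨x, hx, h⟩
    exact ⟨x, hx, h⟩

theorem tr_sym {x : Sym} : tr w n e (.sym x a) ↔ w[a.eval w n e]? = some x := by
  simp only [tr, Tm.eval]
  split_ifs with h <;> simp [h]

open Classical in
@[simp] theorem eval_iteT : (iteT c a b).eval w n e =
    if tr w n e c then a.eval w n e else b.eval w n e := by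
  simp only [iteT, Tm.eval, tr]
  by_cases h : c.eval w n e = 0
  · simp [h]
  · have h1 : 1 - c.eval w n e = 0 := by omega
    simp [h, h1]

@[simp] theorem eval_pairT : (pairT a b).eval w n e = Nat.pair (a.eval w n e) (b.eval w n e) := by
  unfold pairT Nat.pair
  rw [eval_iteT]
  simp [Tm.eval]

@[simp] theorem eval_powT (k : ℕ) : (powT a k).eval w n e = (a.eval w n e) ^ 2 ^ k := by
  induction k with
  | zero => simp [powT]
  | succ k ih =>
    rw [powT, Tm.eval, ih]
    ring

theorem eval_bitT : (bitT a b).eval w n e = a.eval w n e / 2 ^ b.eval w n e % 2 := by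
  simp only [bitT, Tm.eval]
  rw [pow_succ, ← Nat.div_div_eq_div_mul]
  omega

@[simp] theorem tr_bit : tr w n e (bitT a b) ↔ (a.eval w n e).testBit (b.eval w n e) = true := by
  rw [tr, eval_bitT, Nat.testBit_eq_decide_div_mod_eq]
  simp

end

/-- A term builder (taking the level as argument) which has the value `v` at all levels from `n`
on, whatever the variables from number `n` on are. -/
def Val (w : List Sym) (n : ℕ) (e : ℕ → ℕ) (t : ℕ → Tm) (v : ℕ) : Prop :=
  ∀ m, n ≤ m → ∀ e' : ℕ → ℕ, (∀ i < n, e' i = e i) → (t m).eval w m e' = v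

theorem Val.here {w : List Sym} {n : ℕ} {e : ℕ → ℕ} {t : ℕ → Tm} {v : ℕ}
    (h : Val w n e t v) : (t n).eval w n e = v := h n le_rfl e fun _ _ => rfl

theorem Val.upd {w : List Sym} {n : ℕ} {e : ℕ → ℕ} {t : ℕ → Tm} {v : ℕ}
    (h : Val w n e t v) (x : ℕ) : (t (n + 1)).eval w (n + 1) (Function.update e n x) = v :=
  h (n + 1) (by omega) _ fun i hi => by rw [Function.update_of_ne (by omega)]

theorem Val.mono {w : List Sym} {n : ℕ} {e : ℕ → ℕ} {t : ℕ → Tm} {v : ℕ}
    (h : Val w n e t v) {m : ℕ} (hm : n ≤ m) {e' : ℕ → ℕ} (he : ∀ i < n, e' i = e i) :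
    Val w m e' t v := by
  intro m' hm' e'' he''
  exact h m' (by omega) e'' fun i hi => by rw [he'' i (by omega), he i hi]

/-- The number of binary digits. -/
def sizeB (t : ℕ → Tm) : ℕ → Tm := fun m =>
  .sum (t m) (.sub (.cst 1) (.sub (.cst 1) (.shr (t (m + 1)) (.var m))))

theorem Val.sizeB {w : List Sym} {n : ℕ} {e : ℕ → ℕ} {t : ℕ → Tm} {v : ℕ}
    (h : Val w n e t v) : Val w n e (sizeB t) (Nat.size v) := by
  intro m hm e' he'
  replace h : Val w m e' t v := h.mono hm he'
  rw [Helper69.sizeB, Tm.eval, h.here]
  simp only [Tm.eval, h.upd, Function.update_self]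
  have h1 : ∀ x, (1 - (1 - v / 2 ^ x)) = if x < Nat.size v then 1 else 0 := by
    intro x
    by_cases h2 : x < Nat.size v
    · rw [if_pos h2]
      rw [Nat.lt_size] at h2
      have := Nat.div_pos h2 (by positivity)
      omega
    · rw [if_neg h2]
      rw [Nat.lt_size] at h2
      rw [Nat.div_eq_of_lt (by omega)]
  simp only [h1]
  rw [← Finset.sum_filter]
  have h2 : Finset.filter (fun x => x < Nat.size v) (range v) = range (Nat.size v) := by
    ext x
    simp only [Finset.mem_filter, Finset.mem_range]
    have : Nat.size v ≤ v := by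
      rw [Nat.size_le]
      exact Nat.lt_two_pow_self
    omega
  rw [h2]
  simp

/-- Binary encoding of a number, least significant digit first, with a terminating separator. -/
def encNat (a : ℕ) : List Sym := (Nat.bits a).map some ++ [none]

theorem bits_eq (v : ℕ) : Nat.bits v = (List.range (Nat.size v)).map v.testBit := by
  apply List.ext_getElem
  · simp [Nat.size_eq_bits_len]
  · intro i h1 h2
    rw [List.getElem_map, List.getElem_range, Nat.testBit_eq_inth, List.getI_eq_getElem _ h1]

/-- Emit the binary encoding of `t`, for use at level `n`. -/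
def emitNat (n : ℕ) (t : ℕ → Tm) : Em :=
  .seq (.loop (sizeB t n)
    (.ite (bitT (t (n + 1)) (.var n)) (.emit (some true)) (.emit (some false))))
    (.emit none)

theorem run_emitNat {w : List Sym} {n : ℕ} {e : ℕ → ℕ} {t : ℕ → Tm} {v : ℕ}
    (h : Val w n e t v) : (emitNat n t).run w n e = encNat v := by
  rw [emitNat, Em.run, Em.run, Em.run, h.sizeB.here, encNat, bits_eq]
  congr 1
  rw [List.map_map, ← List.flatMap_pure_eq_map]
  apply List.flatMap_congr
  intro x _
  have h1 := tr_bit (w := w) (n := n + 1) (e := Function.update e n x) (a := t (n + 1))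
    (b := .var n)
  rw [h.upd, Tm.eval, Function.update_self] at h1
  rw [Em.run]
  by_cases h2 : v.testBit x = true
  · have h3 := h1.mpr h2
    rw [tr] at h3
    rw [if_neg h3]
    simp [Em.run, h2]
  · have h3 := (not_congr h1).mpr h2
    rw [tr, not_not] at h3
    rw [if_pos h3]
    simp [Em.run, h2]

/-- Bind a number to the variable `n`, for use at level `n`. -/
def letE (n : ℕ) (t : ℕ → Tm) (p : Em) : Em :=
  .loop (.add (t n) (.cst 1)) (.ite (eqT (.var n) (t (n + 1))) p .skip)

theorem run_letE {w : List Sym} {n : ℕ} {e : ℕ → ℕ} {t : ℕ → Tm} {p : Em} {v : ℕ}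
    (h : Val w n e t v) :
    (letE n t p).run w n e = p.run w (n + 1) (Function.update e n v) := by
  rw [letE, Em.run]
  simp only [Tm.eval, h.here]
  have h1 : ∀ x, (Em.ite (eqT (.var n) (t (n + 1))) p .skip).run w (n + 1)
      (Function.update e n x) = if x = v then p.run w (n + 1) (Function.update e n v) else [] := by
    intro x
    have h2 := tr_eq (w := w) (n := n + 1) (e := Function.update e n x) (a := .var n)
      (b := t (n + 1))
    rw [h.upd, Tm.eval, Function.update_self, tr] at h2
    rw [Em.run]
    by_cases hx : x = v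
    · rw [if_neg (h2.mpr hx), if_pos hx, hx]
    · have h3 := (not_congr h2).mpr hx
      rw [not_not] at h3
      rw [if_pos h3, if_neg hx, Em.run]
  simp only [h1]
  rw [List.range_succ, List.flatMap_append]
  have h2 : (List.range v).flatMap (fun x => if x = v then
      p.run w (n + 1) (Function.update e n v) else []) = [] := by
    rw [List.flatMap_eq_nil_iff]
    intro x hx
    rw [List.mem_range] at hx
    rw [if_neg (by omega)]
  rw [h2]
  simp

/-- The encoding of the number `x` stands in the input at position `off`. -/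
def matchB (x off : ℕ → Tm) : ℕ → Tm := fun m =>
  andT (.sym none (.add (off m) (sizeB x m)))
    (notT (exT (sizeB x m) (notT (iteT (bitT (x (m + 1)) (.var m))
      (.sym (some true) (.add (off (m + 1)) (.var m)))
      (.sym (some false) (.add (off (m + 1)) (.var m)))))))

theorem tr_matchB {w : List Sym} {n : ℕ} {e : ℕ → ℕ} {x off : ℕ → Tm} {v o : ℕ}
    (h : Val w n e x v) (ho : Val w n e off o) :
    tr w n e (matchB x off n) ↔ ∃ l, w.drop o = encNat v ++ l := by
  have h1 : tr w n e (matchB x off n) ↔ w[o + Nat.size v]? = some none ∧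
      ∀ j < Nat.size v, w[o + j]? = some (some (v.testBit j)) := by
    rw [matchB, tr_and, tr_sym, Tm.eval, ho.here, h.sizeB.here, tr_not, tr_ex, h.sizeB.here]
    refine and_congr_right fun _ => ?_
    simp only [not_exists, not_and, tr_not, not_not]
    refine forall_congr' fun j => imp_congr_right fun hj => ?_
    have e1 : tr w (n + 1) (Function.update e n j) (iteT (bitT (x (n + 1)) (.var n))
      (.sym (some true) (.add (off (n + 1)) (.var n)))
      (.sym (some false) (.add (off (n + 1)) (.var n)))) ↔
      if v.testBit j = true then w[o + j]? = some (some true) else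
        w[o + j]? = some (some false) := by
      have h2 := tr_bit (w := w) (n := n + 1) (e := Function.update e n j) (a := x (n + 1))
        (b := .var n)
      rw [h.upd, Tm.eval, Function.update_self] at h2
      have h3 : ∀ b, tr w (n + 1) (Function.update e n j) (.sym (some b)
          (.add (off (n + 1)) (.var n))) ↔ w[o + j]? = some (some b) := by
        intro b
        rw [tr_sym, Tm.eval, ho.upd, Tm.eval, Function.update_self]
      rw [tr, eval_iteT]
      by_cases h4 : v.testBit j = true
      · rw [if_pos (h2.mpr h4), if_pos h4]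
        exact h3 true
      · rw [if_neg ((not_congr h2).mpr h4), if_neg h4]
        exact h3 false
    rw [e1]
    cases v.testBit j <;> simp
  rw [h1]
  constructor
  · rintro ⟨h2, h3⟩
    refine ⟨w.drop (o + Nat.size v + 1), ?_⟩
    have hlen : o + Nat.size v < w.length := by
      by_contra hcon
      rw [List.getElem?_eq_none (by omega)] at h2
      simp at h2
    apply List.ext_getElem?
    intro i
    rw [List.getElem?_drop, encNat, bits_eq]
    rcases lt_trichotomy i (Nat.size v) with hi | hi | hi
    · rw [h3 i hi, List.append_assoc, List.getElem?_append_left (by simpa using hi)]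
      simp [hi]
    · subst hi
      rw [h2, List.append_assoc, List.getElem?_append_right (by simp)]
      simp
    · rw [List.append_assoc, List.getElem?_append_right (by simp; omega)]
      simp only [List.length_map, List.length_range, List.singleton_append]
      obtain ⟨r, hr⟩ : ∃ r, i - Nat.size v = r + 1 := ⟨i - Nat.size v - 1, by omega⟩
      rw [hr, List.getElem?_cons_succ, List.getElem?_drop]
      congr 1
      omega
  · rintro ⟨l, hl⟩
    have h2 : ∀ i, w[o + i]? = (encNat v ++ l)[i]? := by
      intro i
      rw [← hl, List.getElem?_drop]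
    constructor
    · rw [h2, encNat, bits_eq, List.append_assoc, List.getElem?_append_right (by simp)]
      simp
    · intro j hj
      rw [h2, encNat, bits_eq, List.append_assoc, List.getElem?_append_left (by simpa using hj)]
      simp [hj]

theorem encNat_inj {a b : ℕ} {l l' : List Sym} (h : encNat a ++ l = encNat b ++ l') :
    a = b ∧ l = l' := by
  have key : ∀ (x y : List Bool) (l l' : List Sym),
      x.map some ++ [none] ++ l = y.map some ++ [none] ++ l' → x = y ∧ l = l' := by
    intro x
    induction x with
    | nil =>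
      intro y l l' h
      cases y with
      | nil => simpa using h
      | cons b y => simp at h
    | cons a x ih =>
      intro y l l' h
      cases y with
      | nil => simp at h
      | cons b y =>
        simp only [List.map_cons, List.cons_append, List.cons.injEq, Option.some.injEq] at h
        obtain ⟨h1, h2⟩ := ih y l l' h.2
        exact ⟨by rw [h.1, h1], h2⟩
  obtain ⟨h1, h2⟩ := key _ _ _ _ h
  refine ⟨?_, h2⟩
  have h3 := congrArg (fun l : List Bool => l.foldr (fun b n => Nat.bit b n) 0) h1
  have h4 : ∀ a : ℕ, (Nat.bits a).foldr (fun b n => Nat.bit b n) 0 = a := by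
    intro a
    induction a using Nat.binaryRec' with
    | zero => simp
    | bit b n hb ih =>
      rw [Nat.bits_append_bit n b hb, List.foldr_cons, ih]
  rw [h4, h4] at h3
  exact h3

/-- The least possible parse: the number `x < bound` encoded at `off`, or `bound`. -/
def parseB (bound off : ℕ → Tm) : ℕ → Tm := fun m =>
  .add (.sum (bound m) (iteT (matchB (fun _ => .var m) off (m + 1)) (.var m) (.cst 0)))
    (iteT (exT (bound m) (matchB (fun _ => .var m) off (m + 1))) (.cst 0) (bound m))

theorem Val.parseB {w : List Sym} {n : ℕ} {e : ℕ → ℕ} {bound off : ℕ → Tm} {N o a : ℕ}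
    {l : List Sym} (hb : Val w n e bound N) (ho : Val w n e off o)
    (hw : w.drop o = encNat a ++ l) : Val w n e (parseB bound off) (min a N) := by
  intro m hm e' he'
  replace hb : Val w m e' bound N := hb.mono hm he'
  replace ho : Val w m e' off o := ho.mono hm he'
  have h1 : ∀ x, tr w (m + 1) (Function.update e' m x) (matchB (fun _ => .var m) off (m + 1)) ↔
      x = a := by
    intro x
    rw [tr_matchB (v := x) (o := o)]
    · constructor
      · rintro ⟨l', hl'⟩
        rw [hw] at hl'
        exact (encNat_inj hl').1.symm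
      · rintro rfl
        exact ⟨l, hw⟩
    · intro m' hm' e'' he''
      simp only [Tm.eval]
      rw [he'' m (by omega), Function.update_self]
    · exact ho.mono (by omega) fun i hi => by rw [Function.update_of_ne (by omega)]
  rw [Helper69.parseB, Tm.eval, Tm.eval, hb.here, eval_iteT, tr_ex, hb.here]
  simp only [eval_iteT, h1, Tm.eval, Function.update_self]
  by_cases haN : a < N
  · have h2 : ∃ x < N, x = a := ⟨a, haN, rfl⟩
    rw [if_pos h2, Finset.sum_ite_eq' (range N) a]
    rw [if_pos (by simpa using haN)]
    omega
  · have h2 : ¬ ∃ x < N, x = a := by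
      rintro ⟨x, hx, rfl⟩
      exact haN hx
    rw [if_neg h2, Finset.sum_ite_eq' (range N) a]
    rw [if_neg (by simpa using haN)]
    omega

end Pool.Agent.Helper69
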