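import Mathlib
import Pool.Agent.Helper69.Terms

/-!
# The adjacency formula of the constructed graph
-/

namespace Pool.Agent.Helper69.Form

open Helper69

/-- variable -/
abbrev v (i : ℕ) : Tm := .var i
/-- constant -/
abbrev c (k : ℕ) : Tm := .cst k
/-- sum -/
abbrev ad (a b : Tm) : Tm := .add a b
/-- product -/
abbrev ml (a b : Tm) : Tm := .mul a b

/-- number of a rail vertex -/
def cd (sd h g q s p : ℕ) : ℕ := 2 + Nat.pair sd (Nat.pair (Nat.pair h (Nat.pair g (Nat.pair q s))) p)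

/-- term for `cd` -/
def cdT (sd h g q s p : Tm) : Tm := ad (c 2) (pairT sd (pairT (pairT h (pairT g (pairT q s))) p))

@[simp] theorem eval_cdT {w : List Sym} {n : ℕ} {e : ℕ → ℕ} {sd h g q s p : Tm} :
    (cdT sd h g q s p).eval w n e = cd (sd.eval w n e) (h.eval w n e) (g.eval w n e)
      (q.eval w n e) (s.eval w n e) (p.eval w n e) := by
  simp [cdT, cd, Tm.eval]

/-- `n * n` -/
def nn : Tm := ml (v 0) (v 0)

/-- number of a point of a thread -/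
def ps (x y l k q : ℕ) : ℕ :=
  if q = 0 then 2 * x else if q = l then 2 * y else
    2 * Nat.pair x (Nat.pair y (Nat.pair l (Nat.pair k q))) + 1

/-- term for `ps` -/
def psT (x y l k q : Tm) : Tm :=
  iteT (eqT q (c 0)) (ml (c 2) x) (iteT (eqT q l) (ml (c 2) y)
    (ad (ml (c 2) (pairT x (pairT y (pairT l (pairT k q))))) (c 1)))

@[simp] theorem eval_psT {w : List Sym} {n : ℕ} {e : ℕ → ℕ} {x y l k q : Tm} :
    (psT x y l k q).eval w n e = ps (x.eval w n e) (y.eval w n e) (l.eval w n e)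
      (k.eval w n e) (q.eval w n e) := by
  simp [psT, ps, Tm.eval]

/-- adjacency in the input graph -/
def inT (a b : Tm) : Tm := .sym (some true) (ad (.sub .len nn) (ad (ml a (v 0)) b))

/-- adjacency in the input graph, read off the input word -/
def inN (w : List Sym) (n a b : ℕ) : Prop := w[w.length - n * n + (a * n + b)]? = some (some true)

@[simp] theorem tr_inT {w : List Sym} {n : ℕ} {e : ℕ → ℕ} {a b : Tm} :
    tr w n e (inT a b) ↔ inN w (e 0) (a.eval w n e) (b.eval w n e) := by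
  simp [inT, inN, tr_sym, Tm.eval, nn]

open Classical in
/-- extra cost of a bypass -/
noncomputable def ct (A : ℕ → ℕ → Prop) (n sd h g q s a b : ℕ) : ℕ :=
  if sd = 0 ∨ (h = g ∧ a = b) ∨ (¬ h = g ∧ A a b) then
    n + 3 + (if sd = s then (if sd = 0 ∨ q = 0 then a else b)
      else n - (if sd = 0 ∨ q = 0 then a else b))
  else n + 2

/-- term for `ct` -/
def ctT (sd h g q s a b : Tm) : Tm :=
  iteT (orT (eqT sd (c 0)) (orT (andT (eqT h g) (eqT a b)) (andT (notT (eqT h g)) (inT a b))))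
    (ad (ad (v 0) (c 3)) (iteT (eqT sd s) (iteT (orT (eqT sd (c 0)) (eqT q (c 0))) a b)
      (.sub (v 0) (iteT (orT (eqT sd (c 0)) (eqT q (c 0))) a b))))
    (ad (v 0) (c 2))

open Classical in
@[simp] theorem eval_ctT {w : List Sym} {n : ℕ} {e : ℕ → ℕ} {sd h g q s a b : Tm} :
    (ctT sd h g q s a b).eval w n e = ct (inN w (e 0)) (e 0) (sd.eval w n e) (h.eval w n e)
      (g.eval w n e) (q.eval w n e) (s.eval w n e) (a.eval w n e) (b.eval w n e) := by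
  simp [ctT, ct, Tm.eval]

/-- same variable -/
def sv (sd h g q h' g' q' : ℕ) : Prop :=
  (sd = 0 ∧ h = h') ∨ (sd = 1 ∧
    (if q = 0 then h else g) = (if q' = 0 then h' else g') ∧
    (if q = 0 then g else h) = (if q' = 0 then g' else h'))

/-- formula for `sv` -/
def svT (sd h g q h' g' q' : Tm) : Tm :=
  orT (andT (eqT sd (c 0)) (eqT h h')) (andT (eqT sd (c 1))
    (andT (eqT (iteT (eqT q (c 0)) h g) (iteT (eqT q' (c 0)) h' g'))
      (eqT (iteT (eqT q (c 0)) g h) (iteT (eqT q' (c 0)) g' h'))))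

@[simp] theorem tr_svT {w : List Sym} {n : ℕ} {e : ℕ → ℕ} {sd h g q h' g' q' : Tm} :
    tr w n e (svT sd h g q h' g' q') ↔ sv (sd.eval w n e) (h.eval w n e) (g.eval w n e)
      (q.eval w n e) (h'.eval w n e) (g'.eval w n e) (q'.eval w n e) := by
  simp [svT, sv, Tm.eval]

/-- `x = a`, `y = b` and `l = d` for the variables `4`, `5`, `6` -/
def eq3 (a b d : Tm) : Tm := andT (eqT (v 4) a) (andT (eqT (v 5) b) (eqT (v 6) d))

/-- length of the long threads -/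
def lg : Tm := ad (ad (ad nn (ad (v 0) (c 3))) (v 0)) (c 4)

/-- Threads other than bypasses and rungs, at level 13. -/
def th1T : Tm :=
  orT (eq3 (c 0) (cdT (c 0) (v 9) (v 10) (v 11) (v 12) (c 0)) (c 2))
  (orT (eq3 (c 0) (cdT (c 1) (v 9) (v 10) (v 11) (v 12) (c 0)) lg)
  (orT (eq3 (cdT (c 0) (v 9) (v 10) (v 11) (v 12) nn) (c 1) lg)
  (orT (eq3 (cdT (c 1) (v 9) (v 10) (v 11) (v 12) nn) (c 1) (c 2))
    (eq3 (cdT (c 0) (v 9) (v 10) (v 11) (v 12) nn) (cdT (c 1) (v 9) (v 10) (v 11) (v 12) (c 0))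
      (c 2)))))

/-- numeric version of `th1T` -/
def th1 (n x y l h g q s : ℕ) : Prop :=
  (x = 0 ∧ y = cd 0 h g q s 0 ∧ l = 2) ∨
  (x = 0 ∧ y = cd 1 h g q s 0 ∧ l = n * n + (n + 3) + n + 4) ∨
  (x = cd 0 h g q s (n * n) ∧ y = 1 ∧ l = n * n + (n + 3) + n + 4) ∨
  (x = cd 1 h g q s (n * n) ∧ y = 1 ∧ l = 2) ∨
  (x = cd 0 h g q s (n * n) ∧ y = cd 1 h g q s 0 ∧ l = 2)

theorem tr_th1T {w : List Sym} {n : ℕ} {e : ℕ → ℕ} :
    tr w n e th1T ↔ th1 (e 0) (e 4) (e 5) (e 6) (e 9) (e 10) (e 11) (e 12) := by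
  simp [th1T, th1, eq3, lg, nn, Tm.eval]

/-- Bypasses, at level 13. -/
def th2T : Tm :=
  exT (c 2) (exT (v 0) (exT (v 0)
    (eq3 (cdT (v 13) (v 9) (v 10) (v 11) (v 12) (ad (ml (v 14) (v 0)) (v 15)))
      (cdT (v 13) (v 9) (v 10) (v 11) (v 12) (ad (ad (ml (v 14) (v 0)) (v 15)) (c 1)))
      (ad (ctT (v 13) (v 9) (v 10) (v 11) (v 12) (v 14) (v 15)) (c 1)))))

/-- numeric version of `th2T` -/
def th2 (A : ℕ → ℕ → Prop) (n x y l h g q s : ℕ) : Prop :=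
  ∃ sd < 2, ∃ a < n, ∃ b < n, x = cd sd h g q s (a * n + b) ∧ y = cd sd h g q s (a * n + b + 1) ∧
    l = ct A n sd h g q s a b + 1

theorem tr_th2T {w : List Sym} {e : ℕ → ℕ} :
    tr w 13 e th2T ↔ th2 (inN w (e 0)) (e 0) (e 4) (e 5) (e 6) (e 9) (e 10) (e 11) (e 12) := by
  simp [th2T, th2, eq3, Tm.eval]

/-- Rungs, at level 13. -/
def th3T : Tm :=
  exT (c 2) (exT (v 1) (exT (v 1) (exT (c 2) (exT (c 2) (exT (ad nn (c 1))
    (andT (svT (v 13) (v 9) (v 10) (v 11) (v 14) (v 15) (v 16))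
      (eq3 (cdT (v 13) (v 9) (v 10) (v 11) (v 12) (v 18))
        (cdT (v 13) (v 14) (v 15) (v 16) (v 17) (v 18)) (ad (v 0) (c 2)))))))))

/-- numeric version of `th3T` -/
def th3 (n K x y l h g q s : ℕ) : Prop :=
  ∃ sd < 2, ∃ h' < K, ∃ g' < K, ∃ q' < 2, ∃ s' < 2, ∃ p < n * n + 1, sv sd h g q h' g' q' ∧
    x = cd sd h g q s p ∧ y = cd sd h' g' q' s' p ∧ l = n + 2

theorem tr_th3T {w : List Sym} {e : ℕ → ℕ} :
    tr w 13 e th3T ↔ th3 (e 0) (e 1) (e 4) (e 5) (e 6) (e 9) (e 10) (e 11) (e 12) := by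
  simp [th3T, th3, eq3, nn, Tm.eval]

/-- Threads, at level 9. -/
def thT : Tm :=
  exT (v 1) (exT (v 1) (exT (c 2) (exT (c 2) (orT th1T (orT th2T th3T)))))

/-- numeric version of `thT` -/
def th (A : ℕ → ℕ → Prop) (n K x y l : ℕ) : Prop :=
  ∃ h < K, ∃ g < K, ∃ q < 2, ∃ s < 2, th1 n x y l h g q s ∨ th2 A n x y l h g q s ∨
    th3 n K x y l h g q s

theorem tr_thT {w : List Sym} {e : ℕ → ℕ} :
    tr w 9 e thT ↔ th (inN w (e 0)) (e 0) (e 1) (e 4) (e 5) (e 6) := by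
  simp [thT, th, Tm.eval, tr_th1T, tr_th2T, tr_th3T]

/-- the size parameter -/
def zT : Tm := ad (ad (ml (ad (v 0) (c 4)) (ad (v 0) (c 4))) (ml (c 8) (ml (v 1) (v 1)))) (c 10)

/-- the size parameter -/
def zz (n K : ℕ) : ℕ := (n + 4) * (n + 4) + 8 * (K * K) + 10

@[simp] theorem eval_zT {w : List Sym} {n : ℕ} {e : ℕ → ℕ} : zT.eval w n e = zz (e 0) (e 1) := by
  simp [zT, zz, Tm.eval]

/-- Edges, at level 4; `a` and `b` are the numbers of the variables holding the ends. -/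
def edT (a b : ℕ) : Tm :=
  orT (exT (c 2) (exT (v 1) (exT (v 1) (exT (c 2) (exT (c 2) (exT nn
    (andT (eqT (v a) (ml (c 2) (cdT (v 4) (v 5) (v 6) (v 7) (v 8) (v 9))))
      (eqT (v b) (ml (c 2) (cdT (v 4) (v 5) (v 6) (v 7) (v 8) (ad (v 9) (c 1))))))))))))
  (exT (powT zT 6) (exT (powT zT 6) (exT zT (exT (ad (ml (c 8) (ml (v 1) (v 1))) (c 1))
    (exT (v 6) (andT thT (andT (eqT (v a) (psT (v 4) (v 5) (v 6) (v 7) (v 8)))
      (eqT (v b) (psT (v 4) (v 5) (v 6) (v 7) (ad (v 8) (c 1)))))))))))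

/-- numeric version of `edT` -/
def ed (A : ℕ → ℕ → Prop) (n K a b : ℕ) : Prop :=
  (∃ sd < 2, ∃ h < K, ∃ g < K, ∃ q < 2, ∃ s < 2, ∃ p < n * n,
    a = 2 * cd sd h g q s p ∧ b = 2 * cd sd h g q s (p + 1)) ∨
  (∃ x < zz n K ^ 64, ∃ y < zz n K ^ 64, ∃ l < zz n K, ∃ k < 8 * (K * K) + 1, ∃ q < l,
    th A n K x y l ∧ a = ps x y l k q ∧ b = ps x y l k (q + 1))

theorem tr_edT {w : List Sym} {e : ℕ → ℕ} {a b : ℕ} (ha : a < 4) (hb : b < 4) :
    tr w 4 e (edT a b) ↔ ed (inN w (e 0)) (e 0) (e 1) (e a) (e b) := by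
  have ha' : ∀ i, 4 ≤ i → a ≠ i := by intro i hi; omega
  have hb' : ∀ i, 4 ≤ i → b ≠ i := by intro i hi; omega
  simp [edT, ed, nn, Tm.eval, tr_thT, ha', hb']

end Pool.Agent.Helper69.Form
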