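import Mathlib

/-!
# Transferring a length bounded cut problem to a graph on `Fin N`
-/

namespace Pool.Agent.Helper69

open SimpleGraph

/-- The graph on `Fin N` obtained from the relation `E` on `U` by numbering the vertices. -/
def numGraph {U : Type} (N : ℕ) (code : U → ℕ) (E : U → U → Prop) : SimpleGraph (Fin N) :=
  SimpleGraph.fromRel fun u v => ∃ a b, E a b ∧ code a = u.1 ∧ code b = v.1

theorem transfer {U : Type} (N : ℕ) (code : U → ℕ) (hinj : Function.Injective code)
    (E : U → U → Prop) (hE : ∀ a b, E a b → code a < N ∧ code b < N) (s t : U)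
    (hs : code s < N) (ht : code t < N) (k l : ℕ) :
    (∃ S : Finset (Sym2 (Fin N)), (↑S : Set (Sym2 (Fin N))) ⊆ (numGraph N code E).edgeSet ∧
      S.card ≤ k ∧ ∀ p : ((numGraph N code E).deleteEdges ↑S).Walk ⟨code s, hs⟩ ⟨code t, ht⟩,
        l ≤ p.length) ↔
    (∃ S : Finset (Sym2 U), (↑S : Set (Sym2 U)) ⊆ (SimpleGraph.fromRel E).edgeSet ∧
      S.card ≤ k ∧ ∀ p : ((SimpleGraph.fromRel E).deleteEdges ↑S).Walk s t, l ≤ p.length) := by
  classical
  have hN : 0 < N := by omega
  set f : U → Fin N := fun a => if h : code a < N then ⟨code a, h⟩ else ⟨0, hN⟩ with hf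
  have hfv : ∀ a, (h : code a < N) → f a = ⟨code a, h⟩ := by
    intro a h
    simp [hf, h]
  have hfi : ∀ a b, code a < N → code b < N → f a = f b → a = b := by
    intro a b ha hb hab
    rw [hfv a ha, hfv b hb, Fin.mk.injEq] at hab
    exact hinj hab
  have hadj : ∀ a b, (SimpleGraph.fromRel E).Adj a b → code a < N ∧ code b < N := by
    intro a b hab
    rw [SimpleGraph.fromRel_adj] at hab
    rcases hab.2 with h | h
    · exact hE _ _ h
    · exact (hE _ _ h).symm
  have hadj2 : ∀ a b, (SimpleGraph.fromRel E).Adj a b → (numGraph N code E).Adj (f a) (f b) := by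
    intro a b hab
    obtain ⟨ha, hb⟩ := hadj a b hab
    rw [SimpleGraph.fromRel_adj] at hab
    rw [numGraph, SimpleGraph.fromRel_adj]
    refine ⟨fun h => hab.1 (hfi a b ha hb h), ?_⟩
    rw [hfv a ha, hfv b hb]
    rcases hab.2 with h | h
    · exact Or.inl ⟨a, b, h, rfl, rfl⟩
    · exact Or.inr ⟨b, a, h, rfl, rfl⟩
  constructor
  · rintro ⟨S, -, hcard, hS⟩
    -- edges of the abstract graph which are deleted
    set D : Set (Sym2 U) := {e | e ∈ (SimpleGraph.fromRel E).edgeSet ∧ e.map f ∈ S} with hD
    have hDinj : Set.InjOn (Sym2.map f) D := by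
      intro e he e' he' hee
      induction e using Sym2.ind with | _ a b => ?_
      induction e' using Sym2.ind with | _ a' b' => ?_
      have h1 := hadj a b he.1
      have h2 := hadj a' b' he'.1
      rw [Sym2.map_mk, Sym2.map_mk, Sym2.eq_iff] at hee
      rw [Sym2.eq_iff]
      rcases hee with ⟨h3, h4⟩ | ⟨h3, h4⟩
      · exact Or.inl ⟨hfi _ _ h1.1 h2.1 h3, hfi _ _ h1.2 h2.2 h4⟩
      · exact Or.inr ⟨hfi _ _ h1.1 h2.2 h3, hfi _ _ h1.2 h2.1 h4⟩
    have hDfin : D.Finite := by
      refine Set.Finite.of_finite_image (f := Sym2.map f) (S.finite_toSet.subset ?_) hDinj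
      rintro _ ⟨e, he, rfl⟩
      exact he.2
    refine ⟨hDfin.toFinset, ?_, ?_, ?_⟩
    · intro e he
      rw [Finset.mem_coe, Set.Finite.mem_toFinset] at he
      exact he.1
    · refine le_trans ?_ hcard
      refine Finset.card_le_card_of_injOn (Sym2.map f) ?_ ?_
      · intro e he
        rw [Finset.mem_coe, Set.Finite.mem_toFinset] at he
        exact he.2
      · intro e he e' he'
        rw [Finset.mem_coe, Set.Finite.mem_toFinset] at he he'
        exact hDinj he he'
    · intro p
      let φ : ((SimpleGraph.fromRel E).deleteEdges ↑hDfin.toFinset) →g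
          ((numGraph N code E).deleteEdges ↑S) :=
        { toFun := f
          map_rel' := by
            intro a b hab
            rw [SimpleGraph.deleteEdges_adj] at hab ⊢
            refine ⟨hadj2 a b hab.1, fun h => hab.2 ?_⟩
            rw [Finset.mem_coe, Set.Finite.mem_toFinset]
            exact ⟨hab.1, h⟩ }
      have h1 := hS (((p.map φ).copy (hfv s hs) (hfv t ht)))
      simpa using h1
  · rintro ⟨S, hSE, hcard, hS⟩
    refine ⟨S.image (Sym2.map f), ?_, Finset.card_image_le.trans hcard, ?_⟩
    · intro e he
      rw [Finset.mem_coe, Finset.mem_image] at he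
      obtain ⟨e', he', rfl⟩ := he
      have h1 := hSE he'
      induction e' using Sym2.ind with | _ a b => ?_
      rw [Sym2.map_mk, SimpleGraph.mem_edgeSet]
      exact hadj2 a b h1
    · have key : ∀ (u v : Fin N) (p : ((numGraph N code E).deleteEdges
          ↑(S.image (Sym2.map f))).Walk u v) (a : U), (ha : code a < N) → u = f a →
          ∃ b, code b < N ∧ v = f b ∧
            ∃ q : ((SimpleGraph.fromRel E).deleteEdges ↑S).Walk a b, q.length = p.length := by
        intro u v p
        induction p with
        | nil =>
          intro a ha hu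
          exact ⟨a, ha, hu, .nil, rfl⟩
        | @cons u v w h p ih =>
          intro a ha hu
          rw [SimpleGraph.deleteEdges_adj, numGraph, SimpleGraph.fromRel_adj] at h
          obtain ⟨⟨hne, h1⟩, h2⟩ := h
          have h3 : ∃ b, code b < N ∧ v = f b ∧ (SimpleGraph.fromRel E).Adj a b := by
            rw [hu, hfv a ha] at h1
            rcases h1 with ⟨a', b', hab, ha', hb'⟩ | ⟨b', a', hab, hb', ha'⟩
            · have := hinj ha'
              subst this
              obtain ⟨h4, h5⟩ := hE _ _ hab
              refine ⟨b', h5, ?_, ?_⟩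
              · rw [hfv b' h5]
                exact Fin.ext hb'.symm
              · rw [SimpleGraph.fromRel_adj]
                refine ⟨?_, Or.inl hab⟩
                intro h
                apply hne
                rw [hu, h, hfv b' h5]
                exact Fin.ext hb'
            · have := hinj ha'
              subst this
              obtain ⟨h4, h5⟩ := hE _ _ hab
              refine ⟨b', h4, ?_, ?_⟩
              · rw [hfv b' h4]
                exact Fin.ext hb'.symm
              · rw [SimpleGraph.fromRel_adj]
                refine ⟨?_, Or.inr hab⟩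
                intro h
                apply hne
                rw [hu, h, hfv b' h4]
                exact Fin.ext hb'
          obtain ⟨b, hb, hvb, hab⟩ := h3
          obtain ⟨c, hc, hwc, q, hq⟩ := ih b hb hvb
          have hab' : ((SimpleGraph.fromRel E).deleteEdges ↑S).Adj a b := by
            rw [SimpleGraph.deleteEdges_adj]
            refine ⟨hab, fun h => h2 ?_⟩
            rw [Finset.mem_coe, Finset.mem_image]
            exact ⟨s(a, b), h, by rw [Sym2.map_mk, hu, hvb]⟩
          exact ⟨c, hc, hwc, .cons hab' q, by simp [hq]⟩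
      intro p
      obtain ⟨b, hb, htb, q, hq⟩ := key _ _ p s hs (hfv s hs).symm
      have : b = t := hfi b t hb ht (by rw [← htb, hfv t ht])
      subst this
      rw [← hq]
      exact hS q

end Pool.Agent.Helper69
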