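import Mathlib
import Pool.Agent.Helper69.Form
import Pool.Agent.Helper69.CliqueSys
import Pool.Agent.Helper69.Transfer

/-!
# Numbering the vertices of the constructed graph
-/

namespace Pool.Agent.Helper69.Num

open Helper69 Form Rails

/-- Number of a node. -/
def cN {K : ℕ} : Nd (Ct K) → ℕ
  | .s => 0
  | .t => 1
  | .v sd c p => cd sd.toNat c.1 c.2.1 c.2.2.1.toNat c.2.2.2.toNat p

theorem toNat_inj {a b : Bool} (h : a.toNat = b.toNat) : a = b := by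
  cases a <;> cases b <;> simp_all

theorem cN_inj {K : ℕ} : Function.Injective (cN (K := K)) := by
  intro x y h
  cases x <;> cases y <;> simp only [cN, cd, reduceCtorEq] at h ⊢ <;> try omega
  simp only [Nat.add_left_cancel_iff, Nat.pair_eq_pair] at h
  obtain ⟨h1, ⟨h2, h3, h4, h5⟩, h6⟩ := h
  rw [toNat_inj h1, h6]
  congr 1
  refine Prod.ext (Fin.ext h2) (Prod.ext (Fin.ext h3) (Prod.ext (toNat_inj h4) (toNat_inj h5)))

/-- Number of a vertex. -/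
def cU {K : ℕ} : U (Ct K) → ℕ
  | .inl x => 2 * cN x
  | .inr (x, y, l, k, q) => 2 * Nat.pair (cN x) (Nat.pair (cN y) (Nat.pair l (Nat.pair k q))) + 1

theorem cU_inj {K : ℕ} : Function.Injective (cU (K := K)) := by
  intro x y h
  rcases x with x | ⟨x, x2, l, k, q⟩ <;> rcases y with y | ⟨y, y2, l', k', q'⟩ <;>
    simp only [cU] at h
  · rw [cN_inj (by omega : cN x = cN y)]
  · omega
  · omega
  · have h1 : Nat.pair (cN x) (Nat.pair (cN x2) (Nat.pair l (Nat.pair k q))) =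
      Nat.pair (cN y) (Nat.pair (cN y2) (Nat.pair l' (Nat.pair k' q'))) := by omega
    simp only [Nat.pair_eq_pair] at h1
    obtain ⟨h1, h2, h3, h4, h5⟩ := h1
    rw [cN_inj h1, cN_inj h2, h3, h4, h5]

theorem cU_pos {K : ℕ} (x y : Nd (Ct K)) (l k q : ℕ) :
    cU (pos x y l k q) = ps (cN x) (cN y) l k q := by
  unfold pos ps
  split_ifs <;> simp [cU]

theorem pair_lt {a b z : ℕ} (ha : a < z) (hb : b < z) : Nat.pair a b < z ^ 2 :=
  (Nat.pair_lt_max_add_one_sq a b).trans_le (Nat.pow_le_pow_left (by omega) 2)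

theorem toNat_lt (b : Bool) : b.toNat < 2 := by cases b <;> simp

theorem zz_ge (n K : ℕ) : 10 ≤ zz n K ∧ n * n + (n + 3) + n + 4 < zz n K ∧
    8 * (K * K) + 1 ≤ zz n K ∧ K ≤ zz n K := by
  unfold zz
  have : K ≤ K * K := by nlinarith
  refine ⟨by omega, by nlinarith, by omega, by nlinarith⟩

theorem pw {z : ℕ} (hz : 10 ≤ z) {a b : ℕ} (h : a ≤ b) : z ^ a ≤ z ^ b :=
  Nat.pow_le_pow_right (by omega) h

theorem cN_lt {n K : ℕ} (x : Nd (Ct K)) (h : ∀ sd c p, x = .v sd c p → p ≤ n * n) :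
    cN x < zz n K ^ 64 := by
  obtain ⟨h1, h2, h3, h4⟩ := zz_ge n K
  generalize zz n K = z at *
  have e1 : z ^ 1 ≤ z ^ 64 := pw h1 (by omega)
  rw [pow_one] at e1
  cases x with
  | s => simp only [cN]; omega
  | t => simp only [cN]; omega
  | v sd c p =>
    have hp := h sd c p rfl
    simp only [cN, cd]
    have a1 : Nat.pair c.2.2.1.toNat c.2.2.2.toNat < z ^ 2 := by
      refine pair_lt ?_ ?_
      · have := toNat_lt c.2.2.1; omega
      · have := toNat_lt c.2.2.2; omega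
    have b1 := pw h1 (show 1 ≤ 2 by omega)
    rw [pow_one] at b1
    have a2 : Nat.pair c.2.1.1 (Nat.pair c.2.2.1.toNat c.2.2.2.toNat) < (z ^ 2) ^ 2 :=
      pair_lt (by have := c.2.1.2; omega) a1
    rw [← pow_mul] at a2
    have b2 := pw h1 (show 1 ≤ 2 * 2 by omega)
    rw [pow_one] at b2
    have a3 : Nat.pair c.1.1 (Nat.pair c.2.1.1 (Nat.pair c.2.2.1.toNat c.2.2.2.toNat)) <
        (z ^ (2 * 2)) ^ 2 := pair_lt (by have := c.1.2; omega) a2
    rw [← pow_mul] at a3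
    have b3 := pw h1 (show 1 ≤ 2 * 2 * 2 by omega)
    rw [pow_one] at b3
    have a4 : Nat.pair (Nat.pair c.1.1 (Nat.pair c.2.1.1 (Nat.pair c.2.2.1.toNat
        c.2.2.2.toNat))) p < (z ^ (2 * 2 * 2)) ^ 2 := pair_lt a3 (by omega)
    rw [← pow_mul] at a4
    have b4 := pw h1 (show 1 ≤ 2 * 2 * 2 * 2 by omega)
    rw [pow_one] at b4
    have a5 : Nat.pair sd.toNat (Nat.pair (Nat.pair c.1.1 (Nat.pair c.2.1.1
        (Nat.pair c.2.2.1.toNat c.2.2.2.toNat))) p) < (z ^ (2 * 2 * 2 * 2)) ^ 2 :=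
      pair_lt (by have := toNat_lt sd; omega) a4
    rw [← pow_mul] at a5
    have b5 := pw h1 (show 1 ≤ 2 * 2 * 2 * 2 * 2 by omega)
    rw [pow_one] at b5
    have a6 : z ^ 64 = z ^ (2 * 2 * 2 * 2 * 2) * z ^ (2 * 2 * 2 * 2 * 2) := by
      rw [← pow_add]
    rw [a6]
    generalize z ^ (2 * 2 * 2 * 2 * 2) = y at *
    nlinarith

attribute [local irreducible] Form.cd Nat.pair Form.zz

/-- The adjacency relation of a graph on `Fin n` as a relation on numbers. -/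
def AN {n : ℕ} (G : SimpleGraph (Fin n)) (a b : ℕ) : Prop :=
  ∃ x y : Fin n, x.1 = a ∧ y.1 = b ∧ G.Adj x y

theorem ct_eq {n K : ℕ} (G : SimpleGraph (Fin n)) (sd : Bool) (c : Ct K) {a b : ℕ} (ha : a < n)
    (hb : b < n) : ct (AN G) n sd.toNat c.1 c.2.1 c.2.2.1.toNat c.2.2.2.toNat a b =
      cost G sd c (a * n + b) := by
  classical
  have hdiv : (a * n + b) / n = a := by
    rw [Nat.add_div (by omega)]
    simp [Nat.mul_div_cancel _ (by omega : 0 < n), Nat.div_eq_of_lt hb, Nat.mod_eq_of_lt hb, hb]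
  have hmod : (a * n + b) % n = b := by
    rw [Nat.mul_comm, Nat.mul_add_mod, Nat.mod_eq_of_lt hb]
  obtain ⟨h, g, q, s⟩ := c
  have hok : (sd.toNat = 0 ∨ (h.1 = g.1 ∧ a = b) ∨ (¬ h.1 = g.1 ∧ AN G a b)) ↔
      ok G sd (h, g, q, s) (a * n + b) := by
    simp only [ok, hdiv, hmod]
    cases sd with
    | false => simp
    | true =>
      simp only [Bool.toNat_true, one_ne_zero, false_or, reduceCtorEq]
      by_cases hhg : h = g
      · simp [hhg]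
      · have : ¬ h.1 = g.1 := fun h' => hhg (Fin.ext h')
        simp [hhg, this, AN]
  have hrd : (if sd.toNat = 0 ∨ q.toNat = 0 then a else b) = rd n sd q (a * n + b) := by
    simp only [rd, hdiv, hmod]
    cases sd <;> cases q <;> simp
  have hs : (sd.toNat = s.toNat) ↔ sd = s := ⟨toNat_inj, fun h => by rw [h]⟩
  simp only [ct, cost]
  rw [hrd]
  by_cases h1 : ok G sd (h, g, q, s) (a * n + b)
  · rw [if_pos h1, if_pos (hok.mpr h1)]
    by_cases h2 : sd = s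
    · rw [if_pos h2, if_pos (hs.mpr h2)]
    · rw [if_neg h2, if_neg ((not_congr hs).mpr h2)]
  · rw [if_neg h1, if_neg ((not_congr hok).mpr h1)]

theorem ex_bool {q : ℕ} (hq : q < 2) : ∃ b : Bool, b.toNat = q := by
  rcases (by omega : q = 0 ∨ q = 1) with h | h
  · exact ⟨false, by simp [h]⟩
  · exact ⟨true, by simp [h]⟩

theorem sv_iff {K : ℕ} (sd : Bool) (c c' : Ct K) :
    sv sd.toNat c.1 c.2.1 c.2.2.1.toNat c'.1 c'.2.1 c'.2.2.1.toNat ↔ vr sd c = vr sd c' := by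
  obtain ⟨h, g, q, s⟩ := c
  obtain ⟨h', g', q', s'⟩ := c'
  cases sd <;> cases q <;> cases q' <;> simp [sv, vr]

theorem th_iff {n K : ℕ} (G : SimpleGraph (Fin n)) (x y l : ℕ) :
    th (AN G) n K x y l ↔ ∃ a b, Th (csys G K) a b l ∧ cN a = x ∧ cN b = y := by
  constructor
  · rintro ⟨h, hh, g, hg, q, hq, s, hs, H⟩
    obtain ⟨q, rfl⟩ := ex_bool hq
    obtain ⟨s, rfl⟩ := ex_bool hs
    rcases H with H | H | H
    · rcases H with ⟨rfl, rfl, rfl⟩ | ⟨rfl, rfl, rfl⟩ | ⟨rfl, rfl, rfl⟩ | ⟨rfl, rfl, rfl⟩ |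
        ⟨rfl, rfl, rfl⟩
      · exact ⟨_, _, Th.src0 (⟨h, hh⟩, ⟨g, hg⟩, q, s), rfl, rfl⟩
      · exact ⟨_, _, Th.src1 (⟨h, hh⟩, ⟨g, hg⟩, q, s), rfl, rfl⟩
      · exact ⟨_, _, Th.snk0 (⟨h, hh⟩, ⟨g, hg⟩, q, s), rfl, rfl⟩
      · exact ⟨_, _, Th.snk1 (⟨h, hh⟩, ⟨g, hg⟩, q, s), rfl, rfl⟩
      · exact ⟨_, _, Th.chn (⟨h, hh⟩, ⟨g, hg⟩, q, s), rfl, rfl⟩
    · obtain ⟨sd, hsd, a, ha, b, hb, rfl, rfl, rfl⟩ := H
      obtain ⟨sd, rfl⟩ := ex_bool hsd
      have h1 : a * n + b < n * n := by nlinarith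
      have h2 := ct_eq G sd (⟨h, hh⟩, ⟨g, hg⟩, q, s) ha hb
      change ct (AN G) n sd.toNat h g q.toNat s.toNat a b = _ at h2
      rw [h2]
      exact ⟨_, _, Th.byp (Y := csys G K) sd (⟨h, hh⟩, ⟨g, hg⟩, q, s) (a * n + b) h1, rfl, rfl⟩
    · obtain ⟨sd, hsd, h', hh', g', hg', q', hq', s', hs', p, hp, hsv, rfl, rfl, rfl⟩ := H
      obtain ⟨sd, rfl⟩ := ex_bool hsd
      obtain ⟨q', rfl⟩ := ex_bool hq'
      obtain ⟨s', rfl⟩ := ex_bool hs'
      exact ⟨_, _, Th.rng (Y := csys G K) sd (⟨h, hh⟩, ⟨g, hg⟩, q, s)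
        (⟨h', hh'⟩, ⟨g', hg'⟩, q', s') p ((sv_iff sd _ _).mp hsv) (by change p ≤ n * n; omega),
        rfl, rfl⟩
  · rintro ⟨a, b, hth, rfl, rfl⟩
    cases hth with
    | src0 c =>
      exact ⟨c.1, c.1.2, c.2.1, c.2.1.2, _, toNat_lt c.2.2.1, _, toNat_lt c.2.2.2,
        Or.inl (Or.inl ⟨rfl, rfl, rfl⟩)⟩
    | src1 c =>
      exact ⟨c.1, c.1.2, c.2.1, c.2.1.2, _, toNat_lt c.2.2.1, _, toNat_lt c.2.2.2,
        Or.inl (Or.inr (Or.inl ⟨rfl, rfl, rfl⟩))⟩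
    | snk0 c =>
      exact ⟨c.1, c.1.2, c.2.1, c.2.1.2, _, toNat_lt c.2.2.1, _, toNat_lt c.2.2.2,
        Or.inl (Or.inr (Or.inr (Or.inl ⟨rfl, rfl, rfl⟩)))⟩
    | snk1 c =>
      exact ⟨c.1, c.1.2, c.2.1, c.2.1.2, _, toNat_lt c.2.2.1, _, toNat_lt c.2.2.2,
        Or.inl (Or.inr (Or.inr (Or.inr (Or.inl ⟨rfl, rfl, rfl⟩))))⟩
    | byp sd c p hp =>
      change p < n * n at hp
      have hn : 0 < n := Nat.pos_of_ne_zero (by rintro rfl; simp at hp)
      have hpd : p / n * n + p % n = p := Nat.div_add_mod' p n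
      have ha : p / n < n := Nat.div_lt_of_lt_mul hp
      have hb : p % n < n := Nat.mod_lt _ hn
      refine ⟨c.1, c.1.2, c.2.1, c.2.1.2, _, toNat_lt c.2.2.1, _, toNat_lt c.2.2.2,
        Or.inr (Or.inl ⟨sd.toNat, toNat_lt sd, p / n, ha, p % n, hb, ?_, ?_, ?_⟩)⟩
      · rw [hpd]; rfl
      · rw [hpd]; rfl
      · rw [ct_eq G sd c ha hb, hpd]; rfl
    | rng sd c c' p hv hp =>
      change p ≤ n * n at hp
      exact ⟨c.1, c.1.2, c.2.1, c.2.1.2, _, toNat_lt c.2.2.1, _, toNat_lt c.2.2.2,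
        Or.inr (Or.inr ⟨sd.toNat, toNat_lt sd, c'.1, c'.1.2, c'.2.1, c'.2.1.2, _,
          toNat_lt c'.2.2.1, _, toNat_lt c'.2.2.2, p, by omega, (sv_iff sd c c').mpr hv, rfl, rfl,
          rfl⟩)⟩
    | chn c =>
      exact ⟨c.1, c.1.2, c.2.1, c.2.1.2, _, toNat_lt c.2.2.1, _, toNat_lt c.2.2.2,
        Or.inl (Or.inr (Or.inr (Or.inr (Or.inr ⟨rfl, rfl, rfl⟩))))⟩

theorem Th_bound {n K : ℕ} (G : SimpleGraph (Fin n)) {a b : Nd (Ct K)} {l : ℕ}
    (h : Th (csys G K) a b l) : cN a < zz n K ^ 64 ∧ cN b < zz n K ^ 64 ∧ l < zz n K := by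
  obtain ⟨h1, h2, h3, h4⟩ := zz_ge n K
  cases h with
  | src0 c =>
    refine ⟨cN_lt _ ?_, cN_lt _ ?_, by omega⟩
    · intro _ _ _ h; simp at h
    · intro _ _ _ h; simp at h; omega
  | src1 c =>
    refine ⟨cN_lt _ ?_, cN_lt _ ?_, by change n * n + (n + 3) + n + 4 < _; omega⟩
    · intro _ _ _ h; simp at h
    · intro _ _ _ h; simp at h; omega
  | snk0 c =>
    refine ⟨cN_lt _ ?_, cN_lt _ ?_, by change n * n + (n + 3) + n + 4 < _; omega⟩
    · intro _ _ _ h; simp [csys] at h; omega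
    · intro _ _ _ h; simp at h
  | snk1 c =>
    refine ⟨cN_lt _ ?_, cN_lt _ ?_, by omega⟩
    · intro _ _ _ h; simp [csys] at h; omega
    · intro _ _ _ h; simp at h
  | byp sd c p hp =>
    change p < n * n at hp
    have h5 := cost_le G sd c p hp
    have h6 : n ≤ n * n := by nlinarith
    refine ⟨cN_lt _ ?_, cN_lt _ ?_, by change cost G sd c p + 1 < _; omega⟩
    · intro _ _ _ h; simp at h; omega
    · intro _ _ _ h; simp at h; omega
  | rng sd c c' p hv hp =>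
    change p ≤ n * n at hp
    refine ⟨cN_lt _ ?_, cN_lt _ ?_, by change n + 2 < _; omega⟩
    · intro _ _ _ h; simp at h; omega
    · intro _ _ _ h; simp at h; omega
  | chn c =>
    refine ⟨cN_lt _ ?_, cN_lt _ ?_, by omega⟩
    · intro _ _ _ h; simp [csys] at h; omega
    · intro _ _ _ h; simp at h; omega

theorem ed_iff {n K : ℕ} (G : SimpleGraph (Fin n)) (u v : ℕ) :
    ed (AN G) n K u v ↔ ∃ a b, E (csys G K) (8 * (K * K)) a b ∧ cU a = u ∧ cU b = v := by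
  constructor
  · rintro (⟨sd, hsd, h, hh, g, hg, q, hq, s, hs, p, hp, rfl, rfl⟩ |
      ⟨x, hx, y, hy, l, hl, k, hk, q, hq, hth, rfl, rfl⟩)
    · obtain ⟨sd, rfl⟩ := ex_bool hsd
      obtain ⟨q, rfl⟩ := ex_bool hq
      obtain ⟨s, rfl⟩ := ex_bool hs
      exact ⟨_, _, E.rail (Y := csys G K) sd (⟨h, hh⟩, ⟨g, hg⟩, q, s) p hp, rfl, rfl⟩
    · rw [th_iff] at hth
      obtain ⟨a, b, hth, rfl, rfl⟩ := hth
      exact ⟨_, _, E.thr a b l k q hth (by omega) hq, cU_pos _ _ _ _ _, cU_pos _ _ _ _ _⟩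
  · rintro ⟨a, b, hE, rfl, rfl⟩
    cases hE with
    | rail sd c p hp =>
      exact Or.inl ⟨sd.toNat, toNat_lt sd, c.1, c.1.2, c.2.1, c.2.1.2, _, toNat_lt c.2.2.1, _,
        toNat_lt c.2.2.2, p, hp, rfl, rfl⟩
    | thr x y l k q hth hk hq =>
      obtain ⟨h1, h2, h3⟩ := Th_bound G hth
      exact Or.inr ⟨cN x, h1, cN y, h2, l, h3, k, by omega, q, hq,
        (th_iff G _ _ _).mpr ⟨x, y, hth, rfl, rfl⟩, cU_pos _ _ _ _ _, cU_pos _ _ _ _ _⟩

theorem cU_inl_lt {n K : ℕ} {x : Nd (Ct K)} (h : cN x < zz n K ^ 64) :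
    cU (Sum.inl x) < 2 * zz n K ^ 1024 := by
  obtain ⟨h1, _⟩ := zz_ge n K
  have := pw h1 (show 64 ≤ 1024 by omega)
  simp only [cU]
  omega

theorem cU_inr_lt {n K : ℕ} {x y : Nd (Ct K)} {l k q : ℕ} (hx : cN x < zz n K ^ 64)
    (hy : cN y < zz n K ^ 64) (hl : l < zz n K) (hk : k < zz n K) (hq : q < zz n K) :
    cU (Sum.inr (x, y, l, k, q)) < 2 * zz n K ^ 1024 := by
  obtain ⟨h1, _⟩ := zz_ge n K
  generalize zz n K = z at *
  have b0 := pw h1 (show 1 ≤ 64 by omega)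
  rw [pow_one] at b0
  have a1 : Nat.pair k q < (z ^ 64) ^ 2 := pair_lt (by omega) (by omega)
  rw [← pow_mul] at a1
  have b1 := pw h1 (show 64 ≤ 64 * 2 by omega)
  have a2 : Nat.pair l (Nat.pair k q) < (z ^ (64 * 2)) ^ 2 := pair_lt (by omega) a1
  rw [← pow_mul] at a2
  have b2 := pw h1 (show 64 ≤ 64 * 2 * 2 by omega)
  have a3 : Nat.pair (cN y) (Nat.pair l (Nat.pair k q)) < (z ^ (64 * 2 * 2)) ^ 2 :=
    pair_lt (by omega) a2
  rw [← pow_mul] at a3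
  have b3 := pw h1 (show 64 ≤ 64 * 2 * 2 * 2 by omega)
  have a4 : Nat.pair (cN x) (Nat.pair (cN y) (Nat.pair l (Nat.pair k q))) <
    (z ^ (64 * 2 * 2 * 2)) ^ 2 := pair_lt (by omega) a3
  rw [← pow_mul] at a4
  have e : 64 * 2 * 2 * 2 * 2 = 1024 := by norm_num
  rw [e] at a4
  simp only [cU]
  omega

theorem E_bound {n K : ℕ} (G : SimpleGraph (Fin n)) {a b : U (Ct K)}
    (h : E (csys G K) (8 * (K * K)) a b) :
    cU a < 2 * zz n K ^ 1024 ∧ cU b < 2 * zz n K ^ 1024 := by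
  cases h with
  | rail sd c p hp =>
    change p < n * n at hp
    refine ⟨cU_inl_lt (cN_lt _ ?_), cU_inl_lt (cN_lt _ ?_)⟩
    · intro _ _ _ h; simp at h; omega
    · intro _ _ _ h; simp at h; omega
  | thr x y l k q hth hk hq =>
    obtain ⟨h1, h2, h3⟩ := Th_bound G hth
    obtain ⟨_, _, h5, _⟩ := zz_ge n K
    have key : ∀ q ≤ l, cU (pos x y l k q) < 2 * zz n K ^ 1024 := by
      intro q hq
      unfold pos
      split_ifs
      · exact cU_inl_lt h1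
      · exact cU_inl_lt h2
      · exact cU_inr_lt h1 h2 h3 (by omega) (by omega)
    exact ⟨key q hq.le, key (q + 1) hq⟩

end Pool.Agent.Helper69.Num
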