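import Mathlib
import Pool.Agent.Helper69.Num

/-!
# The emitting program of the reduction
-/

namespace Pool.Agent.Helper69.Prog

open Helper69 Form Rails Helper69.Num

/-- The number of vertices. -/
def NT : Tm := ml (c 2) (powT zT 10)
/-- The deletion budget. -/
def kT : Tm := ml (c 8) (ml (v 1) (v 1))
/-- The length bound. -/
def lT : Tm := ad (ad (ad (ml (c 2) nn) (ml (c 2) (ad (v 0) (c 3)))) (v 0)) (c 6)
/-- Adjacency of the vertices held by the variables 2 and 3. -/
def aT : Tm := andT (notT (eqT (v 2) (v 3))) (orT (edT 2 3) (edT 3 2))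

/-- The adjacency matrix. -/
def matE : Em := .loop NT (.loop NT (.ite aT (.seq (.emit (some true)) (.emit none)) (.emit none)))

/-- The program once `n` and `K` are known. -/
def bodyE : Em :=
  .seq (emitNat 2 fun _ => NT) (.seq (emitNat 2 fun _ => c 0) (.seq (emitNat 2 fun _ => c 2)
    (.seq (emitNat 2 fun _ => kT) (.seq (emitNat 2 fun _ => lT) matE))))

/-- The program. -/
def prog : Em :=
  letE 0 (parseB (fun _ => ad .len (c 1)) (fun _ => c 0))
    (letE 1 (parseB (fun _ => ad (v 0) (c 2)) (fun m => ad (sizeB (fun _ => v 0) m) (c 1))) bodyE)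

/-- Numeric adjacency in the constructed graph. -/
def ad2 (A : ℕ → ℕ → Prop) (n K x y : ℕ) : Prop := ¬ x = y ∧ (ed A n K x y ∨ ed A n K y x)

open Classical in
theorem run_matE (w : List Sym) (e : ℕ → ℕ) : matE.run w 2 e =
    (List.range (2 * zz (e 0) (e 1) ^ 1024)).flatMap fun x =>
      (List.range (2 * zz (e 0) (e 1) ^ 1024)).flatMap fun y =>
        encNat (if ad2 (inN w (e 0)) (e 0) (e 1) x y then 1 else 0) := by
  have hN : ∀ n e, NT.eval w n e = 2 * zz (e 0) (e 1) ^ 1024 := by
    intro n e
    rw [NT, ml, Tm.eval, eval_powT, eval_zT]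
    rfl
  rw [matE, Em.run, hN]
  apply List.flatMap_congr
  intro x _
  rw [Em.run, hN]
  simp only [Function.update_of_ne (show (0 : ℕ) ≠ 2 by decide),
    Function.update_of_ne (show (1 : ℕ) ≠ 2 by decide)]
  apply List.flatMap_congr
  intro y _
  rw [Em.run]
  have h : tr w 4 (Function.update (Function.update e 2 x) 3 y) aT ↔
      ad2 (inN w (e 0)) (e 0) (e 1) x y := by
    rw [aT, tr_and, tr_or, tr_not, tr_eq, tr_edT (by omega) (by omega),
      tr_edT (by omega) (by omega)]
    simp [Tm.eval, ad2]
  by_cases h1 : ad2 (inN w (e 0)) (e 0) (e 1) x y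
  · rw [if_pos h1, if_neg (h.mpr h1)]
    simp [Em.run, encNat]
  · have h2 := (not_congr h).mpr h1
    rw [tr, not_not] at h2
    rw [if_neg h1, if_pos h2]
    simp [Em.run, encNat]

theorem run_bodyE (w : List Sym) (e : ℕ → ℕ) : bodyE.run w 2 e =
    encNat (2 * zz (e 0) (e 1) ^ 1024) ++ (encNat 0 ++ (encNat 2 ++
    (encNat (8 * (e 1 * e 1)) ++ (encNat (2 * (e 0 * e 0) + 2 * (e 0 + 3) + e 0 + 6) ++
      matE.run w 2 e)))) := by
  have e0 : ∀ (e' : ℕ → ℕ), (∀ i < 2, e' i = e i) → e' 0 = e 0 ∧ e' 1 = e 1 :=
    fun e' h => ⟨h 0 (by omega), h 1 (by omega)⟩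
  rw [bodyE]
  simp only [Em.run]
  rw [run_emitNat (v := 2 * zz (e 0) (e 1) ^ 1024), run_emitNat (v := 0), run_emitNat (v := 2),
    run_emitNat (v := 8 * (e 1 * e 1)),
    run_emitNat (v := 2 * (e 0 * e 0) + 2 * (e 0 + 3) + e 0 + 6)]
  · intro m _ e' he'
    obtain ⟨h0, h1⟩ := e0 e' he'
    simp [lT, nn, Tm.eval, h0]
  · intro m _ e' he'
    obtain ⟨h0, h1⟩ := e0 e' he'
    simp [kT, Tm.eval, h1]
  · intro m _ e' he'
    rfl
  · intro m _ e' he'
    rfl
  · intro m _ e' he'
    obtain ⟨h0, h1⟩ := e0 e' he'
    rw [NT, ml, Tm.eval, eval_powT, eval_zT, h0, h1]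
    rfl

theorem out_prog (n K : ℕ) (l : List Sym) (hl : n ≤ l.length) :
    prog.out (encNat n ++ (encNat K ++ l)) =
    bodyE.run (encNat n ++ (encNat K ++ l)) 2
      (Function.update (Function.update (fun _ => 0) 0 n) 1 (min K (n + 2))) := by
  set w := encNat n ++ (encNat K ++ l) with hw
  have hlen : n < w.length + 1 := by
    rw [hw]
    simp only [List.length_append]
    omega
  have h1 : Val w 0 (fun _ => 0) (parseB (fun _ => ad .len (c 1)) (fun _ => c 0)) n := by
    have := Val.parseB (w := w) (n := 0) (e := fun _ => 0) (bound := fun _ => ad .len (c 1))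
      (off := fun _ => c 0) (N := w.length + 1) (o := 0) (a := n) (l := encNat K ++ l)
      (by intro m _ e' _; rfl) (by intro m _ e' _; rfl) (by simp [hw])
    rwa [min_eq_left (by omega)] at this
  have hdrop : w.drop (Nat.size n + 1) = encNat K ++ l := by
    rw [hw]
    have : (encNat n).length = Nat.size n + 1 := by
      simp [encNat, Nat.size_eq_bits_len]
    rw [← this, List.drop_left]
  have h2 : Val w 1 (Function.update (fun _ => 0) 0 n)
      (parseB (fun _ => ad (v 0) (c 2)) (fun m => ad (sizeB (fun _ => v 0) m) (c 1)))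
      (min K (n + 2)) := by
    have h3 : Val w 1 (Function.update (fun _ => 0) 0 n) (fun _ => v 0) n := by
      intro m _ e' he'
      have := he' 0 (by omega)
      simpa [Tm.eval] using this
    refine Val.parseB (o := Nat.size n + 1) (l := l) ?_ ?_ hdrop
    · intro m _ e' he'
      have := he' 0 (by omega)
      simp only [Function.update_self] at this
      simp [Tm.eval, this]
    · intro m hm e' he'
      have h4 := h3.sizeB m hm e' he'
      simp only [Tm.eval, h4]
  rw [Em.out, prog, run_letE h1, run_letE h2]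

theorem block_get {α : Type} (m : ℕ) (g : ℕ → List α) (hg : ∀ i, (g i).length = m) (n i j : ℕ)
    (hi : i < n) (hj : j < m) : ((List.range n).flatMap g)[i * m + j]? = (g i)[j]? := by
  have hlen : ∀ n, ((List.range n).flatMap g).length = n * m := by
    intro n
    induction n with
    | zero => simp
    | succ n ih =>
      rw [List.range_succ, List.flatMap_append, List.length_append, ih]
      simp only [List.flatMap_cons, List.flatMap_nil, List.append_nil, hg]
      ring
  induction n with
  | zero => omega
  | succ n ih =>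
    rw [List.range_succ, List.flatMap_append]
    rcases Nat.lt_succ_iff_lt_or_eq.mp hi with h | h
    · rw [List.getElem?_append_left]
      · exact ih h
      · rw [hlen]
        nlinarith
    · subst h
      rw [List.getElem?_append_right (by rw [hlen]; omega), hlen]
      simp

open Classical in
theorem inN_iff {n K : ℕ} (G : SimpleGraph (Fin n)) {a b : ℕ} (ha : a < n) (hb : b < n) :
    inN (encNat n ++ (encNat K ++ (List.finRange n).flatMap fun u =>
      (List.finRange n).map fun v => some (decide (G.Adj u v)))) n a b ↔ AN G a b := by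
  set l : List Sym := (List.finRange n).flatMap fun u =>
      (List.finRange n).map fun v => some (decide (G.Adj u v)) with hl
  have hl2 : l = (List.range n).flatMap fun u =>
      (List.range n).map fun v => some (decide (AN G u v)) := by
    rw [hl, ← List.map_coe_finRange_eq_range, List.flatMap_map]
    apply List.flatMap_congr
    intro u _
    rw [List.map_map]
    apply List.map_congr_left
    intro v _
    simp only [Function.comp_apply]
    congr 1
    apply decide_eq_decide.mpr
    constructor
    · intro h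
      exact ⟨u, v, rfl, rfl, h⟩
    · rintro ⟨x, y, hx, hy, h⟩
      rwa [Fin.ext hx, Fin.ext hy] at h
  have hlen : l.length = n * n := by
    rw [hl]
    simp [List.length_flatMap]
  have hidx : (encNat n ++ (encNat K ++ l)).length - n * n + (a * n + b) =
      (encNat n ++ encNat K).length + (a * n + b) := by
    simp only [List.length_append, hlen]
    omega
  rw [inN, hidx, ← List.append_assoc, List.getElem?_append_right (by omega)]
  rw [Nat.add_sub_cancel_left, hl2, block_get n _ (by simp) n a b ha hb]
  simp [hb]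

theorem ct_congr {A B : ℕ → ℕ → Prop} {n a b : ℕ} (h : A a b ↔ B a b) (sd h' g q s : ℕ) :
    ct A n sd h' g q s a b = ct B n sd h' g q s a b := by
  have h1 : A a b = B a b := propext h
  rw [ct, ct, h1]

theorem ed_congr {A B : ℕ → ℕ → Prop} {n : ℕ} (h : ∀ a < n, ∀ b < n, (A a b ↔ B a b))
    (K u v : ℕ) : ed A n K u v ↔ ed B n K u v := by
  have h2 : ∀ x y l h' g q s, th2 A n x y l h' g q s ↔ th2 B n x y l h' g q s := by
    intro x y l h' g q s
    unfold th2
    constructor
    · rintro ⟨sd, hsd, a, ha, b, hb, h1, h2, h3⟩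
      exact ⟨sd, hsd, a, ha, b, hb, h1, h2, by rw [h3, ct_congr (h a ha b hb)]⟩
    · rintro ⟨sd, hsd, a, ha, b, hb, h1, h2, h3⟩
      exact ⟨sd, hsd, a, ha, b, hb, h1, h2, by rw [h3, ct_congr (h a ha b hb)]⟩
  unfold ed th
  simp only [h2]

/-- The number of vertices of the constructed graph. -/
def NN (n K : ℕ) : ℕ := 2 * zz n K ^ 1024

theorem NN_eq (n K : ℕ) : NN n K = 2 * zz n K ^ 1024 := rfl

theorem NN_gt (n K : ℕ) : 2 < NN n K := by
  have h1 := (zz_ge n K).1
  have h2 := pw h1 (show 1 ≤ 1024 by omega)
  rw [pow_one] at h2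
  rw [NN_eq]
  omega

attribute [irreducible] NN

theorem E_bound' {n K : ℕ} (G : SimpleGraph (Fin n)) {a b : U (Ct K)}
    (h : E (csys G K) (8 * (K * K)) a b) : cU a < NN n K ∧ cU b < NN n K := by
  rw [NN_eq]
  exact E_bound G h

open Classical in
/-- The output of the program on the encoding of a clique instance. -/
theorem prog_spec {n : ℕ} (G : SimpleGraph (Fin n)) (K : ℕ) :
    prog.out (encNat n ++ (encNat K ++ (List.finRange n).flatMap fun u =>
      (List.finRange n).map fun v => some (decide (G.Adj u v)))) =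
    encNat (NN n (min K (n + 2))) ++ (encNat 0 ++ (encNat 2 ++
      (encNat (8 * (min K (n + 2) * min K (n + 2))) ++
      (encNat (2 * (n * n) + 2 * (n + 3) + n + 6) ++
      (List.finRange (NN n (min K (n + 2)))).flatMap fun x =>
      (List.finRange (NN n (min K (n + 2)))).flatMap fun y =>
        encNat (if (numGraph (NN n (min K (n + 2))) cU
          (E (csys G (min K (n + 2))) (8 * (min K (n + 2) * min K (n + 2))))).Adj x y
          then 1 else 0))))) := by
  rw [NN_eq]
  have hlen : n ≤ ((List.finRange n).flatMap fun u =>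
      (List.finRange n).map fun v => (some (decide (G.Adj u v)) : Sym)).length := by
    simp only [List.length_flatMap, List.length_map, List.length_finRange, List.map_const',
      List.sum_replicate, smul_eq_mul]
    nlinarith
  rw [out_prog n K _ hlen, run_bodyE, run_matE]
  simp only [Function.update_self, Function.update_of_ne (show (0 : ℕ) ≠ 1 by decide)]
  generalize hk : min K (n + 2) = k
  have hA : ∀ u v, ed (inN (encNat n ++ (encNat K ++ (List.finRange n).flatMap fun u =>
      (List.finRange n).map fun v => some (decide (G.Adj u v)))) n) n k u v ↔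
      ∃ a b, E (csys G k) (8 * (k * k)) a b ∧ cU a = u ∧ cU b = v := by
    intro u v
    rw [ed_congr (fun a ha b hb => inN_iff G ha hb), ed_iff]
  generalize 2 * zz n k ^ 1024 = N
  refine congrArg (encNat N ++ ·) (congrArg (encNat 0 ++ ·) (congrArg (encNat 2 ++ ·)
    (congrArg (encNat (8 * (k * k)) ++ ·)
      (congrArg (encNat (2 * (n * n) + 2 * (n + 3) + n + 6) ++ ·) ?_))))
  rw [← List.map_coe_finRange_eq_range, List.flatMap_map]
  apply List.flatMap_congr
  intro x _
  rw [List.flatMap_map]
  apply List.flatMap_congr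
  intro y _
  have h : ad2 (inN (encNat n ++ (encNat K ++ (List.finRange n).flatMap fun u =>
      (List.finRange n).map fun v => some (decide (G.Adj u v)))) n) n k x.1 y.1 ↔
      (numGraph N cU (E (csys G k) (8 * (k * k)))).Adj x y := by
    rw [ad2, hA, hA, numGraph, SimpleGraph.fromRel_adj]
    refine and_congr (not_congr ⟨fun h => Fin.ext h, fun h => by rw [h]⟩) Iff.rfl
  by_cases h1 : (numGraph N cU (E (csys G k) (8 * (k * k)))).Adj x y
  · rw [if_pos h1, if_pos (h.mpr h1)]
  · rw [if_neg h1, if_neg ((not_congr h).mpr h1)]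

end Pool.Agent.Helper69.Prog
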