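import Pool.Agent.Helper69.SPInj

/-!
# Parameterized problems, fpt reductions and W[1]-hardness

Parameterized problems, fpt reductions (computed by the multi-stack Turing machines of Mathlib),
W[1]-hardness, and the problems Clique and Shortest Path Most Vital Edges (SP-MVE).
-/

namespace Pool.Agent.Helper69.SP

/-- A parameterized decision problem: instances, an injective encoding of the instances by words,
the set of yes-instances and the parameter. -/
structure ParamProblem where
  /-- instances -/
  Inst : Type
  /-- encoding of instances -/
  enc : Inst → List (Option Bool)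
  /-- different instances have different encodings -/
  enc_inj : Function.Injective enc
  /-- the yes-instances -/
  Yes : Inst → Prop
  /-- the parameter -/
  param : Inst → ℕ

/-- The map `f` between the instances of two problems is computed by a Turing machine (Mathlib's
multi-stack machine `Turing.FinTM2`, with all stack alphabets finite) within
`h (param x) * (|enc x| + 1) ^ c` steps, where `h` is a computable function and `c` a constant. -/
def ComputableInFPTTime (P Q : ParamProblem) (f : P.Inst → Q.Inst) : Prop :=
  ∃ (tm : Turing.FinTM2) (ein : tm.Γ tm.k₀ ≃ Option Bool) (eout : tm.Γ tm.k₁ ≃ Option Bool)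
    (h : ℕ → ℕ) (c : ℕ), (∀ i, Finite (tm.Γ i)) ∧ Computable h ∧
    ∀ x, Nonempty (Turing.TM2OutputsInTime tm ((P.enc x).map ein.symm)
      (some ((Q.enc (f x)).map eout.symm)) (h (P.param x) * ((P.enc x).length + 1) ^ c))

/-- There is an fpt many-one reduction from `P` to `Q` all of whose values satisfy `R`. -/
def FPTReducesInto (P Q : ParamProblem) (R : Q.Inst → Prop) : Prop :=
  ∃ (f : P.Inst → Q.Inst) (g : ℕ → ℕ), ComputableInFPTTime P Q f ∧ Computable g ∧
    ∀ x, (P.Yes x ↔ Q.Yes (f x)) ∧ Q.param (f x) ≤ g (P.param x) ∧ R (f x)

/-- Clique, parameterized by the size of the clique. -/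
noncomputable def Clique : ParamProblem where
  Inst := CliqueInst
  enc := CliqueInst.enc
  enc_inj := cliqueEnc_inj
  Yes x := ∃ s : Finset (Fin x.n), x.G.IsNClique x.K s
  param x := x.K

/-- Shortest Path Most Vital Edges, parameterized by the number of deleted edges. -/
def SPMVE : ParamProblem where
  Inst := SPInst
  enc := SPInst.enc
  enc_inj := spEnc_inj
  Yes := SPInst.Yes
  param x := x.k

/-- The problem `Q`, restricted to the instances in `R`, is W[1]-hard: the W[1]-complete problem
Clique fpt-reduces to it. -/
def W1HardOn (Q : ParamProblem) (R : Q.Inst → Prop) : Prop := FPTReducesInto Clique Q R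

end Pool.Agent.Helper69.SP
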