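import Pool.Agent.Helper69.SPInst
import Pool.Agent.Helper69.Terms

/-!
# The encodings are injective
-/

namespace Pool.Agent.Helper69.SP

open Pool.Agent.Helper69

theorem bin_eq (n : ℕ) : bin n = encNat n := rfl

theorem bin_inj {a b : ℕ} {l l' : List (Option Bool)} (h : bin a ++ l = bin b ++ l') :
    a = b ∧ l = l' := encNat_inj h

theorem flatMap_inj {α β : Type} (f g : α → List β) (l : List α)
    (h : ∀ a ∈ l, ∀ r r', f a ++ r = g a ++ r' → f a = g a ∧ r = r') (r r' : List β)
    (H : l.flatMap f ++ r = l.flatMap g ++ r') : (∀ a ∈ l, f a = g a) ∧ r = r' := by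
  induction l with
  | nil => exact ⟨by simp, by simpa using H⟩
  | cons x l ih =>
    rw [List.flatMap_cons, List.flatMap_cons, List.append_assoc, List.append_assoc] at H
    obtain ⟨h1, h2⟩ := h x (by simp) _ _ H
    obtain ⟨h3, h4⟩ := ih (fun a ha => h a (by simp [ha])) h2
    refine ⟨?_, h4⟩
    intro a ha
    rcases List.mem_cons.mp ha with rfl | ha
    · exact h1
    · exact h3 a ha

theorem flatMap_inj' {α β : Type} (f g : α → List β) (l : List α)
    (h : ∀ a ∈ l, ∀ r r', f a ++ r = g a ++ r' → f a = g a ∧ r = r')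
    (H : l.flatMap f = l.flatMap g) : ∀ a ∈ l, f a = g a :=
  (flatMap_inj f g l h [] [] (by rw [H])).1

theorem cliqueEnc_inj : Function.Injective CliqueInst.enc := by
  classical
  rintro ⟨n, G, K⟩ ⟨n', G', K'⟩ h
  simp only [CliqueInst.enc] at h
  obtain ⟨h1, h⟩ := bin_inj h
  subst h1
  obtain ⟨h1, h⟩ := bin_inj h
  subst h1
  have h1 := flatMap_inj' _ _ _ (fun u _ r r' hr => List.append_inj hr (by simp)) h
  have h2 : G = G' := by
    ext u v
    have h3 := h1 u (List.mem_finRange u)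
    rw [List.map_inj_left] at h3
    have h4 := h3 v (List.mem_finRange v)
    simpa using h4
  rw [h2]

theorem spEnc_inj : Function.Injective SPInst.enc := by
  rintro ⟨n, G, τ, hp, s, t, k, l⟩ ⟨n', G', τ', hp', s', t', k', l'⟩ h
  simp only [SPInst.enc] at h
  obtain ⟨hn, h0⟩ := bin_inj h
  subst hn
  obtain ⟨hs, h1⟩ := bin_inj h0
  have hs' : s = s' := Fin.ext hs
  subst hs'
  obtain ⟨ht, h2⟩ := bin_inj h1
  have ht' : t = t' := Fin.ext ht
  subst ht'
  obtain ⟨hk, h3⟩ := bin_inj h2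
  subst hk
  obtain ⟨hl, h4⟩ := bin_inj h3
  subst hl
  have hin : ∀ (u v : Fin n) (r r' : List (Option Bool)),
      bin (τ s(u, v)) ++ r = bin (τ' s(u, v)) ++ r' → bin (τ s(u, v)) = bin (τ' s(u, v)) ∧ r = r' := by
    intro u v r r' hr
    obtain ⟨h1, h2⟩ := bin_inj hr
    exact ⟨by rw [h1], h2⟩
  have h1 := flatMap_inj' _ _ _ (fun u _ r r' hr => by
    obtain ⟨h3, h4⟩ := flatMap_inj _ _ _ (fun v _ => hin u v) _ _ hr
    exact ⟨List.flatMap_congr h3, h4⟩) h4
  have h2 : τ = τ' := by
    funext e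
    induction e using Sym2.ind with | _ u v => ?_
    have h3 := h1 u (List.mem_finRange u)
    have h4 := flatMap_inj' _ _ _ (fun v _ => hin u v) h3 v (List.mem_finRange v)
    exact (bin_inj (l := []) (l' := []) (by rw [h4])).1
  subst h2
  have h3 : G = G' := by
    ext u v
    rw [← SimpleGraph.mem_edgeSet, ← SimpleGraph.mem_edgeSet, ← hp, ← hp']
  subst h3
  rfl

end Pool.Agent.Helper69.SP
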