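import Mathlib

/-!
# Instances of Clique and of Shortest Path Most Vital Edges and their encodings
-/

namespace Pool.Agent.Helper69.SP

/-- A number in binary (least significant bit first), followed by a separator. Words are over the
alphabet of the two bits and the separator. -/
def bin (n : ℕ) : List (Option Bool) := (Nat.bits n).map some ++ [none]

/-- Instances of Clique: a graph on `Fin n` and a number. -/
structure CliqueInst where
  /-- number of vertices -/
  n : ℕ
  /-- the graph -/
  G : SimpleGraph (Fin n)
  /-- size of the clique -/
  K : ℕ

open Classical in
/-- Encoding of an instance of Clique: `n` and `K` in binary and the adjacency matrix. -/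
noncomputable def CliqueInst.enc (x : CliqueInst) : List (Option Bool) :=
  bin x.n ++ (bin x.K ++ (List.finRange x.n).flatMap fun u =>
    (List.finRange x.n).map fun v => some (decide (x.G.Adj u v)))

/-- Instances of Shortest Path Most Vital Edges: a graph on `Fin n` with positive integer edge
lengths `τ` (with the value `0` at the pairs which are not edges), two vertices `s` and `t`, the
budget `k` and the length `l`. -/
structure SPInst where
  /-- number of vertices -/
  n : ℕ
  /-- the graph -/
  G : SimpleGraph (Fin n)
  /-- edge lengths -/
  τ : Sym2 (Fin n) → ℕ
  /-- exactly the edges have positive length -/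
  pos : ∀ e, 0 < τ e ↔ e ∈ G.edgeSet
  /-- source -/
  s : Fin n
  /-- target -/
  t : Fin n
  /-- number of edges that may be deleted -/
  k : ℕ
  /-- required length -/
  l : ℕ

/-- Encoding of an instance of SP-MVE: `n`, `s`, `t`, `k`, `l` in binary and the matrix of the
edge lengths, in binary. -/
def SPInst.enc (x : SPInst) : List (Option Bool) :=
  bin x.n ++ (bin x.s ++ (bin x.t ++ (bin x.k ++ (bin x.l ++
    (List.finRange x.n).flatMap fun u => (List.finRange x.n).flatMap fun v => bin (x.τ s(u, v))))))

/-- At most `k` edges can be deleted so that every path from `s` to `t` in the remaining graph has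
length at least `l`. -/
def SPInst.Yes (x : SPInst) : Prop :=
  ∃ S : Finset (Sym2 (Fin x.n)), (↑S : Set (Sym2 (Fin x.n))) ⊆ x.G.edgeSet ∧ S.card ≤ x.k ∧
    ∀ p : (x.G.deleteEdges ↑S).Path x.s x.t, x.l ≤ (p.1.edges.map x.τ).sum

end Pool.Agent.Helper69.SP
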