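import Pool.Agent.Helper69.SPDefs
import Pool.Agent.Helper69.Prog

/-!
# Shortest Path Most Vital Edges is W[1]-hard with respect to the deletion budget
-/

namespace Pool.Agent.Helper69.SP

open Pool.Agent.Helper69 Pool.Agent.Helper69.Rails Pool.Agent.Helper69.Num
open Pool.Agent.Helper69.Prog (NN NN_gt E_bound' prog_spec)

theorem clique_iff {n : ℕ} (G : SimpleGraph (Fin n)) (K : ℕ) :
    (∃ s : Finset (Fin n), G.IsNClique K s) ↔
      ∃ f : Fin K → Fin n, ∀ i j, i ≠ j → G.Adj (f i) (f j) := by
  classical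
  constructor
  · rintro ⟨s, hs⟩
    refine ⟨fun i => ((s.equivFinOfCardEq hs.card_eq).symm i).1, ?_⟩
    intro i j hij
    apply hs.isClique (Finset.coe_mem _) (Finset.coe_mem _)
    intro h
    exact hij ((s.equivFinOfCardEq hs.card_eq).symm.injective (Subtype.ext h))
  · rintro ⟨f, hf⟩
    have hinj : Function.Injective f := by
      intro i j hij
      by_contra hne
      have := hf i j hne
      rw [hij] at this
      exact G.loopless.irrefl _ this
    refine ⟨Finset.univ.map ⟨f, hinj⟩, ?_, ?_⟩
    · intro u hu v hv huv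
      rw [Finset.mem_coe, Finset.mem_map] at hu hv
      obtain ⟨i, _, rfl⟩ := hu
      obtain ⟨j, _, rfl⟩ := hv
      exact hf i j (fun h => huv (by rw [h]))
    · rw [Finset.card_map, Finset.card_univ, Fintype.card_fin]

theorem clique_min {n : ℕ} (G : SimpleGraph (Fin n)) (K : ℕ) :
    (∃ s : Finset (Fin n), G.IsNClique K s) ↔
      ∃ s : Finset (Fin n), G.IsNClique (min K (n + 2)) s := by
  by_cases h : K ≤ n + 2
  · rw [min_eq_left h]
  · constructor
    · rintro ⟨s, hs⟩
      have h1 := hs.card_eq
      have h2 := Finset.card_le_univ s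
      rw [Fintype.card_fin] at h2
      omega
    · rintro ⟨s, hs⟩
      have h1 := hs.card_eq
      have h2 := Finset.card_le_univ s
      rw [Fintype.card_fin] at h2
      omega

theorem card_Ct (K : ℕ) : 8 * (K * K) = 2 * Fintype.card (Ct K) := by
  simp only [Ct, Fintype.card_prod, Fintype.card_fin, Fintype.card_bool]
  ring

theorem cut_iff {n : ℕ} (G : SimpleGraph (Fin n)) (K : ℕ) :
    (∃ s : Finset (Fin n), G.IsNClique K s) ↔
    (∃ S : Finset (Sym2 (U (Ct K))),
      (↑S : Set (Sym2 (U (Ct K)))) ⊆ (gr (csys G K) (8 * (K * K))).edgeSet ∧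
      S.card ≤ 8 * (K * K) ∧ ∀ p : ((gr (csys G K) (8 * (K * K))).deleteEdges ↑S).Walk
        (Sum.inl .s) (Sum.inl .t), (csys G K).l ≤ p.length) := by
  rw [clique_iff, ← sat_iff]
  constructor
  · rintro ⟨x, hx⟩
    obtain ⟨S, h1, h2, h3⟩ := cut_of_sat (csys G K) (fun sd c p hp => by
      have := cost_le G sd c p hp
      change cost G sd c p ≤ n + 3 + n
      exact this) (by change n ≤ n + 2; omega) (card_Ct K) hx
    exact ⟨S, h2, h1, h3⟩
  · rintro ⟨S, h1, h2, h3⟩
    refine sat_of_cut (csys G K) (fun sd c p => ?_) ?_ ?_ (card_Ct K) h2 ?_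
    · change 1 ≤ cost G sd c p
      unfold cost
      split_ifs <;> omega
    · change 2 ≤ n + 2
      omega
    · change n + 2 < n + 3
      omega
    · rintro m ⟨p, rfl⟩
      exact h3 p

/-- The constructed graph. -/
noncomputable def GG {n : ℕ} (G : SimpleGraph (Fin n)) (K : ℕ) : SimpleGraph (Fin (NN n K)) :=
  numGraph (NN n K) cU (E (csys G K) (8 * (K * K)))

open Classical in
/-- The constructed instance. -/
noncomputable def out (x : CliqueInst) : SPInst where
  n := NN x.n (min x.K (x.n + 2))
  G := GG x.G (min x.K (x.n + 2))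
  τ e := if e ∈ (GG x.G (min x.K (x.n + 2))).edgeSet then 1 else 0
  pos e := by
    split_ifs with h <;> simp [h]
  s := ⟨0, by have := NN_gt x.n (min x.K (x.n + 2)); omega⟩
  t := ⟨2, NN_gt x.n (min x.K (x.n + 2))⟩
  k := 8 * (min x.K (x.n + 2) * min x.K (x.n + 2))
  l := 2 * (x.n * x.n) + 2 * (x.n + 3) + x.n + 6

theorem out_yes (x : CliqueInst) :
    (∃ s : Finset (Fin x.n), x.G.IsNClique x.K s) ↔ (out x).Yes := by
  classical
  rw [clique_min, cut_iff]
  set K := min x.K (x.n + 2) with hK
  have hE : ∀ a b, E (csys x.G K) (8 * (K * K)) a b → cU a < NN x.n K ∧ cU b < NN x.n K :=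
    fun a b h => E_bound' x.G h
  have hgt := NN_gt x.n K
  have htr := transfer (NN x.n K) cU cU_inj (E (csys x.G K) (8 * (K * K))) hE
    (Sum.inl .s) (Sum.inl .t) (by change 2 * 0 < _; omega) (by change 2 * 1 < _; omega)
    (8 * (K * K)) (csys x.G K).l
  rw [gr, ← htr, SPInst.Yes]
  refine exists_congr fun S => and_congr Iff.rfl (and_congr Iff.rfl ?_)
  change Finset (Sym2 (Fin (out x).n)) at S
  have hsum : ∀ {u v : Fin (out x).n} (p : ((out x).G.deleteEdges ↑S).Walk u v),
      (p.edges.map (out x).τ).sum = p.length := by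
    intro u v p
    have h1 : p.edges.map (out x).τ = p.edges.map (fun _ => 1) := by
      apply List.map_congr_left
      intro e he
      have h2 := p.edges_subset_edgeSet he
      rw [SimpleGraph.edgeSet_deleteEdges] at h2
      exact if_pos h2.1
    rw [h1]
    simp
  constructor
  · intro h p
    rw [hsum p.1]
    exact h p.1
  · intro h p
    have h1 := h p.toPath
    rw [hsum] at h1
    exact le_trans h1 p.length_bypass_le_length

theorem out_enc (x : CliqueInst) : (out x).enc = Prog.prog.out x.enc := by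
  classical
  have h := prog_spec x.G x.K
  rw [CliqueInst.enc, bin_eq, bin_eq]
  refine Eq.trans ?_ (Eq.trans h.symm ?_)
  · rw [SPInst.enc]
    rfl
  · congr

theorem computable_g : Computable fun K : ℕ => 8 * (K * K) := by
  apply Primrec.to_comp
  exact Primrec.nat_mul.comp (Primrec.const 8) (Primrec.nat_mul.comp Primrec.id Primrec.id)

/-- Shortest Path Most Vital Edges parameterized by the number `k` of deleted edges is W[1]-hard,
even on instances in which all edges have length one. -/
theorem main : W1HardOn SPMVE fun x => ∀ e ∈ x.G.edgeSet, x.τ e = 1 := by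
  obtain ⟨tm, ein, eout, C, c, hfin, htm⟩ := em_poly Prog.prog
  refine ⟨out, fun K => 8 * (K * K), ⟨tm, ein, eout, fun _ => C, c, hfin, Computable.const C, ?_⟩,
    computable_g, ?_⟩
  · intro x
    have h := htm (CliqueInst.enc x)
    rw [← out_enc] at h
    exact h
  · intro x
    refine ⟨out_yes x, ?_, ?_⟩
    · change 8 * (min x.K (x.n + 2) * min x.K (x.n + 2)) ≤ 8 * (x.K * x.K)
      have := Nat.mul_le_mul (Nat.min_le_left x.K (x.n + 2)) (Nat.min_le_left x.K (x.n + 2))
      omega
    · intro e he
      exact if_pos he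

end Pool.Agent.Helper69.SP
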